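import Mathlib

-- part MP_23c9d7_co.Chain
section

/-! Augmented chain complex of the order complex of a finite poset. -/

namespace Pool.Agent.MP_23c9d7_co

open Classical Finset

noncomputable section

variable {L : Type*} [Fintype L] [PartialOrder L] (F : Type*) [Field F]

/-- `σ` is totally ordered. -/
def IsCh (σ : Finset L) : Prop := ∀ a ∈ σ, ∀ b ∈ σ, a ≤ b ∨ b ≤ a

omit [Fintype L] in
lemma IsCh.mono {σ τ : Finset L} (h : IsCh σ) (hτ : τ ⊆ σ) : IsCh τ :=
  fun a ha b hb => h a (hτ ha) b (hτ hb)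

/-- functions supported on a family -/
def sup {Ω : Type*} (P : Ω → Prop) : Submodule F (Ω → F) where
  carrier := {f | ∀ σ, ¬ P σ → f σ = 0}
  add_mem' := by
    intro f g hf hg σ h
    simp [hf σ h, hg σ h]
  zero_mem' := by intro σ _; rfl
  smul_mem' := by
    intro c f hf σ h
    simp [hf σ h]

lemma mem_sup {Ω : Type*} {P : Ω → Prop} {f : Ω → F} : f ∈ sup F P ↔ ∀ σ, ¬ P σ → f σ = 0 :=
  Iff.rfl

lemma sup_mono {Ω : Type*} {P Q : Ω → Prop} (h : ∀ σ, P σ → Q σ) : sup F P ≤ sup F Q :=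
  fun _ hf σ hσ => hf σ (fun hp => hσ (h σ hp))

/-- chains with values in `Y` -/
def C (Y : Set L) : Submodule F (Finset L → F) := sup F (fun σ => IsCh σ ∧ (σ : Set L) ⊆ Y)

omit [Fintype L] in
lemma C_mono {Y Y' : Set L} (h : Y ⊆ Y') : C F Y ≤ C F Y' :=
  sup_mono F (fun _ hσ => ⟨hσ.1, hσ.2.trans h⟩)

def sg (x : L) (τ : Finset L) : F := (-1) ^ (τ.filter (· < x)).card

def su (x : L) (τ : Finset L) : F := (-1) ^ (τ.filter (x < ·)).card

omit [Fintype L] in
lemma sg_insert (x y : L) (τ : Finset L) (hy : y ∉ τ) :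
    sg F x (insert y τ) = (if y < x then -1 else 1) * sg F x τ := by
  unfold sg
  rw [filter_insert]
  split_ifs with h
  · rw [card_insert_of_notMem (by simp [hy]), pow_succ]; ring
  · simp

omit [Fintype L] in
lemma su_insert (x y : L) (τ : Finset L) (hy : y ∉ τ) :
    su F x (insert y τ) = (if x < y then -1 else 1) * su F x τ := by
  unfold su
  rw [filter_insert]
  split_ifs with h
  · rw [card_insert_of_notMem (by simp [hy]), pow_succ]; ring
  · simp

omit [Fintype L] in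
lemma su_mul_self (x : L) (τ : Finset L) : su F x τ * su F x τ = 1 := by
  unfold su
  rw [← mul_pow]; simp

/-- the boundary operator -/
def bd : (Finset L → F) →ₗ[F] (Finset L → F) where
  toFun f τ := ∑ x, if x ∉ τ ∧ IsCh (insert x τ) then sg F x τ * f (insert x τ) else 0
  map_add' f g := by
    funext τ
    simp only [Pi.add_apply, ← sum_add_distrib]
    refine sum_congr rfl fun x _ => ?_
    split_ifs <;> ring
  map_smul' c f := by
    funext τ
    simp only [Pi.smul_apply, smul_eq_mul, RingHom.id_apply, mul_sum]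
    refine sum_congr rfl fun x _ => ?_
    split_ifs <;> ring

lemma bd_apply (f : Finset L → F) (τ : Finset L) :
    bd F f τ = ∑ x, if x ∉ τ ∧ IsCh (insert x τ) then sg F x τ * f (insert x τ) else 0 := rfl

lemma bd_bd (f : Finset L → F) : bd F (bd F f) = 0 := by
  funext τ
  rw [bd_apply]
  let term : L × L → F := fun p =>
    if p.1 ∉ τ ∧ p.2 ∉ τ ∧ p.1 ≠ p.2 ∧ IsCh (insert p.2 (insert p.1 τ)) then
      sg F p.1 τ * (sg F p.2 (insert p.1 τ) * f (insert p.2 (insert p.1 τ))) else 0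
  have h1 : ∀ x, (if x ∉ τ ∧ IsCh (insert x τ) then sg F x τ * bd F f (insert x τ) else 0)
      = ∑ y, term (x, y) := by
    intro x
    by_cases hx : x ∉ τ ∧ IsCh (insert x τ)
    · rw [if_pos hx, bd_apply, mul_sum]
      refine sum_congr rfl fun y _ => ?_
      by_cases hy : y ∉ insert x τ ∧ IsCh (insert y (insert x τ))
      · have h2 : x ∉ τ ∧ y ∉ τ ∧ x ≠ y ∧ IsCh (insert y (insert x τ)) := by
          refine ⟨hx.1, fun h => hy.1 (mem_insert_of_mem h), ?_, hy.2⟩
          rintro rfl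
          exact hy.1 (mem_insert_self _ _)
        simp only [term]
        rw [if_pos hy, if_pos h2]
      · have h2 : ¬ (x ∉ τ ∧ y ∉ τ ∧ x ≠ y ∧ IsCh (insert y (insert x τ))) := by
          rintro ⟨_, h3, h4, h5⟩
          exact hy ⟨by simp [h3, h4.symm], h5⟩
        simp only [term]
        rw [if_neg hy, if_neg h2, mul_zero]
    · rw [if_neg hx]
      symm
      refine sum_eq_zero fun y _ => ?_
      simp only [term]
      rw [if_neg]
      rintro ⟨h2, _, _, h5⟩
      exact hx ⟨h2, h5.mono (subset_insert _ _)⟩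
  simp only [h1]
  rw [← Fintype.sum_prod_type' (fun x y => term (x, y))]
  show ∑ p : L × L, term p = 0
  refine sum_involution (fun p _ => p.swap) ?_ ?_ (fun _ _ => mem_univ _) (fun _ _ => rfl)
  · rintro ⟨x, y⟩ _
    simp only [term, Prod.swap]
    by_cases h : x ∉ τ ∧ y ∉ τ ∧ x ≠ y ∧ IsCh (insert y (insert x τ))
    · have h' : y ∉ τ ∧ x ∉ τ ∧ y ≠ x ∧ IsCh (insert x (insert y τ)) :=
        ⟨h.2.1, h.1, h.2.2.1.symm, by rw [insert_comm]; exact h.2.2.2⟩
      rw [if_pos h, if_pos h', sg_insert F y x τ h.1, sg_insert F x y τ h.2.1, insert_comm x y]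
      rcases h.2.2.2 x (by simp) y (by simp) with hxy | hxy
      · have h3 : x < y := lt_of_le_of_ne hxy h.2.2.1
        rw [if_pos h3, if_neg (lt_asymm h3)]; ring
      · have h3 : y < x := lt_of_le_of_ne hxy h.2.2.1.symm
        rw [if_pos h3, if_neg (lt_asymm h3)]; ring
    · have h' : ¬ (y ∉ τ ∧ x ∉ τ ∧ y ≠ x ∧ IsCh (insert x (insert y τ))) := by
        rintro ⟨a, b, c, d⟩
        exact h ⟨b, a, c.symm, by rw [insert_comm]; exact d⟩
      rw [if_neg h, if_neg h', add_zero]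
  · rintro ⟨x, y⟩ _ hne heq
    apply hne
    simp only [Prod.swap, Prod.mk.injEq] at heq
    simp only [term]
    rw [if_neg]
    rintro ⟨_, _, h, _⟩
    exact h heq.2

/-- the boundary preserves a family closed under removing a point -/
lemma bd_mem_sup {P Q : Finset L → Prop}
    (h : ∀ τ x, x ∉ τ → IsCh (insert x τ) → P (insert x τ) → Q τ)
    {f : Finset L → F} (hf : f ∈ sup F P) : bd F f ∈ sup F Q := by
  intro τ hτ
  rw [bd_apply]
  refine sum_eq_zero fun x _ => ?_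
  split_ifs with hx
  · rw [hf _ (fun hp => hτ (h τ x hx.1 hx.2 hp)), mul_zero]
  · rfl

lemma bd_mem {Y : Set L} {f : Finset L → F} (hf : f ∈ C F Y) : bd F f ∈ C F Y := by
  refine bd_mem_sup F ?_ hf
  intro τ x _ hc hp
  refine ⟨hc.mono (subset_insert _ _), fun y hy => hp.2 ?_⟩
  simp only [coe_insert, Set.mem_insert_iff]
  exact Or.inr hy

/-- multiplication by a function on the index set -/
def mulf {Ω : Type*} (c : Ω → F) : (Ω → F) →ₗ[F] (Ω → F) where
  toFun f σ := c σ * f σ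
  map_add' f g := by funext σ; simp [mul_add]
  map_smul' a f := by funext σ; simp only [Pi.smul_apply, smul_eq_mul, RingHom.id_apply]; ring

@[simp] lemma mulf_apply {Ω : Type*} (c : Ω → F) (f : Ω → F) (σ : Ω) :
    mulf F c f σ = c σ * f σ := rfl

lemma mulf_mem {Ω : Type*} (c : Ω → F) {P : Ω → Prop} {f : Ω → F} (hf : f ∈ sup F P) :
    mulf F c f ∈ sup F P := by
  intro σ hσ
  simp [hf σ hσ]

/-- weight by a function of the degree -/
def wt (c : ℕ → F) : (Finset L → F) →ₗ[F] (Finset L → F) := mulf F (fun σ => c σ.card)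

omit [Fintype L] [PartialOrder L] in
@[simp] lemma wt_apply (c : ℕ → F) (f : Finset L → F) (σ : Finset L) :
    wt F c f σ = c σ.card * f σ := rfl

omit [Fintype L] [PartialOrder L] in
lemma wt_mem (c : ℕ → F) {P : Finset L → Prop} {f : Finset L → F} (hf : f ∈ sup F P) :
    wt F c f ∈ sup F P := mulf_mem F _ hf

lemma bd_wt (c : ℕ → F) (f : Finset L → F) :
    bd F (wt F c f) = wt F (fun n => c (n + 1)) (bd F f) := by
  funext τ
  rw [wt_apply, bd_apply, bd_apply, mul_sum]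
  refine sum_congr rfl fun x _ => ?_
  split_ifs with hx
  · rw [wt_apply, card_insert_of_notMem hx.1]; ring
  · simp

/-- projection onto degree `j` -/
def pr (j : ℕ) : (Finset L → F) →ₗ[F] (Finset L → F) := wt F (fun n => if n = j then 1 else 0)

omit [Fintype L] [PartialOrder L] in
lemma pr_apply (j : ℕ) (f : Finset L → F) (σ : Finset L) :
    pr F j f σ = if σ.card = j then f σ else 0 := by
  unfold pr
  rw [wt_apply]
  split_ifs <;> simp

lemma bd_pr_succ (j : ℕ) (f : Finset L → F) : bd F (pr F (j + 1) f) = pr F j (bd F f) := by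
  unfold pr
  rw [bd_wt]
  simp

omit [Fintype L] [PartialOrder L] in
lemma pr_mem (j : ℕ) {P : Finset L → Prop} {f : Finset L → F} (hf : f ∈ sup F P) :
    pr F j f ∈ sup F (fun σ => P σ ∧ σ.card = j) := by
  intro σ hσ
  rw [pr_apply]
  split_ifs with h
  · exact hf σ (fun hp => hσ ⟨hp, h⟩)
  · rfl

omit [Fintype L] in
lemma pr_mem_C (j : ℕ) {Y : Set L} {f : Finset L → F} (hf : f ∈ C F Y) : pr F j f ∈ C F Y :=
  wt_mem F _ hf

omit [Fintype L] [PartialOrder L] in
lemma pr_eq_self {j : ℕ} {f : Finset L → F} (hf : f ∈ sup F (fun σ => σ.card = j)) :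
    pr F j f = f := by
  funext σ
  rw [pr_apply]
  split_ifs with h
  · rfl
  · exact (hf σ h).symm

lemma bd_pr_eq_zero (j : ℕ) {f : Finset L → F}
    (hf : bd F f ∈ sup F (fun σ : Finset L => j ≤ σ.card)) : bd F (pr F j f) = 0 := by
  unfold pr
  rw [bd_wt]
  funext σ
  rw [wt_apply]
  split_ifs with h
  · rw [hf σ (by omega)]; simp
  · simp

/-- the link of a point -/
def Lk (Y : Set L) (x : L) : Set L := {y | y ∈ Y ∧ y ≠ x ∧ (y ≤ x ∨ x ≤ y)}

def Rm (x : L) : (Finset L → F) →ₗ[F] (Finset L → F) where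
  toFun f τ := if x ∉ τ then su F x τ * f (insert x τ) else 0
  map_add' f g := by
    funext τ
    simp only [Pi.add_apply]
    split_ifs <;> ring
  map_smul' c f := by
    funext τ
    simp only [Pi.smul_apply, smul_eq_mul, RingHom.id_apply]
    split_ifs <;> ring

omit [Fintype L] in
lemma Rm_apply (x : L) (f : Finset L → F) (τ : Finset L) :
    Rm F x f τ = if x ∉ τ then su F x τ * f (insert x τ) else 0 := rfl

def Jm (x : L) (g : Finset L → F) : Finset L → F :=
  fun σ => if x ∈ σ then su F x (σ.erase x) * g (σ.erase x) else 0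

lemma bd_Rm (x : L) {Y : Set L} {f : Finset L → F} (hf : f ∈ C F Y) :
    bd F (Rm F x f) = Rm F x (bd F f) := by
  funext τ
  rw [bd_apply, Rm_apply]
  by_cases hx : x ∈ τ
  · rw [if_neg (not_not.2 hx)]
    refine sum_eq_zero fun y _ => ?_
    split_ifs with hy
    · rw [Rm_apply, if_neg (not_not.2 (mem_insert_of_mem hx)), mul_zero]
    · rfl
  · rw [if_pos hx, bd_apply, mul_sum]
    refine sum_congr rfl fun y _ => ?_
    by_cases hy : y ∉ insert x τ ∧ IsCh (insert y (insert x τ))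
    · have hy1 : y ∉ τ := fun h => hy.1 (mem_insert_of_mem h)
      have hyx : y ≠ x := by
        rintro rfl
        exact hy.1 (mem_insert_self _ _)
      have h2 : y ∉ τ ∧ IsCh (insert y τ) :=
        ⟨hy1, hy.2.mono (insert_subset_insert _ (subset_insert _ _))⟩
      rw [if_pos hy, if_pos h2, Rm_apply, if_pos (by simp [hx, hyx.symm]),
        su_insert F x y τ hy1, sg_insert F y x τ hx, insert_comm x y]
      ring
    · rw [if_neg hy, mul_zero]
      split_ifs with h2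
      · rw [Rm_apply]
        split_ifs with h3
        · simp
        · rw [hf (insert x (insert y τ)), mul_zero, mul_zero]
          intro h4
          apply hy
          refine ⟨?_, by rw [insert_comm]; exact h4.1⟩
          simp only [mem_insert, not_or] at h3 ⊢
          exact ⟨fun h => h3.1 h.symm, h2.1⟩
      · rfl

omit [Fintype L] in
lemma Rm_mem (x : L) {Y : Set L} {f : Finset L → F} (hf : f ∈ C F Y) :
    Rm F x f ∈ C F (Lk Y x) := by
  intro τ hτ
  rw [Rm_apply]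
  split_ifs with hx
  · rfl
  · rw [hf (insert x τ), mul_zero]
    intro h
    apply hτ
    refine ⟨h.1.mono (subset_insert _ _), fun y hy => ⟨h.2 (by simp [mem_coe.1 hy]), ?_, ?_⟩⟩
    · rintro rfl
      exact hx hy
    · exact h.1 y (mem_insert_of_mem hy) x (mem_insert_self _ _)

omit [Fintype L] in
lemma Jm_mem {x : L} {Y : Set L} (hx : x ∈ Y) {g : Finset L → F} (hg : g ∈ C F (Lk Y x)) :
    Jm F x g ∈ C F Y := by
  intro σ hσ
  unfold Jm
  split_ifs with h
  · rw [hg (σ.erase x), mul_zero]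
    intro h2
    apply hσ
    constructor
    · intro a ha b hb
      by_cases hax : a = x
      · by_cases hbx : b = x
        · left; rw [hax, hbx]
        · rw [hax]
          exact (h2.2 (mem_coe.2 (mem_erase.2 ⟨hbx, hb⟩))).2.2.symm
      · by_cases hbx : b = x
        · rw [hbx]
          exact (h2.2 (mem_coe.2 (mem_erase.2 ⟨hax, ha⟩))).2.2
        · exact h2.1 a (mem_erase.2 ⟨hax, ha⟩) b (mem_erase.2 ⟨hbx, hb⟩)
    · intro a ha
      by_cases hax : a = x
      · rw [hax]; exact hx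
      · exact (h2.2 (mem_coe.2 (mem_erase.2 ⟨hax, ha⟩))).1
  · rfl

omit [Fintype L] in
lemma Rm_Jm {x : L} {Y : Set L} {g : Finset L → F} (hg : g ∈ C F (Lk Y x)) :
    Rm F x (Jm F x g) = g := by
  funext τ
  rw [Rm_apply]
  split_ifs with h
  · symm
    apply hg
    intro h2
    exact (h2.2 (mem_coe.2 h)).2.1 rfl
  · unfold Jm
    rw [if_pos (mem_insert_self _ _), erase_insert h, ← mul_assoc, su_mul_self, one_mul]

omit [Fintype L] in
lemma mem_of_Rm_eq_zero {x : L} {Y : Set L} {f : Finset L → F} (hf : f ∈ C F Y)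
    (h : Rm F x f = 0) : f ∈ C F (Y \ {x}) := by
  intro σ hσ
  by_cases hx : x ∈ σ
  · have := congrFun h (σ.erase x)
    rw [Rm_apply, if_pos (notMem_erase _ _), insert_erase hx] at this
    have h2 := su_mul_self F x (σ.erase x)
    have h3 : su F x (σ.erase x) ≠ 0 := by
      intro h0; rw [h0] at h2; simp at h2
    simpa [h3] using this
  · apply hf
    intro h2
    apply hσ
    refine ⟨h2.1, fun y hy => ⟨h2.2 hy, ?_⟩⟩
    rintro rfl
    exact hx hy

omit [Fintype L] in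
lemma Rm_eq_zero {x : L} {Y : Set L} {f : Finset L → F} (hf : f ∈ C F (Y \ {x})) :
    Rm F x f = 0 := by
  funext τ
  rw [Rm_apply]
  split_ifs with h
  · rfl
  · rw [hf (insert x τ), mul_zero]
    · rfl
    · intro h2
      exact (h2.2 (mem_coe.2 (mem_insert_self x τ))).2 rfl

/-- the complex of `Y` is acyclic -/
def Acyc (Y : Set L) : Prop := ∀ f ∈ C F Y, bd F f = 0 → ∃ g ∈ C F Y, bd F g = f

/-- the relative complex is acyclic -/
def Rel (Y' Y : Set L) : Prop :=
  ∀ f ∈ C F Y, bd F f ∈ C F Y' → ∃ g ∈ C F Y, f - bd F g ∈ C F Y'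

lemma rel_of_link {Y : Set L} {x : L} (hx : x ∈ Y) (h : Acyc F (Lk Y x)) : Rel F (Y \ {x}) Y := by
  intro f hf hb
  have h1 : bd F (Rm F x f) = 0 := by rw [bd_Rm F x hf, Rm_eq_zero F hb]
  obtain ⟨u, hu, hu2⟩ := h _ (Rm_mem F x hf) h1
  refine ⟨Jm F x u, Jm_mem F hx hu, ?_⟩
  apply mem_of_Rm_eq_zero F (sub_mem hf (bd_mem F (Jm_mem F hx hu)))
  rw [map_sub, ← bd_Rm F x (Jm_mem F hx hu), Rm_Jm F hu, hu2, sub_self]

lemma acyc_of_rel {Y' Y : Set L} (hs : Y' ⊆ Y) (h : Rel F Y' Y) (h' : Acyc F Y') : Acyc F Y := by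
  intro f hf hb
  obtain ⟨g, hg, hg2⟩ := h f hf (by rw [hb]; exact zero_mem _)
  obtain ⟨u, hu, hu2⟩ := h' _ hg2 (by rw [map_sub, hb, bd_bd, sub_zero])
  exact ⟨g + u, add_mem hg (C_mono F hs hu), by rw [map_add, hu2]; abel⟩

lemma rel_trans {Y₁ Y₂ Y₃ : Set L} (h12 : Y₁ ⊆ Y₂) (h23 : Y₂ ⊆ Y₃) (h : Rel F Y₁ Y₂)
    (h' : Rel F Y₂ Y₃) : Rel F Y₁ Y₃ := by
  intro f hf hb
  obtain ⟨g, hg, hg2⟩ := h' f hf (C_mono F h12 hb)
  obtain ⟨u, hu, hu2⟩ := h _ hg2 (by rw [map_sub, bd_bd, sub_zero]; exact hb)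
  refine ⟨g + u, add_mem hg (C_mono F h23 hu), ?_⟩
  rw [map_add, ← sub_sub]; exact hu2

lemma rel_refl (Y : Set L) : Rel F Y Y := fun f hf _ => ⟨0, zero_mem _, by simpa using hf⟩

lemma quillen (n : ℕ) : ∀ (Y' Y : Set L), (Y \ Y').ncard = n → Y' ⊆ Y →
    (∀ a ∈ Y, ∀ b ∈ Y', a ≤ b → a ∈ Y') →
    (∀ G ∈ Y, G ∉ Y' → Acyc F {a | a ∈ Y' ∧ a < G}) → Rel F Y' Y := by
  induction n using Nat.strong_induction_on with
  | _ n ih =>
  intro Y' Y hn hs hdown hac
  by_cases hemp : (Y \ Y').Nonempty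
  · obtain ⟨G, hG⟩ := (Set.toFinite (Y \ Y')).exists_maximal hemp
    have hGY : G ∈ Y := hG.1.1
    have hGY' : G ∉ Y' := hG.1.2
    have hmax : ∀ a ∈ Y, G ≤ a → a = G := by
      intro a ha hle
      have : a ∉ Y' := fun h => hGY' (hdown G hGY a h hle)
      exact le_antisymm (hG.2 ⟨ha, this⟩ hle) hle
    have hlk : Lk Y G = {a | a ∈ Y ∧ a < G} := by
      ext a
      constructor
      · rintro ⟨h1, h2, h3 | h3⟩
        · exact ⟨h1, lt_of_le_of_ne h3 h2⟩
        · exact absurd (hmax a h1 h3) h2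
      · rintro ⟨h1, h2⟩
        exact ⟨h1, h2.ne, Or.inl h2.le⟩
    have hs1 : Y' ⊆ Y \ {G} := fun a ha => ⟨hs ha, by rintro rfl; exact hGY' ha⟩
    have r1 : Rel F Y' (Y \ {G}) := by
      refine ih _ ?_ Y' (Y \ {G}) rfl hs1 (fun a ha b hb => hdown a ha.1 b hb)
        (fun H hH => hac H hH.1)
      rw [← hn]
      apply Set.ncard_lt_ncard _ (Set.toFinite _)
      refine ⟨fun a ha => ⟨ha.1.1, ha.2⟩, fun h => ?_⟩
      exact (h ⟨hGY, hGY'⟩).1.2 rfl
    have r2 : Rel F {a | a ∈ Y' ∧ a < G} {a | a ∈ Y ∧ a < G} := by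
      refine ih _ ?_ _ _ rfl (fun a ha => ⟨hs ha.1, ha.2⟩)
        (fun a ha b hb hab => ⟨hdown a ha.1 b hb.1 hab, ha.2⟩) ?_
      · rw [← hn]
        apply Set.ncard_lt_ncard _ (Set.toFinite _)
        refine ⟨fun a ha => ⟨ha.1.1, fun h => ha.2 ⟨h, ha.1.2⟩⟩, fun h => ?_⟩
        exact lt_irrefl _ (h ⟨hGY, hGY'⟩).1.2
      · intro H hH hH'
        have : {a | a ∈ {a | a ∈ Y' ∧ a < G} ∧ a < H} = {a | a ∈ Y' ∧ a < H} := by
          ext a
          exact ⟨fun h => ⟨h.1.1, h.2⟩, fun h => ⟨⟨h.1, h.2.trans hH.2⟩, h.2⟩⟩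
        rw [this]
        exact hac H hH.1 (fun h => hH' ⟨h, hH.2⟩)
    have a1 : Acyc F (Lk Y G) := by
      rw [hlk]
      exact acyc_of_rel F (fun a ha => ⟨hs ha.1, ha.2⟩) r2 (hac G hGY hGY')
    exact rel_trans F hs1 Set.sdiff_subset r1 (rel_of_link F hGY a1)
  · have : Y = Y' := by
      apply Set.Subset.antisymm _ hs
      intro a ha
      by_contra h
      exact hemp ⟨a, ha, h⟩
    rw [this]
    exact rel_refl F Y'

lemma acyc_singleton (x : L) : Acyc F ({x} : Set L) := by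
  intro f hf hb
  have hch : IsCh ({x} : Finset L) := by
    intro a ha b hb
    rw [mem_singleton.1 ha, mem_singleton.1 hb]; exact Or.inl le_rfl
  have key : ∀ g : Finset L → F, g ∈ C F ({x} : Set L) → bd F g ∅ = g {x} := by
    intro g hg
    rw [bd_apply, sum_eq_single x]
    · rw [if_pos ⟨notMem_empty _, by simpa using hch⟩]
      simp [sg]
    · intro y _ hy
      split_ifs with h
      · rw [hg, mul_zero]
        intro h2
        exact hy (h2.2 (by simp))
      · rfl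
    · simp
  have hg : (Pi.single {x} (f ∅) : Finset L → F) ∈ C F ({x} : Set L) := by
    intro σ hσ
    rw [Pi.single_apply, if_neg]
    rintro rfl
    exact hσ ⟨hch, by simp⟩
  refine ⟨Pi.single {x} (f ∅), hg, ?_⟩
  funext σ
  by_cases h0 : σ = ∅
  · rw [h0, key _ hg]; simp
  · by_cases h1 : σ = {x}
    · have h2 := key f hf
      rw [hb] at h2
      rw [h1, ← h2, bd_apply]
      refine sum_eq_zero fun y _ => ?_
      split_ifs with h
      · rw [hg, mul_zero]
        intro h3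
        exact h.1 (by simpa using h3.2 (mem_coe.2 (mem_insert_self y _)))
      · rfl
    · have h2 : ¬ (IsCh σ ∧ (σ : Set L) ⊆ {x}) := by
        intro h
        have : σ ⊆ {x} := by
          intro a ha
          simpa using h.2 (mem_coe.2 ha)
        rcases subset_singleton_iff.1 this with h3 | h3
        · exact h0 h3
        · exact h1 h3
      rw [hf σ h2, bd_mem F hg σ h2]

/-- `Y` has the homology of a sphere, in the top degree `n`, with fundamental cycle `z`. -/
structure Sph (Y : Set L) (n : ℕ) (z : Finset L → F) : Prop where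
  mem : z ∈ C F Y
  cyc : bd F z = 0
  ne : z ≠ 0
  deg : z ∈ sup F (fun σ => σ.card = n)
  top : ∀ σ : Finset L, IsCh σ → (σ : Set L) ⊆ Y → σ.card ≤ n
  span : ∀ f ∈ C F Y, bd F f = 0 → ∃ c : F, ∃ u ∈ C F Y, f = c • z + bd F u

lemma sph_empty : Sph F (∅ : Set L) 0 (Pi.single ∅ 1) := by
  have hm : (Pi.single ∅ 1 : Finset L → F) ∈ C F (∅ : Set L) := by
    intro σ hσ
    rw [Pi.single_apply, if_neg]
    rintro rfl
    exact hσ ⟨by intro a ha; simp at ha, by simp⟩
  have hdeg : (Pi.single ∅ 1 : Finset L → F) ∈ sup F (fun σ => σ.card = 0) := by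
    intro σ hσ
    rw [Pi.single_apply, if_neg]
    rintro rfl
    exact hσ rfl
  refine ⟨hm, ?_, ?_, hdeg, ?_, ?_⟩
  · rw [← pr_eq_self F hdeg]
    apply bd_pr_eq_zero
    intro σ hσ
    exact absurd (Nat.zero_le _) hσ
  · intro h
    have := congrFun h ∅
    simp at this
  · intro σ _ h
    have : σ = ∅ := by
      apply coe_eq_empty.1
      exact Set.subset_empty_iff.1 h
    simp [this]
  · intro f hf _
    refine ⟨f ∅, 0, zero_mem _, ?_⟩
    funext σ
    by_cases h : σ = ∅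
    · simp [h]
    · rw [hf σ]
      · simp [h]
      · intro h2
        exact h (coe_eq_empty.1 (Set.subset_empty_iff.1 h2.2))

lemma sph_step {Y : Set L} {x : L} (hx : x ∈ Y) (hac : Acyc F (Y \ {x})) {n : ℕ}
    {z : Finset L → F} (hz : Sph F (Lk Y x) n z)
    (htop : ∀ σ : Finset L, IsCh σ → (σ : Set L) ⊆ Y → σ.card ≤ n + 1) :
    ∃ z', Sph F Y (n + 1) z' := by
  have hJ := Jm_mem F hx hz.mem
  have hJdeg : Jm F x z ∈ sup F (fun σ : Finset L => σ.card = n + 1) := by
    intro σ hσ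
    unfold Jm
    split_ifs with h
    · rw [hz.deg, mul_zero]
      intro h2
      apply hσ
      rw [← h2, card_erase_add_one h]
    · rfl
  have h1 : bd F (Jm F x z) ∈ C F (Y \ {x}) := by
    apply mem_of_Rm_eq_zero F (bd_mem F hJ)
    rw [← bd_Rm F x hJ, Rm_Jm F hz.mem, hz.cyc]
  obtain ⟨b, hb, hb2⟩ := hac _ h1 (bd_bd F _)
  have hb' : pr F (n + 1) b ∈ C F (Y \ {x}) := pr_mem_C F _ hb
  have hb3 : bd F (pr F (n + 1) b) = bd F (Jm F x z) := by
    rw [bd_pr_succ, hb2, ← bd_pr_succ, pr_eq_self F hJdeg]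
  have hm : Jm F x z - pr F (n + 1) b ∈ C F Y := sub_mem hJ (C_mono F Set.sdiff_subset hb')
  have hR : Rm F x (Jm F x z - pr F (n + 1) b) = z := by
    rw [map_sub, Rm_Jm F hz.mem, Rm_eq_zero F hb', sub_zero]
  have hcyc : bd F (Jm F x z - pr F (n + 1) b) = 0 := by rw [map_sub, hb3, sub_self]
  refine ⟨Jm F x z - pr F (n + 1) b, hm, hcyc, ?_, ?_, htop, ?_⟩
  · intro h
    rw [h, map_zero] at hR
    exact hz.ne hR.symm
  · exact sub_mem hJdeg (sup_mono F (fun σ h => h.2) (pr_mem F (n + 1) hb))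
  · intro f hf hfb
    obtain ⟨c, u, hu, hu2⟩ := hz.span _ (Rm_mem F x hf) (by rw [bd_Rm F x hf, hfb, map_zero])
    have hJu := Jm_mem F hx hu
    have h2 : f - c • (Jm F x z - pr F (n + 1) b) - bd F (Jm F x u) ∈ C F (Y \ {x}) := by
      apply mem_of_Rm_eq_zero F (sub_mem (sub_mem hf (Submodule.smul_mem _ _ hm)) (bd_mem F hJu))
      rw [map_sub, map_sub, map_smul, hR, ← bd_Rm F x hJu, Rm_Jm F hu, hu2]
      abel
    obtain ⟨v, hv, hv2⟩ := hac _ h2 (by
      rw [map_sub, map_sub, map_smul, hcyc, hfb, bd_bd]; simp)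
    refine ⟨c, Jm F x u + v, add_mem hJu (C_mono F Set.sdiff_subset hv), ?_⟩
    rw [map_add, hv2]
    abel

/-- pull back along an order automorphism -/
def pull (e : L ≃o L) : (Finset L → F) →ₗ[F] (Finset L → F) where
  toFun f σ := f (σ.image e)
  map_add' _ _ := rfl
  map_smul' _ _ := rfl

omit [Fintype L] in
lemma pull_apply (e : L ≃o L) (f : Finset L → F) (σ : Finset L) :
    pull F e f σ = f (σ.image e) := rfl

omit [Fintype L] in
lemma isCh_image (e : L ≃o L) (σ : Finset L) : IsCh (σ.image e) ↔ IsCh σ := by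
  constructor
  · intro h a ha b hb
    simpa using h (e a) (mem_image_of_mem _ ha) (e b) (mem_image_of_mem _ hb)
  · intro h a ha b hb
    obtain ⟨a, ha', rfl⟩ := mem_image.1 ha
    obtain ⟨b, hb', rfl⟩ := mem_image.1 hb
    simpa using h a ha' b hb'

omit [Fintype L] in
lemma card_image_iso (e : L ≃o L) (σ : Finset L) : (σ.image e).card = σ.card :=
  card_image_of_injective _ e.injective

lemma bd_pull (e : L ≃o L) (f : Finset L → F) : bd F (pull F e f) = pull F e (bd F f) := by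
  funext τ
  rw [pull_apply, bd_apply, bd_apply]
  refine Fintype.sum_equiv e.toEquiv _ _ fun x => ?_
  have h1 : (e.toEquiv x) ∉ τ.image e ↔ x ∉ τ := by
    simp
  have h2 : insert (e.toEquiv x) (τ.image e) = (insert x τ).image e := by
    rw [image_insert]; rfl
  have h3 : sg F (e.toEquiv x) (τ.image e) = sg F x τ := by
    unfold sg
    rw [filter_image, card_image_of_injective _ e.injective]
    congr 2
    ext y
    simp
  rw [h2, h3]
  simp only [h1, isCh_image, pull_apply]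

omit [Fintype L] in
lemma pull_mem (e : L ≃o L) {Y : Set L} (hY : ∀ y, e y ∈ Y → y ∈ Y) {f : Finset L → F}
    (hf : f ∈ C F Y) : pull F e f ∈ C F Y := by
  intro σ hσ
  rw [pull_apply]
  apply hf
  intro h
  apply hσ
  exact ⟨(isCh_image e σ).1 h.1, fun y hy => hY y (h.2 (mem_coe.2 (mem_image_of_mem _ hy)))⟩

omit [Fintype L] in
lemma pull_wt (e : L ≃o L) (c : ℕ → F) (f : Finset L → F) :
    pull F e (wt F c f) = wt F c (pull F e f) := by
  funext σ
  rw [pull_apply, wt_apply, wt_apply, pull_apply, card_image_iso]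

omit [Fintype L] in
lemma pull_pull (e e' : L ≃o L) (f : Finset L → F) :
    pull F e (pull F e' f) = pull F (e' * e) f := by
  funext σ
  rw [pull_apply, pull_apply, pull_apply, image_image]
  rfl

omit [Fintype L] in
lemma pull_one (f : Finset L → F) : pull F (1 : L ≃o L) f = f := by
  funext σ
  rw [pull_apply]
  congr 1
  exact image_id

end

end Pool.Agent.MP_23c9d7_co

end

-- part MP_23c9d7_co.Hopf
section

/-! Hopf trace formula for a complex with one-dimensional homology. -/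

namespace Pool.Agent.MP_23c9d7_co

open Classical Finset

noncomputable section

variable {F : Type*} [Field F]

lemma hopf {U : Type*} [AddCommGroup U] [Module F U] [FiniteDimensional F U]
    (d A : U →ₗ[F] U) (hdd : ∀ x, d (d x) = 0) (hA : ∀ x, A (d x) = - d (A x)) (z : U)
    (hz : d z = 0) (hnb : ∀ u, d u ≠ z)
    (hspan : ∀ y, d y = 0 → ∃ (c : F) (u : U), y = c • z + d u) (a : F) (u0 : U)
    (hAz : A z = a • z + d u0) : LinearMap.trace F U A = a := by
  obtain ⟨π0, hπ0, hπ1⟩ := Submodule.exists_dual_map_eq_bot_of_notMem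
    (p := LinearMap.range d) (x := z) (by rintro ⟨u, hu⟩; exact hnb u hu) inferInstance
  let π : U →ₗ[F] F := (π0 z)⁻¹ • π0
  have hπz : π z = 1 := by simp [π, hπ0]
  have hπd : ∀ u, π (d u) = 0 := by
    intro u
    have : π0 (d u) ∈ Submodule.map π0 (LinearMap.range d) := ⟨d u, ⟨u, rfl⟩, rfl⟩
    rw [hπ1] at this
    simp [π, (Submodule.mem_bot F).1 this]
  obtain ⟨g, hg⟩ := d.rangeRestrict.exists_rightInverse_of_surjective d.range_rangeRestrict
  obtain ⟨k0, hk0⟩ := g.exists_extend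
  have hk0d : ∀ u, d (k0 (d u)) = d u := by
    intro u
    have h1 : k0 (d u) = g (d.rangeRestrict u) := by
      rw [← hk0]; rfl
    have h2 := congrArg Subtype.val (LinearMap.congr_fun hg (d.rangeRestrict u))
    rw [h1]
    exact h2
  let P : U →ₗ[F] U := π.smulRight z
  have hP : ∀ x, P x = π x • z := fun x => rfl
  let Q : U →ₗ[F] U := 1 - P
  have hQ : ∀ x, Q x = x - π x • z := fun x => rfl
  let k : U →ₗ[F] U := Q * k0
  have hk : ∀ x, k x = k0 x - π (k0 x) • z := fun x => rfl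
  have hkd : ∀ u, d (k (d u)) = d u := by
    intro u
    rw [hk, map_sub, map_smul, hz, smul_zero, sub_zero, hk0d]
  have hπk : ∀ x, π (k x) = 0 := by
    intro x
    rw [hk, map_sub, map_smul, hπz]; simp
  have hid : Q = k * d + (d * k * Q - d * k * k * d) := by
    ext x
    have h1 : d (Q x - k (d x)) = 0 := by
      rw [map_sub, hkd, hQ, map_sub, map_smul, hz]; simp
    obtain ⟨c, u, hu⟩ := hspan _ h1
    have hc : c = 0 := by
      have := congrArg π hu
      rw [map_sub, hπk, hQ, map_sub, map_smul, hπz, map_add, hπd, map_smul, hπz] at this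
      simpa using this.symm
    rw [hc, zero_smul, zero_add] at hu
    have h2 : d (k (Q x - k (d x))) = Q x - k (d x) := by rw [hu, hkd]
    simp only [LinearMap.add_apply, LinearMap.sub_apply, Module.End.mul_apply]
    rw [← map_sub, ← map_sub, h2]
    abel
  have hAd : A * d = - (d * A) := by ext x; simp [hA]
  have hdA : d * A = - (A * d) := by rw [hAd, neg_neg]
  have hQd : Q * d = d := by
    ext x
    simp only [Module.End.mul_apply]
    rw [hQ, hπd]; simp
  have hd2 : d * d = 0 := by ext x; simp [hdd]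
  have t1 : LinearMap.trace F U (A * (k * d)) = - LinearMap.trace F U (A * d * k) := by
    rw [← mul_assoc, LinearMap.trace_mul_comm, ← mul_assoc, hdA, neg_mul, map_neg]
  have t2 : LinearMap.trace F U (A * (d * k * Q)) = LinearMap.trace F U (A * d * k) := by
    rw [← mul_assoc, LinearMap.trace_mul_comm]
    congr 1
    calc Q * (A * (d * k)) = Q * (A * d) * k := by simp only [mul_assoc]
      _ = - (Q * d * A) * k := by rw [hAd]; simp only [mul_assoc, mul_neg]
      _ = A * d * k := by rw [hQd, hAd]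
  have t3 : LinearMap.trace F U (A * (d * k * k * d)) = 0 := by
    rw [← mul_assoc, LinearMap.trace_mul_comm]
    have : d * (A * (d * k * k)) = 0 := by
      calc d * (A * (d * k * k)) = (d * A) * d * k * k := by simp only [mul_assoc]
        _ = - (A * (d * d)) * k * k := by rw [hdA]; simp only [mul_assoc, neg_mul]
        _ = 0 := by rw [hd2]; simp
    rw [this, map_zero]
  have t4 : LinearMap.trace F U (A * Q) = 0 := by
    rw [hid, mul_add, mul_sub, map_add, map_sub, t1, t2, t3]; ring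
  have t5 : LinearMap.trace F U (A * P) = a := by
    have : A * P = π.smulRight (A z) := by
      ext x
      simp [hP]
    rw [this, LinearMap.trace_smulRight, hAz, map_add, hπd, map_smul, hπz]; simp
  have : A = A * P + A * Q := by
    rw [← mul_add]
    simp [Q]
  rw [this, map_add, t4, t5, add_zero]

variable {L : Type*} [Fintype L] [PartialOrder L]

/-- the sign operator -/
def eps : (Finset L → F) →ₗ[F] (Finset L → F) := wt F (fun n => (-1) ^ n)

lemma bd_eps (f : Finset L → F) : bd F (eps f) = - eps (bd F f) := by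
  unfold eps
  rw [bd_wt]
  funext σ
  simp [pow_succ]

omit [Fintype L] [PartialOrder L] in
lemma eps_eps (f : Finset L → F) : eps (eps f) = f := by
  funext σ
  unfold eps
  rw [wt_apply, wt_apply, ← mul_assoc, ← mul_pow]; simp

lemma trace_formula (e : L ≃o L) {Y : Set L} (_hY : ∀ y, e y ∈ Y → y ∈ Y)
    (h : ∀ x ∈ C F Y, (eps ∘ₗ pull F e) x ∈ C F Y) :
    LinearMap.trace F (C F Y) ((eps ∘ₗ pull F e).restrict h) =
      ∑ σ : Finset L, if σ.image e = σ ∧ IsCh σ ∧ (σ : Set L) ⊆ Y then (-1 : F) ^ σ.card else 0 := by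
  let ind : (Finset L → F) →ₗ[F] (Finset L → F) :=
    mulf F (fun σ : Finset L => if IsCh σ ∧ (σ : Set L) ⊆ Y then 1 else 0)
  have hind : ∀ f, ind f ∈ C F Y := by
    intro f σ hσ
    simp only [ind, mulf_apply]
    rw [if_neg hσ, zero_mul]
  have hind2 : ∀ f ∈ C F Y, ind f = f := by
    intro f hf
    funext σ
    simp only [ind, mulf_apply]
    split_ifs with hσ
    · simp
    · rw [hf σ hσ, mul_zero]
  have h2 : ∀ x, ((eps ∘ₗ pull F e) ∘ₗ ind) x ∈ C F Y := fun x => h _ (hind x)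
  have h3 : (eps ∘ₗ pull F e).restrict h =
      ((eps ∘ₗ pull F e) ∘ₗ ind).restrict (fun x _ => h2 x) := by
    ext x σ
    simp only [LinearMap.coe_restrict_apply, LinearMap.comp_apply]
    rw [hind2 _ x.2]
  rw [h3, LinearMap.trace_restrict_eq_of_forall_mem _ _ h2,
    LinearMap.trace_eq_matrix_trace F (Pi.basisFun F (Finset L)), Matrix.trace]
  refine sum_congr rfl fun σ _ => ?_
  simp only [Matrix.diag_apply, LinearMap.toMatrix_apply, Pi.basisFun_apply, Pi.basisFun_repr,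
    LinearMap.comp_apply, eps, wt_apply, pull_apply, ind, mulf_apply, Pi.single_apply]
  by_cases h4 : σ.image e = σ
  · rw [h4]
    by_cases h5 : IsCh σ ∧ (σ : Set L) ⊆ Y
    · simp [h5]
    · simp [h5]
  · simp [h4]

/-- An order automorphism acts on one-dimensional homology by a sign. -/
lemma sq_trivial (e : L ≃o L) {Y : Set L} (hY : ∀ y, e y ∈ Y ↔ y ∈ Y) {z : Finset L → F}
    (hz : z ∈ C F Y) (hc : bd F z = 0) (hnb : ∀ u ∈ C F Y, bd F u ≠ z)
    (hspan : ∀ f ∈ C F Y, bd F f = 0 → ∃ c : F, ∃ u ∈ C F Y, f = c • z + bd F u) :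
    ∃ u ∈ C F Y, pull F (e * e) z = z + bd F u := by
  have key : ∀ (e : L ≃o L) (hY : ∀ y, e y ∈ Y → y ∈ Y), ∃ u ∈ C F Y, eps (pull F e z) =
      (∑ σ : Finset L, if σ.image e = σ ∧ IsCh σ ∧ (σ : Set L) ⊆ Y then (-1 : F) ^ σ.card
        else 0) • z + bd F u := by
    intro e hY
    have h : ∀ x ∈ C F Y, (eps ∘ₗ pull F e) x ∈ C F Y :=
      fun x hx => wt_mem F _ (pull_mem F e hY hx)
    obtain ⟨a, u, hu, hu2⟩ := hspan _ (h z hz) (by
      rw [LinearMap.comp_apply, bd_eps, bd_pull, hc]; simp)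
    refine ⟨u, hu, ?_⟩
    rw [← trace_formula e hY h]
    have := hopf (U := C F Y) ((bd F).restrict (fun x hx => bd_mem F hx))
      ((eps ∘ₗ pull F e).restrict h) (fun x => Subtype.ext (bd_bd F x.1))
      (fun x => Subtype.ext (by
        simp only [LinearMap.coe_restrict_apply, LinearMap.comp_apply, NegMemClass.coe_neg]
        rw [bd_eps, bd_pull, neg_neg])) ⟨z, hz⟩ (Subtype.ext hc)
      (fun u hu => hnb u.1 u.2 (congrArg Subtype.val hu))
      (fun y hy => by
        obtain ⟨c, u, hu, hu2⟩ := hspan y.1 y.2 (congrArg Subtype.val hy)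
        exact ⟨c, ⟨u, hu⟩, Subtype.ext hu2⟩) a ⟨u, hu⟩ (Subtype.ext hu2)
    rw [this]
    exact hu2
  obtain ⟨u1, hu1, h1⟩ := key e (fun y => (hY y).1)
  have hY' : ∀ y, (e⁻¹ : L ≃o L) y ∈ Y → y ∈ Y := by
    intro y hy
    have := (hY _).2 hy
    simpa using this
  obtain ⟨u2, hu2, h2⟩ := key e⁻¹ hY'
  have hsame : ∀ σ : Finset L, σ.image (e⁻¹ : L ≃o L) = σ ↔ σ.image e = σ := by
    have aux : ∀ (e : L ≃o L) (σ : Finset L), σ.image e = σ → σ.image (e⁻¹ : L ≃o L) = σ := by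
      intro e σ h
      conv_lhs => rw [← h]
      rw [image_image]
      have : (⇑(e⁻¹ : L ≃o L) ∘ ⇑e) = id := by
        funext x; simp
      rw [this, image_id]
    intro σ
    exact ⟨fun h => by simpa using aux e⁻¹ σ h, aux e σ⟩
  simp only [hsame] at h2
  have h3 : eps (pull F e z - pull F e⁻¹ z) = bd F (u1 - u2) := by
    rw [map_sub, map_sub, h1, h2]; abel
  have h4 : pull F e z - pull F e⁻¹ z = bd F (- eps (u1 - u2)) := by
    rw [map_neg, bd_eps, neg_neg, ← h3, eps_eps]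
  refine ⟨pull F e (- eps (u1 - u2)), pull_mem F e (fun y => (hY y).1)
    (neg_mem (wt_mem F _ (sub_mem hu1 hu2))), ?_⟩
  rw [bd_pull, ← h4, map_sub, pull_pull, pull_pull, inv_mul_cancel, pull_one]
  abel

end

end Pool.Agent.MP_23c9d7_co

end

-- part MP_23c9d7_co.Theta
section

/-! The operator `θ = ∑ t^(q-2) [t]` in the group algebra of the additive group of `F_q`. -/

namespace Pool.Agent.MP_23c9d7_co

open Classical Finset

noncomputable section

variable {F : Type*} [Field F]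

lemma weyl_comm {V : Type*} [AddCommGroup V] [Module F V] (S : Submodule F V)
    (θ X : Module.End F V) (hX : ∀ v ∈ S, X v ∈ S)
    (h : ∀ v ∈ S, θ (X v) - X (θ v) = v) (n : ℕ) :
    ∀ v ∈ S, θ ((X ^ (n + 1)) v) - (X ^ (n + 1)) (θ v) = ((n : F) + 1) • (X ^ n) v := by
  induction n with
  | zero => intro v hv; simpa using h v hv
  | succ n ih =>
    intro v hv
    have h1 := ih (X v) (hX v hv)
    have h2 := h v hv
    have e1 : (X ^ (n + 1 + 1)) v = (X ^ (n + 1)) (X v) := by rw [pow_succ]; rfl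
    have e2 : (X ^ (n + 1 + 1)) (θ v) = (X ^ (n + 1)) (X (θ v)) := by rw [pow_succ]; rfl
    have e3 : (X ^ (n + 1)) v = (X ^ n) (X v) := by rw [pow_succ]; rfl
    have e4 : X (θ v) = θ (X v) - v := by
      rw [eq_sub_iff_add_eq, add_comm]; exact (sub_eq_iff_eq_add.1 h2).symm
    rw [e1, e2, e4, map_sub, ← sub_add, h1, ← e3]
    push_cast
    rw [add_smul ((n : F) + 1), one_smul]

lemma pow_mem_of {V : Type*} [AddCommGroup V] [Module F V] (S : Submodule F V)
    (X : Module.End F V) (hX : ∀ v ∈ S, X v ∈ S) (n : ℕ) : ∀ v ∈ S, (X ^ n) v ∈ S := by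
  induction n with
  | zero => intro v hv; simpa using hv
  | succ n ih => intro v hv; rw [pow_succ]; exact ih _ (hX v hv)

lemma weyl_exact {V : Type*} [AddCommGroup V] [Module F V] (S : Submodule F V)
    (θ X : Module.End F V) (hθ : ∀ v ∈ S, θ v ∈ S) (hX : ∀ v ∈ S, X v ∈ S)
    (h : ∀ v ∈ S, θ (X v) - X (θ v) = v) (m : ℕ) (hm : (m.factorial : F) ≠ 0) :
    (∀ v ∈ S, θ v = 0 → ∃ w ∈ S, (θ ^ m) w = v) ∧
    (∀ v ∈ S, (θ ^ m) v = 0 → ∃ w ∈ S, θ w = v) := by
  constructor
  · intro v hv h0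
    have key : ∀ n : ℕ, (θ ^ n) ((X ^ n) v) = (n.factorial : F) • v := by
      intro n
      induction n with
      | zero => simp
      | succ n ih =>
        have h1 := weyl_comm S θ X hX h n v hv
        rw [h0, map_zero, sub_zero] at h1
        have e1 : (θ ^ (n + 1)) ((X ^ (n + 1)) v) = (θ ^ n) (θ ((X ^ (n + 1)) v)) := by
          rw [pow_succ θ]; rfl
        rw [e1, h1, map_smul, ih, smul_smul, Nat.factorial_succ]
        push_cast
        rfl
    refine ⟨(m.factorial : F)⁻¹ • (X ^ m) v, S.smul_mem _ (pow_mem_of S X hX m v hv), ?_⟩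
    rw [map_smul, key, smul_smul, inv_mul_cancel₀ hm, one_smul]
  · intro v hv h0
    have key : ∀ n : ℕ, ∃ w ∈ S,
        (X ^ n) ((θ ^ n) v) = ((-1) ^ n * (n.factorial : F)) • v + θ w := by
      intro n
      induction n with
      | zero => exact ⟨0, zero_mem _, by simp⟩
      | succ n ih =>
        obtain ⟨w, hw, hw2⟩ := ih
        have hv' := pow_mem_of S θ hθ n v hv
        have h1 := weyl_comm S θ X hX h n _ hv'
        have e1 : (θ ^ (n + 1)) v = θ ((θ ^ n) v) := by rw [pow_succ' θ]; rfl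
        refine ⟨(X ^ (n + 1)) ((θ ^ n) v) - ((n : F) + 1) • w,
          sub_mem (pow_mem_of S X hX _ _ hv') (S.smul_mem _ hw), ?_⟩
        have h2 : (X ^ (n + 1)) (θ ((θ ^ n) v)) =
            θ ((X ^ (n + 1)) ((θ ^ n) v)) - ((n : F) + 1) • (X ^ n) ((θ ^ n) v) := by
          rw [← h1]; abel
        rw [e1, h2, hw2, map_sub, map_smul, smul_add, smul_smul, Nat.factorial_succ]
        push_cast
        have : ((-1 : F) ^ (n + 1) * (((n : F) + 1) * (n.factorial : F))) =
            - (((n : F) + 1) * ((-1) ^ n * (n.factorial : F))) := by ring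
        rw [this, neg_smul]
        abel
    obtain ⟨w, hw, hw2⟩ := key m
    rw [h0, map_zero] at hw2
    have hne : ((-1) ^ m * (m.factorial : F)) ≠ 0 := mul_ne_zero (by simp) hm
    refine ⟨-((-1) ^ m * (m.factorial : F))⁻¹ • w, S.smul_mem _ hw, ?_⟩
    have : θ w = - (((-1) ^ m * (m.factorial : F)) • v) := by
      rw [eq_neg_iff_add_eq_zero, add_comm]; exact hw2.symm
    rw [map_smul, this, smul_neg, neg_smul, neg_neg, smul_smul, inv_mul_cancel₀ hne, one_smul]

variable {Ω : Type*} [AddAction F Ω]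

/-- translation operators -/
def shHom (F : Type*) [Field F] (Ω : Type*) [AddAction F Ω] :
    Multiplicative F →* Module.End F (Ω → F) where
  toFun t :=
    { toFun := fun f ω => f (t.toAdd +ᵥ ω)
      map_add' := fun _ _ => rfl
      map_smul' := fun _ _ => rfl }
  map_one' := by ext f ω; simp
  map_mul' s t := by
    ext f ω
    show f ((s.toAdd + t.toAdd) +ᵥ ω) = f (t.toAdd +ᵥ (s.toAdd +ᵥ ω))
    rw [vadd_vadd, add_comm]

def rho (F : Type*) [Field F] (Ω : Type*) [AddAction F Ω] :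
    AddMonoidAlgebra F F →ₐ[F] Module.End F (Ω → F) :=
  AddMonoidAlgebra.lift F _ F (shHom F Ω)

lemma rho_single (t c : F) (f : Ω → F) (ω : Ω) :
    rho F Ω (AddMonoidAlgebra.single t c) f ω = c * f (t +ᵥ ω) := by
  unfold rho
  rw [AddMonoidAlgebra.lift_single]
  rfl

lemma rho_local (v : AddMonoidAlgebra F F) (g g' : Ω → F) (ω : Ω)
    (h : ∀ t : F, g (t +ᵥ ω) = g' (t +ᵥ ω)) : rho F Ω v g ω = rho F Ω v g' ω := by
  induction v using AddMonoidAlgebra.induction_on with
  | of m =>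
    have : AddMonoidAlgebra.of F F (Multiplicative.ofAdd m) = AddMonoidAlgebra.single m 1 := rfl
    rw [this, rho_single, rho_single, h]
  | add x y hx hy => simp [hx, hy]
  | smul r x hx => simp [hx]

variable [Fintype F]

def el (a : F → F) : AddMonoidAlgebra F F := ∑ t, AddMonoidAlgebra.single t (a t)

lemma rho_el (a : F → F) (f : Ω → F) (ω : Ω) :
    rho F Ω (el a) f ω = ∑ t, a t * f (t +ᵥ ω) := by
  unfold el
  rw [map_sum, LinearMap.sum_apply, Finset.sum_apply]
  simp only [rho_single]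

lemma el_pow (p : ℕ) [Fact p.Prime] [CharP F p] (a : F → F) :
    el a ^ p = algebraMap F _ ((∑ t, a t) ^ p) := by
  have : CharP (AddMonoidAlgebra F F) p :=
    charP_of_injective_algebraMap (algebraMap F (AddMonoidAlgebra F F)).injective p
  unfold el
  rw [sum_pow_char, sum_pow_char, map_sum]
  refine sum_congr rfl fun t _ => ?_
  rw [AddMonoidAlgebra.single_pow]
  have : p • t = 0 := by simp
  rw [this]
  rfl

/-- the operator `θ` -/
def theta (F : Type*) [Field F] [Fintype F] (Ω : Type*) [AddAction F Ω] :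
    Module.End F (Ω → F) := rho F Ω (el fun t => t ^ (Fintype.card F - 2))

lemma theta_apply (f : Ω → F) (ω : Ω) :
    theta F Ω f ω = ∑ t : F, t ^ (Fintype.card F - 2) * f (t +ᵥ ω) := rho_el _ f ω

lemma sum_pow_card_sub_two : ∑ t : F, t ^ (Fintype.card F - 2) = 0 := by
  apply FiniteField.sum_pow_lt_card_sub_one
  have := Fintype.one_lt_card (α := F)
  omega

lemma theta_pow (p : ℕ) [Fact p.Prime] [CharP F p] : theta F Ω ^ p = 0 := by
  unfold theta
  rw [← map_pow, el_pow, sum_pow_card_sub_two, zero_pow (Fact.out : p.Prime).ne_zero]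
  simp

lemma exists_lam (p : ℕ) [Fact p.Prime] [CharP F p] (H : AddSubgroup F) (hH : H ≠ ⊤) :
    ∃ lam : F →+ F, (∀ h ∈ H, lam h = 0) ∧ ∑ t : F, t ^ (Fintype.card F - 2) * lam t ≠ 0 := by
  let _ : Algebra (ZMod p) F := ZMod.algebra F p
  have hlt : AddSubgroup.toZModSubmodule p H < ⊤ := by
    rw [lt_top_iff_ne_top]
    intro h
    apply hH
    rw [eq_top_iff]
    intro x _
    have : x ∈ AddSubgroup.toZModSubmodule p H := by rw [h]; trivial
    simpa using this
  obtain ⟨φ, hφ0, hφ⟩ := Submodule.exists_le_ker_of_lt_top _ hlt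
  let b : F := ((Algebra.traceForm (ZMod p) F).toDual (traceForm_nondegenerate (ZMod p) F)).symm φ
  have hb : ∀ x, Algebra.trace (ZMod p) F (b * x) = φ x := by
    intro x
    rw [← Algebra.traceForm_apply]
    exact LinearMap.BilinForm.apply_toDual_symm_apply _ _
  have hb0 : b ≠ 0 := by
    intro h
    apply hφ0
    ext x
    rw [← hb, h]; simp
  refine ⟨(algebraMap (ZMod p) F).toAddMonoidHom.comp φ.toAddMonoidHom, ?_, ?_⟩
  · intro h hh
    have : φ h = 0 := hφ (by simpa using hh)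
    simp [this]
  · have h1 : ∀ t : F, ((algebraMap (ZMod p) F).toAddMonoidHom.comp φ.toAddMonoidHom) t =
        ∑ i ∈ range (Module.finrank (ZMod p) F), (b * t) ^ (p ^ i) := by
      intro t
      have := FiniteField.algebraMap_trace_eq_sum_pow (ZMod p) F (b * t)
      rw [hb, Nat.card_zmod] at this
      exact this
    simp only [h1, mul_sum]
    rw [sum_comm]
    have hcard : Fintype.card F = p ^ Module.finrank (ZMod p) F := by
      rw [Module.card_eq_pow_finrank (K := ZMod p) (V := F), ZMod.card]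
    have hq := Fintype.one_lt_card (α := F)
    have hpos : 0 < Module.finrank (ZMod p) F := Module.finrank_pos
    rw [sum_eq_single 0]
    · have : ∀ t : F, t ^ (Fintype.card F - 2) * (b * t) ^ p ^ 0 =
          b * (if t = 0 then 0 else 1) := by
        intro t
        split_ifs with h
        · simp [h]
        · rw [pow_zero, pow_one, mul_left_comm, ← pow_succ]
          have : Fintype.card F - 2 + 1 = Fintype.card F - 1 := by omega
          rw [this, FiniteField.pow_card_sub_one_eq_one t h]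
      simp only [this]
      rw [← mul_sum]
      apply mul_ne_zero hb0
      have h2 : ∑ t : F, (if t = 0 then (0 : F) else 1) = ∑ t : F, (1 - if t = 0 then 1 else 0) := by
        refine sum_congr rfl fun t _ => ?_
        split_ifs <;> simp
      rw [h2, sum_sub_distrib]
      simp
    · intro i hi hi0
      have hp : 1 < p := (Fact.out : p.Prime).one_lt
      have h3 : 1 < p ^ i := Nat.one_lt_pow hi0 hp
      have h4 : p ^ i < Fintype.card F := by
        rw [hcard]; exact Nat.pow_lt_pow_right hp (mem_range.1 hi)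
      have : ∀ t : F, t ^ (Fintype.card F - 2) * (b * t) ^ p ^ i =
          b ^ p ^ i * t ^ (p ^ i - 1) := by
        intro t
        by_cases h : t = 0
        · rw [h, mul_zero, zero_pow (by omega : p ^ i ≠ 0), zero_pow (by omega : p ^ i - 1 ≠ 0)]
          simp
        · rw [mul_pow, mul_left_comm, ← pow_add]
          have : Fintype.card F - 2 + p ^ i = (Fintype.card F - 1) + (p ^ i - 1) := by omega
          rw [this, pow_add, FiniteField.pow_card_sub_one_eq_one t h, one_mul]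
      simp only [this]
      rw [← mul_sum, FiniteField.sum_pow_lt_card_sub_one F _ (by omega), mul_zero]
    · intro h
      exact absurd (mem_range.2 hpos) h

lemma exists_X (p : ℕ) [Fact p.Prime] [CharP F p] : ∃ X : Module.End F (Ω → F),
    (∀ f ω, (∃ t : F, t +ᵥ ω ≠ ω) → theta F Ω (X f) ω - X (theta F Ω f) ω = f ω) ∧
    (∀ f ω, (∀ t : F, f (t +ᵥ ω) = 0) → X f ω = 0) := by
  have h0 : ∀ ω : Ω, ∃ lam : F →+ F, (∀ h : F, h +ᵥ ω = ω → lam h = 0) ∧
      ((∃ t : F, t +ᵥ ω ≠ ω) → ∑ t : F, t ^ (Fintype.card F - 2) * lam t ≠ 0) := by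
    intro ω
    by_cases h : ∃ t : F, t +ᵥ ω ≠ ω
    · obtain ⟨lam, h1, h2⟩ := exists_lam p (AddAction.stabilizer F ω) (by
        intro htop
        obtain ⟨t, ht⟩ := h
        have : t ∈ AddAction.stabilizer F ω := by rw [htop]; trivial
        exact ht this)
      exact ⟨lam, h1, fun _ => h2⟩
    · exact ⟨0, fun _ _ => rfl, fun h' => absurd h' h⟩
  choose β hβ1 hβ2 using h0
  let rep : Ω → Ω := fun ω => Quotient.out (Quotient.mk (AddAction.orbitRel F Ω) ω)
  have hrep : ∀ (t : F) ω, rep (t +ᵥ ω) = rep ω := by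
    intro t ω
    simp only [rep]
    congr 1
    exact Quotient.sound ⟨t, rfl⟩
  have hτ : ∀ ω, ∃ t : F, t +ᵥ rep ω = ω := by
    intro ω
    have : (AddAction.orbitRel F Ω).r ω (rep ω) :=
      (AddAction.orbitRel F Ω).symm (Quotient.mk_out (s := AddAction.orbitRel F Ω) ω)
    exact this
  choose τ hτ using hτ
  let lam : Ω → F →+ F := fun ω => β (rep ω)
  let ξ : Ω → F := fun ω => lam ω (τ ω)
  have hlam : ∀ (t : F) ω, lam (t +ᵥ ω) = lam ω := by
    intro t ω
    simp only [lam, hrep]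
  have hξ : ∀ (t : F) ω, ξ (t +ᵥ ω) = ξ ω + lam ω t := by
    intro t ω
    simp only [ξ, hlam]
    have h1 : (τ (t +ᵥ ω) - t - τ ω) +ᵥ rep ω = rep ω := by
      have h2 := hτ (t +ᵥ ω)
      rw [hrep] at h2
      have h3 : τ (t +ᵥ ω) - t - τ ω = (- τ ω) + (- t + τ (t +ᵥ ω)) := by ring
      rw [h3, ← vadd_vadd, ← vadd_vadd, h2, neg_vadd_vadd]
      exact neg_vadd_eq_iff.2 (hτ ω).symm
    have h4 := hβ1 _ _ h1
    rw [map_sub, map_sub] at h4
    simp only [lam]
    linear_combination h4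
  let u : (F →+ F) → AddMonoidAlgebra F F := fun l => el fun t => t ^ (Fintype.card F - 2) * l t
  let v : (F →+ F) → AddMonoidAlgebra F F := fun l =>
    ((∑ t : F, t ^ (Fintype.card F - 2) * l t) ^ p)⁻¹ • u l ^ (p - 1)
  have hvu : ∀ l : F →+ F, ∑ t : F, t ^ (Fintype.card F - 2) * l t ≠ 0 → v l * u l = 1 := by
    intro l hl
    simp only [v]
    rw [smul_mul_assoc, ← pow_succ, Nat.sub_add_cancel (Fact.out : p.Prime).one_le]
    simp only [u]
    rw [el_pow, Algebra.smul_def, ← map_mul, inv_mul_cancel₀ (pow_ne_zero _ hl), map_one]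
  let X : Module.End F (Ω → F) :=
    { toFun := fun f ω => rho F Ω (v (lam ω)) (mulf F ξ f) ω
      map_add' := by intro f g; funext ω; simp
      map_smul' := by intro c f; funext ω; simp }
  have hX : ∀ f ω, X f ω = rho F Ω (v (lam ω)) (mulf F ξ f) ω := fun _ _ => rfl
  refine ⟨X, ?_, ?_⟩
  · intro f ω hω
    have hne : ∑ t : F, t ^ (Fintype.card F - 2) * lam ω t ≠ 0 := by
      apply hβ2
      by_contra hcon
      push Not at hcon
      obtain ⟨t, ht⟩ := hω
      apply ht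
      rw [← hτ ω, hcon, hcon]
    have h1 : theta F Ω (X f) ω = rho F Ω (v (lam ω)) (theta F Ω (mulf F ξ f)) ω := by
      have : theta F Ω (X f) ω = theta F Ω (rho F Ω (v (lam ω)) (mulf F ξ f)) ω := by
        apply rho_local
        intro t
        rw [hX, hlam]
      rw [this]
      unfold theta
      generalize mulf F ξ f = g
      rw [← Module.End.mul_apply, ← map_mul, mul_comm, map_mul, Module.End.mul_apply]
    rw [h1, hX, ← Pi.sub_apply, ← map_sub]
    have h2 : rho F Ω (v (lam ω)) (theta F Ω (mulf F ξ f) - mulf F ξ (theta F Ω f)) ω =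
        rho F Ω (v (lam ω)) (rho F Ω (u (lam ω)) f) ω := by
      apply rho_local
      intro s
      simp only [u]
      rw [Pi.sub_apply, mulf_apply, theta_apply, theta_apply, rho_el, mul_sum, ← sum_sub_distrib]
      refine sum_congr rfl fun t _ => ?_
      rw [mulf_apply, hξ t (s +ᵥ ω), hlam]
      ring
    rw [h2, ← Module.End.mul_apply, ← map_mul, hvu _ hne]
    simp
  · intro f ω h
    rw [hX, rho_local (v (lam ω)) (mulf F ξ f) 0 ω (fun t => by simp [h t])]
    simp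

lemma theta_mem {P : Ω → Prop} (hP : ∀ (t : F) ω, P (t +ᵥ ω) → P ω) {f : Ω → F}
    (hf : f ∈ sup F P) : theta F Ω f ∈ sup F P := by
  intro ω hω
  rw [theta_apply]
  refine sum_eq_zero fun t _ => ?_
  rw [hf _ (fun h => hω (hP t ω h)), mul_zero]

lemma theta_exact (p : ℕ) [Fact p.Prime] [CharP F p] {P : Ω → Prop}
    (hP : ∀ (t : F) ω, P (t +ᵥ ω) → P ω) (hfix : ∀ ω, P ω → ∃ t : F, t +ᵥ ω ≠ ω) :
    (∀ v ∈ sup F P, theta F Ω v = 0 → ∃ w ∈ sup F P, (theta F Ω ^ (p - 1)) w = v) ∧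
    (∀ v ∈ sup F P, (theta F Ω ^ (p - 1)) v = 0 → ∃ w ∈ sup F P, theta F Ω w = v) := by
  obtain ⟨X, hX1, hX2⟩ := exists_X (F := F) (Ω := Ω) p
  have hXm : ∀ v ∈ sup F P, X v ∈ sup F P := by
    intro v hv ω hω
    exact hX2 v ω (fun t => hv _ (fun h => hω (hP t ω h)))
  refine weyl_exact (sup F P) (theta F Ω) X (fun v hv => theta_mem hP hv) hXm ?_ (p - 1) ?_
  · intro v hv
    funext ω
    by_cases h : P ω
    · exact hX1 v ω (hfix ω h)
    · rw [Pi.sub_apply, theta_mem hP (hXm v hv) ω h, hXm _ (theta_mem hP hv) ω h, hv ω h, sub_zero]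
  · rw [Ne, CharP.cast_eq_zero_iff F p, (Fact.out : p.Prime).dvd_factorial]
    have := (Fact.out : p.Prime).one_lt
    omega

end

end Pool.Agent.MP_23c9d7_co

end

-- part MP_23c9d7_co.Smith
section

/-! Smith-type argument for the affine group acting on a homology sphere. -/

namespace Pool.Agent.MP_23c9d7_co

open Classical Finset

noncomputable section

variable {F : Type*} [Field F] {L : Type*} [Fintype L] [PartialOrder L]

lemma pr_bd_top {Y : Set L} {n : ℕ}
    (htop : ∀ σ : Finset L, IsCh σ → (σ : Set L) ⊆ Y → σ.card ≤ n)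
    {u : Finset L → F} (hu : u ∈ C F Y) : pr F n (bd F u) = 0 := by
  rw [← bd_pr_succ]
  have : pr F (n + 1) u = 0 := by
    funext σ
    rw [pr_apply]
    split_ifs with h
    · apply hu
      intro h2
      have := htop σ h2.1 h2.2
      omega
    · rfl
  rw [this, map_zero]

lemma Sph.top_cycle {Y : Set L} {n : ℕ} {z : Finset L → F} (hz : Sph F Y n z)
    {f : Finset L → F} (hf : f ∈ C F Y) (hb : bd F f = 0)
    (hd : f ∈ sup F (fun σ : Finset L => σ.card = n)) : ∃ c : F, f = c • z := by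
  obtain ⟨c, u, hu, hu2⟩ := hz.span f hf hb
  refine ⟨c, ?_⟩
  have := congrArg (pr F n) hu2
  rwa [pr_eq_self F hd, map_add, pr_bd_top hz.top hu, map_smul, pr_eq_self F hz.deg,
    add_zero] at this

lemma Sph.not_bd {Y : Set L} {n : ℕ} {z : Finset L → F} (hz : Sph F Y n z) :
    ∀ u ∈ C F Y, bd F u ≠ z := by
  intro u hu h
  apply hz.ne
  rw [← pr_eq_self F hz.deg, ← h, pr_bd_top hz.top hu]

lemma Sph.low_cycle {Y : Set L} {n : ℕ} {z : Finset L → F} (hz : Sph F Y n z) {j : ℕ}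
    (hj : j ≠ n) {f : Finset L → F} (hf : f ∈ C F Y) (hb : bd F (pr F j f) = 0) :
    ∃ u ∈ C F Y, u ∈ sup F (fun σ : Finset L => σ.card = j + 1) ∧ bd F u = pr F j f := by
  obtain ⟨c, u, hu, hu2⟩ := hz.span _ (pr_mem_C F j hf) hb
  refine ⟨pr F (j + 1) u, pr_mem_C F _ hu, sup_mono F (fun _ h => h.2) (pr_mem F _ hu), ?_⟩
  have h1 := congrArg (pr F j) hu2
  have h2 : pr F j z = 0 := by
    funext σ
    rw [pr_apply]
    split_ifs with h
    · exact hz.deg σ (by omega)
    · rfl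
  rw [pr_eq_self F (sup_mono F (fun _ h => h.2) (pr_mem F _ hf)), map_add, map_smul, h2,
    smul_zero, zero_add] at h1
  rw [bd_pr_succ, ← h1]

/-- the total differential -/
def dl (θ : Module.End F (Finset L → F)) (m : ℕ) :
    ((Finset L → F) × (Finset L → F)) →ₗ[F] ((Finset L → F) × (Finset L → F)) where
  toFun y := (bd F y.1 + (θ ^ m) y.2, θ y.1 - bd F y.2)
  map_add' x y := by
    ext1 <;> simp <;> abel
  map_smul' c y := by
    ext1 <;> simp [smul_sub]

lemma dl_apply (θ : Module.End F (Finset L → F)) (m : ℕ) (y : (Finset L → F) × (Finset L → F)) :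
    dl θ m y = (bd F y.1 + (θ ^ m) y.2, θ y.1 - bd F y.2) := rfl

lemma pow_comm_of {V : Type*} [AddCommGroup V] [Module F V] {θ T : Module.End F V} (c : F)
    (h : ∀ f, θ (T f) = c • T (θ f)) (m : ℕ) :
    ∀ f, (θ ^ m) (T f) = c ^ m • T ((θ ^ m) f) := by
  induction m with
  | zero => simp
  | succ m ih =>
    intro f
    rw [pow_succ θ, Module.End.mul_apply, h, map_smul, ih, smul_smul, Module.End.mul_apply,
      pow_succ' c]

lemma dl_dl {θ : Module.End F (Finset L → F)} {m : ℕ} (hθ : θ ^ (m + 1) = 0)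
    (hb : ∀ f, θ (bd F f) = bd F (θ f)) (y : (Finset L → F) × (Finset L → F)) :
    dl θ m (dl θ m y) = 0 := by
  have hb' : ∀ f, (θ ^ m) (bd F f) = bd F ((θ ^ m) f) := by
    intro f
    simpa using pow_comm_of (T := bd F) 1 (by simpa using hb) m f
  have h1 : ∀ f, (θ ^ m) (θ f) = 0 := by
    intro f
    rw [← Module.End.mul_apply, ← pow_succ, hθ]; rfl
  have h2 : ∀ f, θ ((θ ^ m) f) = 0 := by
    intro f
    rw [← Module.End.mul_apply, ← pow_succ', hθ]; rfl
  rw [dl_apply, dl_apply]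
  ext1
  · simp [bd_bd, h1, hb']
  · simp [bd_bd, h2, hb]

/-- Abstract data used in the argument. -/
structure Setup (θ : Module.End F (Finset L → F)) (m : ℕ) (Y Y0 : Set L) : Prop where
  nil : θ ^ (m + 1) = 0
  mpos : 0 < m
  cb : ∀ f, θ (bd F f) = bd F (θ f)
  cw : ∀ c f, θ (wt F c f) = wt F c (θ f)
  stab : ∀ f ∈ C F Y, θ f ∈ C F Y
  sub : Y0 ⊆ Y
  kill : ∀ f ∈ C F Y0, θ f = 0
  cind : ∀ (j : ℕ) f,
    θ (mulf F (fun σ : Finset L => if (IsCh σ ∧ (σ : Set L) ⊆ Y) ∧ ¬ (σ : Set L) ⊆ Y0 ∧ σ.card = j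
      then 1 else 0) f) =
    mulf F (fun σ : Finset L => if (IsCh σ ∧ (σ : Set L) ⊆ Y) ∧ ¬ (σ : Set L) ⊆ Y0 ∧ σ.card = j
      then 1 else 0) (θ f)
  ex1 : ∀ (j : ℕ), ∀ v ∈ sup F (fun σ : Finset L =>
      (IsCh σ ∧ (σ : Set L) ⊆ Y) ∧ ¬ (σ : Set L) ⊆ Y0 ∧ σ.card = j), θ v = 0 →
      ∃ w ∈ sup F (fun σ : Finset L =>
      (IsCh σ ∧ (σ : Set L) ⊆ Y) ∧ ¬ (σ : Set L) ⊆ Y0 ∧ σ.card = j), (θ ^ m) w = v
  ex2 : ∀ (j : ℕ), ∀ v ∈ sup F (fun σ : Finset L =>
      (IsCh σ ∧ (σ : Set L) ⊆ Y) ∧ ¬ (σ : Set L) ⊆ Y0 ∧ σ.card = j), (θ ^ m) v = 0 →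
      ∃ w ∈ sup F (fun σ : Finset L =>
      (IsCh σ ∧ (σ : Set L) ⊆ Y) ∧ ¬ (σ : Set L) ⊆ Y0 ∧ σ.card = j), θ w = v

variable {θ : Module.End F (Finset L → F)} {m : ℕ} {Y Y0 : Set L}

lemma Setup.deg (S : Setup θ m Y Y0) (Q : ℕ → Prop) {f : Finset L → F}
    (hf : f ∈ sup F (fun σ : Finset L => Q σ.card)) :
    θ f ∈ sup F (fun σ : Finset L => Q σ.card) := by
  have h1 : wt F (fun n => if Q n then 0 else 1) f = 0 := by
    funext σ
    rw [wt_apply]
    split_ifs with h
    · simp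
    · simp [hf σ h]
  have h2 := S.cw (fun n => if Q n then 0 else 1) f
  rw [h1, map_zero] at h2
  intro σ hσ
  have := congrFun h2 σ
  rw [wt_apply, if_neg hσ] at this
  simpa using this.symm

lemma Setup.killm (S : Setup θ m Y Y0) {f : Finset L → F} (hf : θ f = 0) : (θ ^ m) f = 0 := by
  obtain ⟨k, hk⟩ : ∃ k, m = k + 1 := ⟨m - 1, by have := S.mpos; omega⟩
  rw [hk, pow_succ, Module.End.mul_apply, hf, map_zero]

lemma Setup.theta_z (S : Setup θ m Y Y0) {n : ℕ} {z : Finset L → F} (hz : Sph F Y n z) :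
    θ z = 0 := by
  obtain ⟨c, hc⟩ := hz.top_cycle (S.stab z hz.mem) (by rw [← S.cb, hz.cyc, map_zero])
    (S.deg (fun k => k = n) hz.deg)
  have h1 : ∀ k : ℕ, (θ ^ k) z = c ^ k • z := by
    intro k
    induction k with
    | zero => simp
    | succ k ih =>
      rw [pow_succ' θ, Module.End.mul_apply, ih, map_smul, hc, smul_smul, pow_succ]
  have h2 := h1 (m + 1)
  rw [S.nil] at h2
  have h3 : c ^ (m + 1) = 0 := by
    by_contra h
    exact hz.ne ((smul_eq_zero.1 h2.symm).resolve_left h)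
  rw [hc, pow_eq_zero_iff (Nat.succ_ne_zero m) |>.1 h3, zero_smul]

lemma Setup.dl_mem (S : Setup θ m Y Y0) {y : (Finset L → F) × (Finset L → F)}
    (hy : y ∈ (C F Y).prod (C F Y)) : dl θ m y ∈ (C F Y).prod (C F Y) :=
  ⟨add_mem (bd_mem F hy.1) (pow_mem_of _ θ S.stab m _ hy.2),
    sub_mem (S.stab _ hy.1) (bd_mem F hy.2)⟩

lemma Setup.dl_fixed (S : Setup θ m Y Y0) {y : (Finset L → F) × (Finset L → F)}
    (hy : y ∈ (C F Y0).prod (C F Y0)) : dl θ m y = (bd F y.1, - bd F y.2) := by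
  rw [dl_apply, S.kill _ hy.1, S.killm (S.kill _ hy.2)]
  simp

lemma Setup.relA (S : Setup θ m Y Y0) {n : ℕ} {z : Finset L → F} (hz : Sph F Y n z) :
    ∀ (k j : ℕ), j + k = n → ∀ y ∈ (C F Y).prod (C F Y),
      y ∈ (sup F (fun σ : Finset L => j ≤ σ.card)).prod (sup F (fun σ : Finset L => j ≤ σ.card)) →
      dl θ m y ∈ (sup F (fun σ : Finset L => n ≤ σ.card)).prod
        (sup F (fun σ : Finset L => n ≤ σ.card)) →
      ∃ x ∈ (C F Y).prod (C F Y), ∃ u1 u2 : F, y = (u1 • z, u2 • z) + dl θ m x := by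
  have key : ∀ (j : ℕ), j ≤ n → ∀ y ∈ (sup F (fun σ : Finset L => j ≤ σ.card)).prod
      (sup F (fun σ : Finset L => j ≤ σ.card)),
      dl θ m y ∈ (sup F (fun σ : Finset L => n ≤ σ.card)).prod
        (sup F (fun σ : Finset L => n ≤ σ.card)) →
      bd F (pr F j y.1) = 0 ∧ bd F (pr F j y.2) = 0 := by
    intro j hj y hy h0
    have hle : sup F (fun σ : Finset L => n ≤ σ.card) ≤ sup F (fun σ : Finset L => j ≤ σ.card) :=
      sup_mono F (fun _ h => hj.trans h)
    have h1 : bd F y.1 + (θ ^ m) y.2 ∈ sup F (fun σ : Finset L => j ≤ σ.card) := hle h0.1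
    have h2 : θ y.1 - bd F y.2 ∈ sup F (fun σ : Finset L => j ≤ σ.card) := hle h0.2
    constructor
    · apply bd_pr_eq_zero
      simpa using sub_mem h1 (pow_mem_of _ θ (fun v hv => S.deg (fun k => j ≤ k) hv) m _ hy.2)
    · apply bd_pr_eq_zero
      simpa using sub_mem (S.deg (fun k => j ≤ k) hy.1) h2
  intro k
  induction k with
  | zero =>
    intro j hj y hy hyd h0
    have hjn : j = n := by omega
    subst hjn
    have aux : ∀ f ∈ C F Y, f ∈ sup F (fun σ : Finset L => j ≤ σ.card) →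
        f ∈ sup F (fun σ : Finset L => σ.card = j) := by
      intro f hf hf2 σ hσ
      by_cases h : j ≤ σ.card
      · apply hf
        intro h2
        have := hz.top σ h2.1 h2.2
        omega
      · exact hf2 σ h
    obtain ⟨k1, k2⟩ := key j le_rfl y hyd h0
    have d1 := aux _ hy.1 hyd.1
    have d2 := aux _ hy.2 hyd.2
    rw [pr_eq_self F d1] at k1
    rw [pr_eq_self F d2] at k2
    obtain ⟨u1, hu1⟩ := hz.top_cycle hy.1 k1 d1
    obtain ⟨u2, hu2⟩ := hz.top_cycle hy.2 k2 d2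
    exact ⟨0, zero_mem _, u1, u2, by rw [map_zero, add_zero, ← hu1, ← hu2]⟩
  | succ k ih =>
    intro j hj y hy hyd h0
    obtain ⟨k1, k2⟩ := key j (by omega) y hyd h0
    obtain ⟨x1, hx1, dx1, bx1⟩ := hz.low_cycle (by omega : j ≠ n) hy.1 k1
    obtain ⟨x2, hx2, dx2, bx2⟩ := hz.low_cycle (by omega : j ≠ n) hy.2 k2
    have hx : ((x1, -x2) : (Finset L → F) × (Finset L → F)) ∈ (C F Y).prod (C F Y) :=
      ⟨hx1, neg_mem hx2⟩
    have aux : ∀ f ∈ sup F (fun σ : Finset L => j ≤ σ.card),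
        f - pr F j f ∈ sup F (fun σ : Finset L => j + 1 ≤ σ.card) := by
      intro f hf σ hσ
      rw [Pi.sub_apply, pr_apply]
      split_ifs with h
      · simp
      · rw [hf σ (by omega)]; simp
    have up : ∀ f ∈ sup F (fun σ : Finset L => σ.card = j + 1),
        f ∈ sup F (fun σ : Finset L => j + 1 ≤ σ.card) :=
      fun f hf => sup_mono F (fun _ h => h.ge) hf
    obtain ⟨x, hx', u1, u2, hu⟩ := ih (j + 1) (by omega) (y - dl θ m (x1, -x2))
      (sub_mem hy (S.dl_mem hx)) (by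
        rw [dl_apply]
        constructor
        · have : (y - (bd F x1 + (θ ^ m) (-x2), θ x1 - bd F (-x2))).1 =
              (y.1 - pr F j y.1) + (θ ^ m) x2 := by
            simp only [Prod.fst_sub, map_neg, bx1]; abel
          show (y - (bd F x1 + (θ ^ m) (-x2), θ x1 - bd F (-x2))).1 ∈ _
          rw [this]
          exact add_mem (aux _ hyd.1)
            (pow_mem_of _ θ (fun v hv => S.deg (fun k => j + 1 ≤ k) hv) m _ (up _ dx2))
        · have : (y - (bd F x1 + (θ ^ m) (-x2), θ x1 - bd F (-x2))).2 =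
              (y.2 - pr F j y.2) - θ x1 := by
            simp only [Prod.snd_sub, map_neg, bx2]; abel
          show (y - (bd F x1 + (θ ^ m) (-x2), θ x1 - bd F (-x2))).2 ∈ _
          rw [this]
          exact sub_mem (aux _ hyd.2) (S.deg (fun k => j + 1 ≤ k) (up _ dx1)))
      (by rw [map_sub, dl_dl S.nil S.cb, sub_zero]; exact h0)
    refine ⟨x + (x1, -x2), add_mem hx' hx, u1, u2, ?_⟩
    rw [map_add, ← add_assoc, ← hu]
    abel

lemma Setup.exE (S : Setup θ m Y Y0) {n : ℕ} {z : Finset L → F} (hz : Sph F Y n z)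
    {y : (Finset L → F) × (Finset L → F)} (hy : y ∈ (C F Y).prod (C F Y)) (h0 : dl θ m y = 0) :
    ∃ x ∈ (C F Y).prod (C F Y), ∃ u1 u2 : F, y = (u1 • z, u2 • z) + dl θ m x :=
  S.relA hz n 0 (by omega) y hy
    ⟨fun _ h => absurd (Nat.zero_le _) h, fun _ h => absurd (Nat.zero_le _) h⟩
    (by rw [h0]; exact zero_mem _)

lemma Setup.uniqE (S : Setup θ m Y Y0) {n : ℕ} {z : Finset L → F} (hz : Sph F Y n z)
    {y : (Finset L → F) × (Finset L → F)} (hy : y ∈ (C F Y).prod (C F Y)) {u1 u2 : F}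
    (h0 : (u1 • z, u2 • z) = dl θ m y) : u1 = 0 ∧ u2 = 0 := by
  have hzd : z ∈ sup F (fun σ : Finset L => n ≤ σ.card) := sup_mono F (fun _ h => h.ge) hz.deg
  obtain ⟨x, hx, v1, v2, hv⟩ := S.relA hz n 0 (by omega) y hy
    ⟨fun _ h => absurd (Nat.zero_le _) h, fun _ h => absurd (Nat.zero_le _) h⟩
    (by rw [← h0]; exact ⟨Submodule.smul_mem _ _ hzd, Submodule.smul_mem _ _ hzd⟩)
  rw [hv, map_add, dl_dl S.nil S.cb, add_zero, dl_apply] at h0
  simp only [map_smul, hz.cyc, S.theta_z hz, S.killm (S.theta_z hz), smul_zero, add_zero,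
    sub_zero, Prod.mk.injEq, smul_eq_zero, hz.ne, or_false] at h0
  exact h0

lemma Setup.relD (S : Setup θ m Y Y0) : ∀ (j : ℕ), ∀ y ∈ (C F Y).prod (C F Y),
    y ∈ (sup F (fun σ : Finset L => (σ : Set L) ⊆ Y0 ∨ σ.card < j)).prod
      (sup F (fun σ : Finset L => (σ : Set L) ⊆ Y0 ∨ σ.card < j)) →
    dl θ m y ∈ (C F Y0).prod (C F Y0) →
    ∃ x ∈ (C F Y).prod (C F Y), y - dl θ m x ∈ (C F Y0).prod (C F Y0) := by
  intro j
  induction j with
  | zero =>
    intro y hy hyd _
    have aux : ∀ f ∈ C F Y, f ∈ sup F (fun σ : Finset L => (σ : Set L) ⊆ Y0 ∨ σ.card < 0) →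
        f ∈ C F Y0 := by
      intro f hf hf2 σ hσ
      by_cases h : (σ : Set L) ⊆ Y0
      · exact hf σ (fun h2 => hσ ⟨h2.1, h⟩)
      · exact hf2 σ (by simp [h])
    exact ⟨0, zero_mem _, by simpa using ⟨aux _ hy.1 hyd.1, aux _ hy.2 hyd.2⟩⟩
  | succ j ih =>
    intro y hy hyd h0
    let e : Module.End F (Finset L → F) := mulf F (fun σ : Finset L =>
      if (IsCh σ ∧ (σ : Set L) ⊆ Y) ∧ ¬ (σ : Set L) ⊆ Y0 ∧ σ.card = j then 1 else 0)
    have he : ∀ f, e f ∈ sup F (fun σ : Finset L =>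
        (IsCh σ ∧ (σ : Set L) ⊆ Y) ∧ ¬ (σ : Set L) ⊆ Y0 ∧ σ.card = j) := by
      intro f σ hσ
      simp only [e, mulf_apply]
      rw [if_neg hσ, zero_mul]
    have he0 : ∀ f ∈ C F Y0, e f = 0 := by
      intro f hf
      funext σ
      simp only [e, mulf_apply]
      split_ifs with h
      · rw [hf σ (fun h2 => h.2.1 h2.2)]; simp
      · simp
    have heb : ∀ f ∈ sup F (fun σ : Finset L => (σ : Set L) ⊆ Y0 ∨ σ.card < j + 1),
        e (bd F f) = 0 := by
      intro f hf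
      have : bd F f ∈ sup F (fun σ : Finset L => (σ : Set L) ⊆ Y0 ∨ σ.card < j) := by
        refine bd_mem_sup F ?_ hf
        intro τ x hx _ hp
        rcases hp with hp | hp
        · left
          exact fun a ha => hp (by simp [mem_coe.1 ha])
        · right
          rw [card_insert_of_notMem hx] at hp
          omega
      funext σ
      simp only [e, mulf_apply]
      split_ifs with h
      · rw [this σ (by rintro (h2 | h2); exact h.2.1 h2; omega)]; simp
      · simp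
    have hem : ∀ f, (θ ^ m) (e f) = e ((θ ^ m) f) := by
      intro f
      simpa using pow_comm_of (T := e) 1 (fun f => by simpa using S.cind j f) m f
    have h1 : (θ ^ m) (e y.2) = 0 := by
      have := he0 _ h0.1
      rw [dl_apply] at this
      simp only [map_add, heb _ hyd.1, zero_add] at this
      rw [hem, this]
    have h2 : θ (e y.1) = 0 := by
      have := he0 _ h0.2
      rw [dl_apply] at this
      simp only [map_sub, heb _ hyd.2, sub_zero] at this
      rw [S.cind j, this]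
    obtain ⟨x2, hx2, ex2⟩ := S.ex1 j _ (he y.1) h2
    obtain ⟨x1, hx1, ex1⟩ := S.ex2 j _ (he y.2) h1
    have hx : ((x1, x2) : (Finset L → F) × (Finset L → F)) ∈ (C F Y).prod (C F Y) :=
      ⟨sup_mono F (fun _ h => h.1) hx1, sup_mono F (fun _ h => h.1) hx2⟩
    have aux : ∀ f ∈ C F Y, f ∈ sup F (fun σ : Finset L => (σ : Set L) ⊆ Y0 ∨ σ.card < j + 1) →
        f - e f ∈ sup F (fun σ : Finset L => (σ : Set L) ⊆ Y0 ∨ σ.card < j) := by
      intro f hf hf2 σ hσ
      simp only [Pi.sub_apply, e, mulf_apply]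
      split_ifs with h
      · simp
      · rw [zero_mul, sub_zero]
        by_cases h3 : IsCh σ ∧ (σ : Set L) ⊆ Y
        · apply hf2
          rintro (h4 | h4)
          · exact hσ (Or.inl h4)
          · exact h ⟨h3, fun h5 => hσ (Or.inl h5), by
              have : ¬ σ.card < j := fun h6 => hσ (Or.inr h6)
              omega⟩
        · exact hf σ h3
    have auxb : ∀ f ∈ sup F (fun σ : Finset L =>
        (IsCh σ ∧ (σ : Set L) ⊆ Y) ∧ ¬ (σ : Set L) ⊆ Y0 ∧ σ.card = j),
        bd F f ∈ sup F (fun σ : Finset L => (σ : Set L) ⊆ Y0 ∨ σ.card < j) := by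
      intro f hf
      refine bd_mem_sup F ?_ hf
      intro τ x hx _ hp
      right
      have := hp.2.2
      rw [card_insert_of_notMem hx] at this
      omega
    obtain ⟨x, hx', hx3⟩ := ih (y - dl θ m (x1, x2)) (sub_mem hy (S.dl_mem hx)) (by
        rw [dl_apply]
        constructor
        · have : (y - (bd F x1 + (θ ^ m) x2, θ x1 - bd F x2)).1 = (y.1 - e y.1) - bd F x1 := by
            simp only [Prod.fst_sub, ex2, e]; abel
          show (y - (bd F x1 + (θ ^ m) x2, θ x1 - bd F x2)).1 ∈ _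
          rw [this]
          exact sub_mem (aux _ hy.1 hyd.1) (auxb _ hx1)
        · have : (y - (bd F x1 + (θ ^ m) x2, θ x1 - bd F x2)).2 = (y.2 - e y.2) + bd F x2 := by
            simp only [Prod.snd_sub, ex1, e]; abel
          show (y - (bd F x1 + (θ ^ m) x2, θ x1 - bd F x2)).2 ∈ _
          rw [this]
          exact add_mem (aux _ hy.2 hyd.2) (auxb _ hx2))
      (by rw [map_sub, dl_dl S.nil S.cb, sub_zero]; exact h0)
    refine ⟨x + (x1, x2), add_mem hx' hx, ?_⟩
    rw [map_add, add_comm, ← sub_sub]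
    exact hx3

lemma Setup.relD' (S : Setup θ m Y Y0) {y : (Finset L → F) × (Finset L → F)}
    (hy : y ∈ (C F Y).prod (C F Y)) (h0 : dl θ m y ∈ (C F Y0).prod (C F Y0)) :
    ∃ x ∈ (C F Y).prod (C F Y), y - dl θ m x ∈ (C F Y0).prod (C F Y0) := by
  have : ∀ f : Finset L → F, f ∈ sup F (fun σ : Finset L => (σ : Set L) ⊆ Y0 ∨
      σ.card < Fintype.card L + 1) := by
    intro f σ hσ
    exact absurd (Or.inr (Nat.lt_succ_of_le (card_le_univ σ))) hσ
  exact S.relD (Fintype.card L + 1) y hy ⟨this _, this _⟩ h0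

lemma Setup.injD (S : Setup θ m Y Y0) {a b : Finset L → F} (ha : a ∈ C F Y0) (hb : b ∈ C F Y0)
    {y : (Finset L → F) × (Finset L → F)} (hy : y ∈ (C F Y).prod (C F Y))
    (h : (a, b) = dl θ m y) : (∃ d ∈ C F Y0, bd F d = a) ∧ ∃ d ∈ C F Y0, bd F d = b := by
  obtain ⟨x, hx, hx2⟩ := S.relD' hy (by rw [← h]; exact ⟨ha, hb⟩)
  have h1 := S.dl_fixed hx2
  rw [map_sub, dl_dl S.nil S.cb, sub_zero, ← h, Prod.mk.injEq] at h1
  exact ⟨⟨_, hx2.1, h1.1.symm⟩, ⟨_, neg_mem hx2.2, by rw [map_neg]; exact h1.2.symm⟩⟩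

lemma Setup.exists_w (S : Setup θ m Y Y0) {n : ℕ} {z : Finset L → F} (hz : Sph F Y n z) :
    ∃ (n' : ℕ), ∃ w ∈ C F Y0, w ∈ sup F (fun σ : Finset L => σ.card = n') ∧ bd F w = 0 ∧
      ∀ u ∈ C F Y0, bd F u ≠ w := by
  by_contra hcon
  push Not at hcon
  have hac : Acyc F Y0 := by
    intro f hf hb
    have h1 : ∀ j : ℕ, ∃ u ∈ C F Y0, bd F u = pr F j f := by
      intro j
      refine hcon j _ (pr_mem_C F j hf) (sup_mono F (fun _ h => h.2) (pr_mem F j hf)) ?_
      apply bd_pr_eq_zero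
      rw [hb]
      exact zero_mem _
    choose u hu hu2 using h1
    refine ⟨∑ j ∈ range (Fintype.card L + 1), u j, sum_mem (fun j _ => hu j), ?_⟩
    rw [map_sum]
    simp only [hu2]
    funext σ
    rw [Finset.sum_apply]
    simp only [pr_apply]
    rw [sum_ite_eq, if_pos (mem_range.2 (Nat.lt_succ_of_le (card_le_univ σ)))]
  have hz0 : ((z, 0) : (Finset L → F) × (Finset L → F)) ∈ (C F Y).prod (C F Y) :=
    ⟨hz.mem, zero_mem _⟩
  have hd : dl θ m (z, 0) = 0 := by
    rw [dl_apply]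
    simp [hz.cyc, S.theta_z hz]
  obtain ⟨x, hx, hx2⟩ := S.relD' hz0 (by rw [hd]; exact zero_mem _)
  have h1 := S.dl_fixed hx2
  rw [map_sub, dl_dl S.nil S.cb, hd, sub_zero] at h1
  obtain ⟨d1, hd1, e1⟩ := hac _ hx2.1 (congrArg Prod.fst h1).symm
  obtain ⟨d2, hd2, e2⟩ := hac _ hx2.2 (neg_eq_zero.1 (congrArg Prod.snd h1).symm)
  have h2 : dl θ m (d1, -d2) = (z, 0) - dl θ m x := by
    rw [S.dl_fixed ⟨hd1, neg_mem hd2⟩]
    simp only [map_neg, neg_neg, e1, e2]
  have h3 : ((1 : F) • z, (0 : F) • z) = dl θ m (x + (d1, -d2)) := by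
    rw [map_add, h2]; simp
  exact one_ne_zero (S.uniqE hz (add_mem hx
    ⟨C_mono F S.sub hd1, neg_mem (C_mono F S.sub hd2)⟩) h3).1

omit [Fintype L] [PartialOrder L] in
lemma wt_homog (c : ℕ → F) {n : ℕ} {f : Finset L → F}
    (hf : f ∈ sup F (fun σ : Finset L => σ.card = n)) : wt F c f = c n • f := by
  funext σ
  rw [wt_apply, Pi.smul_apply, smul_eq_mul]
  by_cases h : σ.card = n
  · rw [h]
  · rw [hf σ h]; simp

omit [Fintype L] in
lemma pull_homog (e : L ≃o L) {n : ℕ} {f : Finset L → F}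
    (hf : f ∈ sup F (fun σ : Finset L => σ.card = n)) :
    pull F e f ∈ sup F (fun σ : Finset L => σ.card = n) := by
  intro σ hσ
  rw [pull_apply]
  apply hf
  intro h
  exact hσ ((card_image_iso e σ).symm.trans h)

theorem Setup.main (S : Setup θ m Y Y0) {n : ℕ} {z : Finset L → F} (hz : Sph F Y n z)
    (e : L ≃o L) (hYe : ∀ y, e y ∈ Y ↔ y ∈ Y) (hY0e : ∀ y, e y ∈ Y0 ↔ y ∈ Y0) (s : F)
    (hs : s ≠ 0) (hθe : ∀ f, θ (pull F e f) = s • pull F e (θ f)) :
    ∃ (n' : ℕ), ∃ w ∈ C F Y0, w ∈ sup F (fun σ : Finset L => σ.card = n') ∧ bd F w = 0 ∧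
      w ≠ 0 ∧ (s ^ (m + 1)) ^ n' = (s ^ (m + 1)) ^ n := by
  obtain ⟨n', w, hw, hwd, hwb, hwn⟩ := S.exists_w hz
  have hw0 : w ≠ 0 := fun h => hwn 0 (zero_mem _) (by rw [h, map_zero])
  refine ⟨n', w, hw, hwd, hwb, hw0, ?_⟩
  have hwY := C_mono F S.sub hw
  have cyc : ∀ a ∈ C F Y0, ∀ b ∈ C F Y0, bd F a = 0 → bd F b = 0 →
      ∃ x ∈ (C F Y).prod (C F Y), ∃ u1 u2 : F, (a, b) = (u1 • z, u2 • z) + dl θ m x := by
    intro a ha b hb ha2 hb2
    refine S.exE hz ⟨C_mono F S.sub ha, C_mono F S.sub hb⟩ ?_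
    rw [S.dl_fixed ⟨ha, hb⟩]
    simp [ha2, hb2]
  obtain ⟨x1, hx1, u1, u2, hE1⟩ := cyc w hw 0 (zero_mem _) hwb (map_zero _)
  obtain ⟨x2, hx2, v1, v2, hE2⟩ := cyc 0 (zero_mem _) w hw (map_zero _) hwb
  have hd1 : dl θ m x1 = (w, 0) - (u1 • z, u2 • z) := by rw [hE1]; abel
  have hd2 : dl θ m x2 = (0, w) - (v1 • z, v2 • z) := by rw [hE2]; abel
  have hnb : ∀ c : F, (∃ d ∈ C F Y0, bd F d = c • w) → c = 0 := by
    rintro c ⟨d, hd, hd2⟩
    by_contra hc
    apply hwn (c⁻¹ • d) (Submodule.smul_mem _ _ hd)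
    rw [map_smul, hd2, smul_smul, inv_mul_cancel₀ hc, one_smul]
  have indep : ∀ α β : F, α * u1 + β * v1 = 0 → α * u2 + β * v2 = 0 → α = 0 ∧ β = 0 := by
    intro α β h1 h2
    have h3 : (α • w, β • w) = dl θ m (α • x1 + β • x2) := by
      rw [map_add, map_smul, map_smul, hd1, hd2]
      ext1
      · simp only [Prod.fst_add, Prod.smul_fst, Prod.fst_sub, smul_sub, smul_smul, smul_zero]
        have : (α * u1) • z = - ((β * v1) • z) := by
          rw [eq_neg_iff_add_eq_zero, ← add_smul, h1, zero_smul]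
        rw [this]; abel
      · simp only [Prod.snd_add, Prod.smul_snd, Prod.snd_sub, smul_sub, smul_smul, smul_zero]
        have : (α * u2) • z = - ((β * v2) • z) := by
          rw [eq_neg_iff_add_eq_zero, ← add_smul, h2, zero_smul]
        rw [this]; abel
    obtain ⟨k1, k2⟩ := S.injD (Submodule.smul_mem _ _ hw) (Submodule.smul_mem _ _ hw)
      (add_mem (Submodule.smul_mem _ _ hx1) (Submodule.smul_mem _ _ hx2)) h3
    exact ⟨hnb α k1, hnb β k2⟩
  have hdet : u1 * v2 - u2 * v1 ≠ 0 := by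
    intro h
    obtain ⟨k1, k2⟩ := indep v2 (-u2) (by linear_combination h) (by ring)
    obtain ⟨k3, k4⟩ := indep v1 (-u1) (by ring) (by linear_combination -h)
    have k5 : u1 = 0 := neg_eq_zero.1 k4
    have k6 : u2 = 0 := neg_eq_zero.1 k2
    exact one_ne_zero (indep 1 0 (by simp [k5]) (by simp [k6])).1
  have hspan : ∀ f ∈ C F Y0, bd F f = 0 → ∃ c : F, ∃ u ∈ C F Y0, f = c • w + bd F u := by
    intro f hf hfb
    obtain ⟨x, hx, a1, a2, hE⟩ := cyc f hf 0 (zero_mem _) hfb (map_zero _)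
    have hd : dl θ m x = (f, 0) - (a1 • z, a2 • z) := by rw [hE]; abel
    set α := (a1 * v2 - a2 * v1) / (u1 * v2 - u2 * v1) with hα
    set β := (u1 * a2 - u2 * a1) / (u1 * v2 - u2 * v1) with hβ
    have e1 : a1 = α * u1 + β * v1 := by
      rw [hα, hβ, div_mul_eq_mul_div, div_mul_eq_mul_div, ← add_div, eq_div_iff hdet]; ring
    have e2 : a2 = α * u2 + β * v2 := by
      rw [hα, hβ, div_mul_eq_mul_div, div_mul_eq_mul_div, ← add_div, eq_div_iff hdet]; ring
    have h3 : (f - α • w, (-β) • w) = dl θ m (x - α • x1 - β • x2) := by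
      rw [map_sub, map_sub, map_smul, map_smul, hd1, hd2, hd]
      ext1
      · simp only [Prod.smul_fst, Prod.fst_sub, smul_sub, smul_smul, smul_zero]
        rw [e1, add_smul]; abel
      · simp only [Prod.smul_snd, Prod.snd_sub, smul_sub, smul_smul, smul_zero]
        rw [e2, add_smul, neg_smul]; abel
    obtain ⟨⟨d, hd, hd2⟩, _⟩ := S.injD (sub_mem hf (Submodule.smul_mem _ _ hw))
      (Submodule.smul_mem _ _ hw)
      (sub_mem (sub_mem hx (Submodule.smul_mem _ _ hx1)) (Submodule.smul_mem _ _ hx2)) h3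
    exact ⟨α, d, hd, by rw [hd2]; abel⟩
  obtain ⟨d, hd, hGw⟩ := sq_trivial e hY0e hw hwb hwn hspan
  have hGz : pull F (e * e) z = z := by
    obtain ⟨u, hu, h⟩ := sq_trivial e hYe hz.mem hz.cyc hz.not_bd hz.span
    have := congrArg (pr F n) h
    rwa [pr_eq_self F (pull_homog _ hz.deg), map_add, pr_bd_top hz.top hu, add_zero,
      pr_eq_self F hz.deg] at this
  set μ : F := s ^ (m + 1) with hμ
  have hμ0 : μ ≠ 0 := pow_ne_zero _ hs
  set ν : F := s ^ 2 * μ⁻¹ with hν
  let T : Module.End F (Finset L → F) := wt F (fun k => μ ^ k) ∘ₗ pull F (e * e)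
  have hT : ∀ f, T f = wt F (fun k => μ ^ k) (pull F (e * e) f) := fun _ => rfl
  have hTb : ∀ f, bd F (T f) = μ • T (bd F f) := by
    intro f
    rw [hT, hT, bd_wt, bd_pull]
    funext σ
    simp only [wt_apply, Pi.smul_apply, smul_eq_mul]
    ring
  have hTθ : ∀ f, θ (T f) = s ^ 2 • T (θ f) := by
    intro f
    rw [hT, hT, S.cw, ← pull_pull, ← pull_pull, hθe, hθe, map_smul, map_smul, map_smul,
      smul_smul, sq]
  have hTm := pow_comm_of (s ^ 2) hTθ m
  have hTC : ∀ f ∈ C F Y, T f ∈ C F Y := by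
    intro f hf
    rw [hT, ← pull_pull]
    exact wt_mem F _ (pull_mem F e (fun y => (hYe y).1) (pull_mem F e (fun y => (hYe y).1) hf))
  have hTw : T w = μ ^ n' • (w + bd F d) := by
    rw [hT, wt_homog _ (pull_homog _ hwd), hGw]
  have hTz : T z = μ ^ n • z := by
    rw [hT, hGz, wt_homog _ hz.deg]
  have c1 : ν * (s ^ 2) ^ m = μ := by
    rw [hν, hμ]; field_simp; ring
  have c2 : ν * μ = s ^ 2 := by
    rw [hν]; field_simp
  have hΦ : dl θ m (T x1.1, ν • T x1.2) =
      μ • (T (dl θ m x1).1, ν • T (dl θ m x1).2) := by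
    rw [dl_apply, dl_apply]
    ext1
    · simp only [map_smul, hTb, hTm, smul_smul, c1, Prod.smul_fst, map_add, smul_add]
    · simp only [map_smul, hTb, hTθ, smul_smul, c2, Prod.smul_snd, map_sub, smul_sub, mul_comm μ ν]
  have h4 : ((u1 * (μ ^ n' - μ ^ n)) • z, (u2 * (μ ^ n' - ν * μ ^ n)) • z) =
      dl θ m (μ⁻¹ • (T x1.1, ν • T x1.2) - μ ^ n' • x1 - μ ^ n' • (d, 0)) := by
    rw [map_sub, map_sub, map_smul, map_smul, map_smul, hΦ, smul_smul, inv_mul_cancel₀ hμ0,
      one_smul, S.dl_fixed (y := (d, 0)) ⟨hd, zero_mem _⟩, hd1]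
    ext1
    · simp only [Prod.smul_fst, Prod.fst_sub, map_sub, map_smul, hTw, hTz]
      module
    · simp only [Prod.smul_snd, Prod.snd_sub, map_sub, map_smul, hTz, map_zero]
      module
  obtain ⟨k1, k2⟩ := S.uniqE hz (sub_mem (sub_mem (Submodule.smul_mem _ _
    ⟨hTC _ hx1.1, Submodule.smul_mem _ _ (hTC _ hx1.2)⟩) (Submodule.smul_mem _ _ hx1))
    (Submodule.smul_mem _ _ ⟨C_mono F S.sub hd, zero_mem _⟩)) h4
  by_cases hu1 : u1 = 0
  · have hu2 : u2 ≠ 0 := by
      intro h; apply hdet; rw [hu1, h]; ring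
    have hv1 : v1 ≠ 0 := by
      intro h; apply hdet; rw [hu1, h]; ring
    have hm1 : m = 1 := by
      by_contra hm
      obtain ⟨k, hk⟩ : ∃ k, m = k + 2 := ⟨m - 2, by have := S.mpos; omega⟩
      have hθz : (θ ^ (k + 1)) z = 0 := by
        rw [pow_succ, Module.End.mul_apply, S.theta_z hz, map_zero]
      have hb' : ∀ f, (θ ^ (k + 1)) (bd F f) = bd F ((θ ^ (k + 1)) f) := by
        intro f
        simpa using pow_comm_of (T := bd F) 1 (by simpa using S.cb) (k + 1) f
      have hκ : dl θ m ((θ ^ (k + 1)) x1.2, - x1.1) =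
          - ((θ ^ (k + 1)) (dl θ m x1).2, - (dl θ m x1).1) := by
        have a1 : ∀ f, (θ ^ (k + 1)) (θ f) = (θ ^ m) f := by
          intro f
          rw [← Module.End.mul_apply, ← pow_succ, hk]
        have a2 : ∀ f, θ ((θ ^ (k + 1)) f) = (θ ^ m) f := by
          intro f
          rw [← Module.End.mul_apply, ← pow_succ', hk]
        rw [dl_apply, dl_apply]
        ext1
        · simp only [map_neg, map_sub, a1, hb', Prod.fst_neg]
          abel
        · simp only [map_neg, a2, Prod.snd_neg]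
          abel
      have h5 : (v1 • z, v2 • z) = dl θ m (((θ ^ (k + 1)) x1.2, - x1.1) - x2) := by
        rw [map_sub, hκ, hd1, hd2]
        ext1
        · simp [hθz]
        · simp [hu1]
      exact hv1 (S.uniqE hz (sub_mem ⟨pow_mem_of _ θ S.stab _ _ hx1.2, neg_mem hx1.1⟩ hx2) h5).1
    have hν1 : ν = 1 := by
      rw [hν, hμ, hm1]; field_simp
    rw [hν1, one_mul] at k2
    exact sub_eq_zero.1 ((mul_eq_zero.1 k2).resolve_left hu2)
  · exact sub_eq_zero.1 ((mul_eq_zero.1 k1).resolve_left hu1)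

omit [Fintype L] in
lemma fixed_of_comparable (p : ℕ) (hp : 0 < p) (e : L ≃o L) (he : e ^ p = 1) (x : L)
    (h : e x ≤ x ∨ x ≤ e x) : e x = x := by
  obtain ⟨k, rfl⟩ : ∃ k, p = k + 1 := ⟨p - 1, by omega⟩
  have hk : (e ^ k) (e x) = x := by
    have : (e ^ (k + 1)) x = x := by rw [he]; rfl
    rw [pow_succ] at this
    exact this
  rcases h with h | h
  · have : ∀ j : ℕ, (e ^ j) (e x) ≤ e x := by
      intro j
      induction j with
      | zero => exact le_rfl
      | succ j ih =>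
        rw [pow_succ']
        exact (e.monotone (ih.trans h))
    exact le_antisymm h (by simpa [hk] using this k)
  · have : ∀ j : ℕ, e x ≤ (e ^ j) (e x) := by
      intro j
      induction j with
      | zero => exact le_rfl
      | succ j ih =>
        rw [pow_succ']
        exact (e.monotone (h.trans ih))
    exact le_antisymm (by simpa [hk] using this k) h

theorem smith [Fintype F] (tr : F → L ≃o L) (h0 : tr 0 = 1)
    (hadd : ∀ s t, tr (s + t) = tr s * tr t) (s : Fˣ) (hs : orderOf s = Fintype.card F - 1)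
    (e : L ≃o L) (he : ∀ t, e * tr t = tr (s * t) * e) {Y : Set L}
    (hYt : ∀ t y, tr t y ∈ Y ↔ y ∈ Y) (hYe : ∀ y, e y ∈ Y ↔ y ∈ Y) {n : ℕ}
    {z : Finset L → F} (hz : Sph F Y n z) :
    Fintype.card F - 1 ≤ n ∨ ∃ w ∈ C F {y | y ∈ Y ∧ ∀ t, tr t y = y},
      w ∈ sup F (fun σ : Finset L => σ.card = n) ∧ bd F w = 0 ∧ w ≠ 0 := by
  obtain ⟨p, hp⟩ := CharP.exists F
  have hpp : p.Prime := CharP.char_is_prime F p
  have : Fact p.Prime := ⟨hpp⟩
  let _ : AddAction F (Finset L) :=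
    { vadd := fun t σ => σ.image (tr t)
      zero_vadd := fun σ => by
        show σ.image (tr 0) = σ
        rw [h0]; exact image_id
      add_vadd := fun s t σ => by
        show σ.image (tr (s + t)) = (σ.image (tr t)).image (tr s)
        rw [hadd, image_image]; rfl }
  have hv : ∀ (t : F) (σ : Finset L), t +ᵥ σ = σ.image (tr t) := fun _ _ => rfl
  set Y0 : Set L := {y | y ∈ Y ∧ ∀ t, tr t y = y} with hY0
  have hθ : ∀ f, theta F (Finset L) f =
      ∑ t : F, t ^ (Fintype.card F - 2) • pull F (tr t) f := by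
    intro f
    funext σ
    rw [theta_apply, Finset.sum_apply]
    rfl
  have htrp : ∀ t, tr t ^ p = 1 := by
    intro t
    have : ∀ k : ℕ, tr t ^ k = tr (k • t) := by
      intro k
      induction k with
      | zero => simp [h0]
      | succ k ih => rw [pow_succ, ih, ← hadd, succ_nsmul]
    rw [this, nsmul_eq_mul, CharP.cast_eq_zero, zero_mul, h0]
  have hY0t : ∀ t y, tr t y ∈ Y0 ↔ y ∈ Y0 := by
    intro t y
    constructor
    · rintro ⟨h1, h2⟩
      have h3 : tr t y = y := by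
        have := h2 (-t)
        rw [← RelIso.mul_apply, ← hadd, neg_add_cancel, h0] at this
        exact this.symm
      rw [h3] at h1 h2
      exact ⟨h1, h2⟩
    · intro h
      rw [h.2 t]; exact h
  have himg : ∀ (Z : Set L) (g : L ≃o L), (∀ y, g y ∈ Z ↔ y ∈ Z) → ∀ σ : Finset L,
      ((σ.image g : Finset L) : Set L) ⊆ Z ↔ (σ : Set L) ⊆ Z := by
    intro Z g hg σ
    rw [coe_image, Set.image_subset_iff]
    exact ⟨fun h y hy => (hg y).1 (h hy), fun h y hy => (hg y).2 (h hy)⟩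
  have hinv : ∀ (j : ℕ) (t : F) (σ : Finset L),
      ((IsCh (t +ᵥ σ) ∧ ((t +ᵥ σ : Finset L) : Set L) ⊆ Y) ∧
        ¬ ((t +ᵥ σ : Finset L) : Set L) ⊆ Y0 ∧ (t +ᵥ σ).card = j) ↔
      ((IsCh σ ∧ (σ : Set L) ⊆ Y) ∧ ¬ (σ : Set L) ⊆ Y0 ∧ σ.card = j) := by
    intro j t σ
    rw [hv, isCh_image, himg Y _ (hYt t), himg Y0 _ (hY0t t), card_image_iso]
  have hnofix : ∀ (j : ℕ) (σ : Finset L),
      ((IsCh σ ∧ (σ : Set L) ⊆ Y) ∧ ¬ (σ : Set L) ⊆ Y0 ∧ σ.card = j) → ∃ t : F, t +ᵥ σ ≠ σ := by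
    intro j σ h
    by_contra hcon
    push Not at hcon
    apply h.2.1
    intro y hy
    refine ⟨h.1.2 hy, fun t => fixed_of_comparable p hpp.pos _ (htrp t) y ?_⟩
    apply h.1.1 _ _ y hy
    rw [← hcon t, hv]
    exact mem_image_of_mem _ hy
  have S : Setup (theta F (Finset L)) (p - 1) Y Y0 :=
    { nil := by rw [Nat.sub_add_cancel hpp.one_le]; exact theta_pow p
      mpos := by have := hpp.one_lt; omega
      cb := by
        intro f
        rw [hθ, hθ, map_sum]
        simp only [map_smul, bd_pull]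
      cw := by
        intro c f
        rw [hθ, hθ, map_sum]
        simp only [map_smul, pull_wt]
      stab := by
        intro f hf
        rw [hθ]
        exact sum_mem fun t _ => Submodule.smul_mem _ _ (pull_mem F _ (fun y => (hYt t y).1) hf)
      sub := fun y hy => hy.1
      kill := by
        intro f hf
        have : ∀ t, pull F (tr t) f = f := by
          intro t
          funext σ
          rw [pull_apply]
          by_cases h : (σ : Set L) ⊆ Y0
          · congr 1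
            rw [image_congr (g := id) (fun y hy => (h hy).2 t), image_id]
          · rw [hf σ (fun h2 => h h2.2), hf _ (fun h2 => h ((himg Y0 _ (hY0t t) σ).1 h2.2))]
        rw [hθ]
        simp only [this]
        rw [← sum_smul, sum_pow_card_sub_two, zero_smul]
      cind := by
        intro j f
        funext σ
        rw [mulf_apply, theta_apply, theta_apply, mul_sum]
        refine sum_congr rfl fun t _ => ?_
        rw [mulf_apply]
        simp only [hinv j t σ]
        ring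
      ex1 := fun j => (theta_exact p (fun t σ h => (hinv j t σ).1 h) (hnofix j)).1
      ex2 := fun j => (theta_exact p (fun t σ h => (hinv j t σ).1 h) (hnofix j)).2 }
  have hY0e : ∀ y, e y ∈ Y0 ↔ y ∈ Y0 := by
    intro y
    constructor
    · rintro ⟨h1, h2⟩
      refine ⟨(hYe y).1 h1, fun t => e.injective ?_⟩
      rw [← RelIso.mul_apply, he, RelIso.mul_apply, h2]
    · rintro ⟨h1, h2⟩
      refine ⟨(hYe y).2 h1, fun t => ?_⟩
      have := he (s⁻¹ * t)
      rw [← mul_assoc, Units.mul_inv, one_mul] at this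
      rw [← RelIso.mul_apply, ← this, RelIso.mul_apply, h2]
  have hq := Fintype.one_lt_card (α := F)
  have hθe : ∀ f, theta F (Finset L) (pull F e f) =
      (s : F) • pull F e (theta F (Finset L) f) := by
    intro f
    rw [hθ, hθ, map_sum, smul_sum]
    refine Fintype.sum_equiv (Equiv.mulLeft₀ (s : F) s.ne_zero) _ _ fun t => ?_
    rw [pull_pull, he, map_smul, pull_pull, smul_smul, Equiv.mulLeft₀_apply]
    congr 1
    rw [mul_pow, ← mul_assoc, ← pow_succ']
    have : Fintype.card F - 2 + 1 = Fintype.card F - 1 := by omega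
    rw [this, FiniteField.pow_card_sub_one_eq_one _ s.ne_zero, one_mul]
  obtain ⟨n', w, hw, hwd, hwb, hw0, hpow⟩ := S.main hz e hYe hY0e s s.ne_zero hθe
  have hle : n' ≤ n := by
    by_contra hlt
    apply hw0
    funext σ
    by_cases h : σ.card = n'
    · apply hw
      intro h2
      have := hz.top σ h2.1 (h2.2.trans S.sub)
      omega
    · exact hwd σ h
  rcases hle.lt_or_eq with hlt | heq
  · left
    rw [Nat.sub_add_cancel hpp.one_le] at hpow
    have h1 : ((s : F) ^ (n - n')) ^ p = 1 := by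
      have h2 : ((s : F) ^ p) ^ n = ((s : F) ^ p) ^ n' * ((s : F) ^ p) ^ (n - n') := by
        rw [← pow_add]; congr 1; omega
      rw [← hpow] at h2
      have h3 := mul_left_cancel₀ (pow_ne_zero n' (pow_ne_zero p s.ne_zero))
        ((mul_one _).trans h2)
      rw [← pow_mul, mul_comm, pow_mul]
      exact h3.symm
    have h4 : (s : F) ^ (n - n') = 1 := by
      apply frobenius_inj F p
      rw [frobenius_def, h1, map_one]
    have h5 : s ^ (n - n') = 1 := by
      ext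
      simpa using h4
    have h6 := Nat.le_of_dvd (by omega) (orderOf_dvd_of_pow_eq_one h5)
    omega
  · right
    exact ⟨w, hw, heq ▸ hwd, hwb, hw0⟩

end

end Pool.Agent.MP_23c9d7_co

end

-- part MP_23c9d7_co.Faces
section

/-! Combinatorial model of the face lattice of a polytope and its homology. -/

namespace Pool.Agent.MP_23c9d7_co

open Classical Finset

noncomputable section

variable {V : Type*} [Fintype V] (𝒜 : Submodule ℝ (V → ℝ))

/-- zero sets of nonnegative functions -/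
def IsFace (S : Set V) : Prop := ∃ f ∈ 𝒜, (∀ v, 0 ≤ f v) ∧ ∀ v, v ∈ S ↔ f v = 0

abbrev Lat : Type _ := {S : Set V // IsFace 𝒜 S}

instance : Fintype (Lat 𝒜) := Fintype.ofFinite _

variable {𝒜}

lemma exists_big (P : V → Prop) (a b : V → ℝ) (h : ∀ v, P v → 0 < a v) :
    ∃ M : ℝ, 0 < M ∧ ∀ v, P v → b v < M * a v := by
  have h0 : 0 ≤ ∑ v, |b v / a v| := sum_nonneg fun v _ => abs_nonneg _
  refine ⟨∑ v, |b v / a v| + 1, by linarith, fun v hv => ?_⟩
  have h1 : |b v / a v| ≤ ∑ v, |b v / a v| :=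
    single_le_sum (f := fun v => |b v / a v|) (fun v _ => abs_nonneg _) (mem_univ v)
  have h2 : b v / a v < ∑ v, |b v / a v| + 1 := by linarith [le_abs_self (b v / a v)]
  exact (div_lt_iff₀ (h v hv)).1 h2

lemma face_face (G : Lat 𝒜) {f : V → ℝ} (hf : f ∈ 𝒜) (h : ∀ v ∈ G.1, 0 ≤ f v) :
    IsFace 𝒜 {v | v ∈ G.1 ∧ f v = 0} := by
  obtain ⟨g, hg, hg0, hgz⟩ := G.2
  have hpos : ∀ v, v ∉ G.1 → 0 < g v := fun v hv =>
    lt_of_le_of_ne (hg0 v) (fun h => hv ((hgz v).2 h.symm))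
  obtain ⟨M, _, hM⟩ := exists_big (fun v => v ∉ G.1) g (fun v => - f v) hpos
  refine ⟨f + M • g, add_mem hf (Submodule.smul_mem _ _ hg), fun v => ?_, fun v => ?_⟩
  · by_cases hv : v ∈ G.1
    · simp [(hgz v).1 hv, h v hv]
    · have := hM v hv
      simp only [Pi.add_apply, Pi.smul_apply, smul_eq_mul]
      linarith
  · by_cases hv : v ∈ G.1
    · simp [(hgz v).1 hv, hv]
    · have := hM v hv
      simp only [Pi.add_apply, Pi.smul_apply, smul_eq_mul, Set.mem_ofPred_eq, hv, false_and,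
        false_iff]
      linarith

omit [Fintype V] in
lemma exists_expose (A : Lat 𝒜) :
    ∃ ψ ∈ 𝒜, (∀ v ∈ A.1, ψ v = 0) ∧ (∀ v, v ∉ A.1 → 0 < ψ v) ∧ ∀ v, 0 ≤ ψ v := by
  obtain ⟨g, hg, hg0, hgz⟩ := A.2
  exact ⟨g, hg, fun v hv => (hgz v).1 hv,
    fun v hv => lt_of_le_of_ne (hg0 v) (fun h => hv ((hgz v).2 h.symm)), hg0⟩

omit [Fintype V] in
lemma lat_lt {A B : Lat 𝒜} (h : A.1 ⊆ B.1) {v : V} (hv : v ∈ B.1) (hv' : v ∉ A.1) : A < B :=
  lt_of_le_of_ne h (by rintro rfl; exact hv' hv)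

lemma exists_of_lat_lt {A B : Lat 𝒜} (h : A < B) : ∃ v ∈ B.1, v ∉ A.1 := by
  by_contra hcon
  push Not at hcon
  exact not_le_of_gt h hcon

lemma atom_dich {A G₀ G : Lat 𝒜} (h : A ⋖ G₀) (hG : A ≤ G) :
    G₀ ≤ G ∨ ∀ v ∈ G.1, v ∈ G₀.1 → v ∈ A.1 := by
  obtain ⟨ψ, hψ, h1, h2, h3⟩ := exists_expose G
  let H : Lat 𝒜 := ⟨_, face_face G₀ hψ (fun v _ => h3 v)⟩
  have hAH : A ≤ H := fun v hv => ⟨h.le hv, h1 v (hG hv)⟩
  have hHG : H ≤ G₀ := fun v hv => hv.1
  rcases h.eq_or_eq hAH hHG with h4 | h4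
  · right
    intro v hv hv0
    rw [← h4]
    exact ⟨hv0, h1 v hv⟩
  · left
    intro v hv
    rw [← h4] at hv
    by_contra hcon
    exact (h2 v hcon).ne' hv.2

/-- faces between `A` and `B` on which `φ` is negative -/
def N (A B : Lat 𝒜) (φ : V → ℝ) : Set (Lat 𝒜) :=
  {G | A < G ∧ G ≤ B ∧ ∀ v ∈ G.1, v ∉ A.1 → φ v < 0}

lemma N_nonempty {A B : Lat 𝒜} (hAB : A ≤ B) {φ : V → ℝ} (hφ : φ ∈ 𝒜)
    (hA : ∀ v ∈ A.1, φ v = 0) {v : V} (hv : v ∈ B.1) (hv' : v ∉ A.1) (hneg : φ v < 0) :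
    (N A B φ).Nonempty := by
  obtain ⟨ψ, hψ, h1, h2, h3⟩ := exists_expose A
  obtain ⟨x, hx, hmin⟩ := Set.exists_min_image {v | v ∈ B.1 ∧ v ∉ A.1} (fun v => φ v / ψ v)
    (Set.toFinite _) ⟨v, hv, hv'⟩
  set c := φ x / ψ x with hc
  have hcneg : c < 0 := lt_of_le_of_lt (hmin v ⟨hv, hv'⟩) (div_neg_of_neg_of_pos hneg (h2 v hv'))
  have hf : φ - c • ψ ∈ 𝒜 := sub_mem hφ (Submodule.smul_mem _ _ hψ)
  have hf0 : ∀ w ∈ B.1, 0 ≤ (φ - c • ψ) w := by
    intro w hw
    simp only [Pi.sub_apply, Pi.smul_apply, smul_eq_mul]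
    by_cases hwA : w ∈ A.1
    · simp [hA w hwA, h1 w hwA]
    · have := (le_div_iff₀ (h2 w hwA)).1 (hmin w ⟨hw, hwA⟩)
      linarith
  refine ⟨⟨_, face_face B hf hf0⟩, lat_lt (v := x) ?_ ⟨hx.1, ?_⟩ hx.2, fun w hw => hw.1, ?_⟩
  · intro w hw
    exact ⟨hAB hw, by simp [hA w hw, h1 w hw]⟩
  · simp only [Pi.sub_apply, Pi.smul_apply, smul_eq_mul, hc]
    rw [div_mul_cancel₀ _ (h2 x hx.2).ne', sub_self]
  · intro w hw hwA
    have h4 := hw.2
    simp only [Pi.sub_apply, Pi.smul_apply, smul_eq_mul] at h4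
    have := mul_neg_of_neg_of_pos hcneg (h2 w hwA)
    linarith

lemma sweep {A B : Lat 𝒜} {φ : V → ℝ} (hφ : φ ∈ 𝒜) (hA : ∀ v ∈ A.1, φ v = 0)
    (hne : (N A B φ).Nonempty) :
    ∃ G₀ ∈ N A B φ, A ⋖ G₀ ∧ ∃ φ' ∈ 𝒜, (∀ v ∈ G₀.1, φ' v = 0) ∧
      (∀ v, v ∉ A.1 → φ' v < 0 → φ v < 0) ∧
      ∀ G ∈ N A B φ, ∀ v ∈ G.1, v ∉ G₀.1 → φ' v < 0 := by
  obtain ⟨ψ, hψ, h1, h2, h3⟩ := exists_expose A
  have hR : {v | v ∉ A.1 ∧ ∃ G ∈ N A B φ, v ∈ G.1}.Nonempty := by
    obtain ⟨G, hG⟩ := hne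
    obtain ⟨v, hv, hv'⟩ := exists_of_lat_lt hG.1
    exact ⟨v, hv', G, hG, hv⟩
  obtain ⟨x, ⟨hxA, G, hG, hxG⟩, hmax⟩ := Set.exists_max_image _ (fun v => φ v / ψ v)
    (Set.toFinite _) hR
  set c := φ x / ψ x with hc
  have hcneg : c < 0 := div_neg_of_neg_of_pos (hG.2.2 x hxG hxA) (h2 x hxA)
  have hf : c • ψ - φ ∈ 𝒜 := sub_mem (Submodule.smul_mem _ _ hψ) hφ
  have hf0 : ∀ H ∈ N A B φ, ∀ w ∈ H.1, 0 ≤ (c • ψ - φ) w := by
    intro H hH w hw
    simp only [Pi.sub_apply, Pi.smul_apply, smul_eq_mul]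
    by_cases hwA : w ∈ A.1
    · simp [hA w hwA, h1 w hwA]
    · have := (div_le_iff₀ (h2 w hwA)).1 (hmax w ⟨hwA, H, hH, hw⟩)
      linarith
  let G₁ : Lat 𝒜 := ⟨_, face_face G hf (hf0 G hG)⟩
  have hAG₁ : A < G₁ := by
    refine lat_lt (v := x) ?_ ⟨hxG, ?_⟩ hxA
    · intro w hw
      exact ⟨hG.1.le hw, by simp [hA w hw, h1 w hw]⟩
    · simp only [Pi.sub_apply, Pi.smul_apply, smul_eq_mul, hc]
      rw [div_mul_cancel₀ _ (h2 x hxA).ne', sub_self]
  obtain ⟨G₀, hG₀, hG₀1⟩ := exists_covBy_le_of_lt hAG₁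
  have hG₀G : G₀ ≤ G := fun w hw => (hG₀1 hw).1
  obtain ⟨η, hη, k1, k2, k3⟩ := exists_expose G₀
  obtain ⟨M, hM0, hM⟩ := exists_big (fun v => v ∉ A.1 ∧ 0 ≤ φ v) (fun v => φ v - c * ψ v) η (by
    rintro v ⟨hv1, hv2⟩
    have := mul_neg_of_neg_of_pos hcneg (h2 v hv1)
    linarith)
  refine ⟨G₀, ⟨hG₀.lt, hG₀G.trans hG.2.1, fun v hv hv' => hG.2.2 v (hG₀G hv) hv'⟩, hG₀,
    - (M • (c • ψ - φ)) - η, sub_mem (neg_mem (Submodule.smul_mem _ _ hf)) hη, ?_, ?_, ?_⟩
  · intro v hv
    have := (hG₀1 hv).2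
    rw [Pi.sub_apply, Pi.neg_apply, Pi.smul_apply, this, k1 v hv]
    simp
  · intro v hv hneg
    by_contra hcon
    have := hM v ⟨hv, not_lt.1 hcon⟩
    simp only [Pi.sub_apply, Pi.neg_apply, Pi.smul_apply, smul_eq_mul] at hneg
    linarith
  · intro H hH v hv hv'
    have a1 := mul_nonneg hM0.le (hf0 H hH v hv)
    have a2 := k2 v hv'
    rw [Pi.sub_apply, Pi.neg_apply, Pi.smul_apply, smul_eq_mul]
    linarith

variable (F : Type*) [Field F]

theorem acycN (n : ℕ) : ∀ (A B : Lat 𝒜) (φ : V → ℝ), (N A B φ).ncard = n → φ ∈ 𝒜 →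
    (∀ v ∈ A.1, φ v = 0) → (N A B φ).Nonempty → Acyc F (N A B φ) := by
  induction n using Nat.strong_induction_on with
  | _ n ih =>
  intro A B φ hn hφ hA hne
  obtain ⟨G₀, hG₀, hcov, φ', hφ', h1, h2, h3⟩ := sweep hφ hA hne
  have hA' : ∀ v ∈ A.1, φ' v = 0 := fun v hv => h1 v (hcov.le hv)
  have ih' : ∀ (A' B' : Lat 𝒜), N A' B' φ' ⊆ N A B φ \ {G₀} → (∀ v ∈ A'.1, φ' v = 0) →
      (N A' B' φ').Nonempty → Acyc F (N A' B' φ') := by
    intro A' B' hs h0 hne'
    refine ih _ ?_ A' B' φ' rfl hφ' h0 hne'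
    rw [← hn]
    apply Set.ncard_lt_ncard _ (Set.toFinite _)
    exact ⟨fun a ha => (hs ha).1, fun h => (hs (h hG₀)).2 rfl⟩
  obtain ⟨x₀, hx₀, hx₀'⟩ := exists_of_lat_lt hcov.lt
  have hsub : ∀ B' ≤ B, N A B' φ' ⊆ N A B φ \ {G₀} := by
    intro B' hB' G hG
    refine ⟨⟨hG.1, hG.2.1.trans hB', fun v hv hv' => h2 v hv' (hG.2.2 v hv hv')⟩, ?_⟩
    rintro rfl
    exact (hG.2.2 x₀ hx₀ hx₀').ne (h1 x₀ hx₀)
  have hlk : Lk (N A B φ) G₀ = N G₀ B φ' := by
    ext G
    constructor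
    · rintro ⟨hG, hne', hle | hle⟩
      · exact absurd (lt_of_le_of_ne hle hne') (hcov.2 hG.1)
      · exact ⟨lt_of_le_of_ne hle hne'.symm, hG.2.1, h3 G hG⟩
    · rintro ⟨a1, a2, a3⟩
      refine ⟨⟨hcov.lt.trans a1, a2, fun v hv hv' => ?_⟩, a1.ne', Or.inr a1.le⟩
      by_cases h : v ∈ G₀.1
      · exact hG₀.2.2 v h hv'
      · exact h2 v hv' (a3 v hv h)
  have hother : ∀ G ∈ N A B φ, G ∉ N A B φ' → G₀ ≤ G := by
    intro G hG hG'
    rcases atom_dich hcov hG.1.le with h | h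
    · exact h
    · exact absurd ⟨hG.1, hG.2.1, fun v hv hv' => h3 G hG v hv (fun h4 => hv' (h v hv h4))⟩ hG'
  by_cases hup : (N G₀ B φ').Nonempty
  · have r1 : Rel F (N A B φ \ {G₀}) (N A B φ) := by
      apply rel_of_link F hG₀
      rw [hlk]
      refine ih' G₀ B ?_ h1 hup
      rw [← hlk]
      exact fun a ha => ⟨ha.1, ha.2.1⟩
    have a1 : Acyc F (N A B φ') := by
      refine ih' A B (hsub B le_rfl) hA' ?_
      obtain ⟨G, hG⟩ := hup
      obtain ⟨v, hv, hv'⟩ := exists_of_lat_lt hG.1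
      exact N_nonempty (hcov.le.trans hG₀.2.1) hφ' hA' (hG.2.1 hv) (fun h => hv' (hcov.le h))
        (hG.2.2 v hv hv')
    have r2 : Rel F (N A B φ') (N A B φ \ {G₀}) := by
      refine quillen F _ _ _ rfl (hsub B le_rfl) ?_ ?_
      · intro a ha b hb hab
        exact ⟨ha.1.1, ha.1.2.1, fun v hv hv' => hb.2.2 v (hab hv) hv'⟩
      · intro G hG hG'
        have hlt : G₀ < G := lt_of_le_of_ne (hother G hG.1 hG') (fun h => hG.2 h.symm)
        have : {a | a ∈ N A B φ' ∧ a < G} = N A G φ' := by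
          ext a
          constructor
          · rintro ⟨b1, b2⟩
            exact ⟨b1.1, b2.le, b1.2.2⟩
          · intro b
            have b1 : a ∈ N A B φ' := ⟨b.1, b.2.1.trans hG.1.2.1, b.2.2⟩
            exact ⟨b1, lt_of_le_of_ne b.2.1 (by rintro rfl; exact hG' b1)⟩
        rw [this]
        refine ih' A G (hsub G hG.1.2.1) hA' ?_
        obtain ⟨v, hv, hv'⟩ := exists_of_lat_lt hlt
        exact N_nonempty hG.1.1.le hφ' hA' hv (fun h => hv' (hcov.le h)) (h3 G hG.1 v hv hv')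
    exact acyc_of_rel F Set.sdiff_subset r1 (acyc_of_rel F (hsub B le_rfl) r2 a1)
  · have : N A B φ = {G₀} := by
      apply Set.eq_singleton_iff_unique_mem.2 ⟨hG₀, ?_⟩
      intro G hG
      by_contra hne'
      apply hup
      have : ∃ v ∈ G.1, v ∉ G₀.1 := by
        by_contra hcon
        push Not at hcon
        exact hcov.2 hG.1 (lt_of_le_of_ne hcon hne')
      obtain ⟨v, hv, hv'⟩ := this
      exact N_nonempty hG₀.2.1 hφ' h1 (hG.2.1 hv) hv' (h3 G hG v hv hv')
    rw [this]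
    exact acyc_singleton F G₀

theorem acyc_remove {A B x : Lat 𝒜} (hcov : A ⋖ x) (hx : x < B) :
    Acyc F (Set.Ioo A B \ {x}) := by
  obtain ⟨η, hη, k1, k2, k3⟩ := exists_expose x
  have hA : ∀ v ∈ A.1, (-η) v = 0 := fun v hv => by simp [k1 v (hcov.le hv)]
  obtain ⟨x₀, hx₀, hx₀'⟩ := exists_of_lat_lt hcov.lt
  have hnot : ∀ B' G, x ≤ G → G ∉ N A B' (-η) := by
    intro B' G hG h
    have := h.2.2 x₀ (hG hx₀) hx₀'
    simp [k1 x₀ hx₀] at this
  have hne : ∀ G, x < G → Acyc F (N A G (-η)) := by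
    intro G hG
    obtain ⟨v, hv, hv'⟩ := exists_of_lat_lt hG
    exact acycN F _ A G _ rfl (neg_mem hη) hA (N_nonempty (hcov.le.trans hG.le) (neg_mem hη) hA hv
      (fun h => hv' (hcov.le h)) (by simpa using k2 v hv'))
  have hsub : N A B (-η) ⊆ Set.Ioo A B \ {x} := by
    intro G hG
    refine ⟨⟨hG.1, lt_of_le_of_ne hG.2.1 ?_⟩, ?_⟩
    · rintro rfl
      exact hnot _ _ hx.le hG
    · rintro rfl
      exact hnot _ _ le_rfl hG
  refine acyc_of_rel F hsub (quillen F _ _ _ rfl hsub ?_ ?_) (hne B hx)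
  · intro a ha b hb hab
    exact ⟨ha.1.1, ha.1.2.le, fun v hv hv' => hb.2.2 v (hab hv) hv'⟩
  · intro G hG hG'
    have hle : x ≤ G := by
      rcases atom_dich hcov hG.1.1.le with h | h
      · exact h
      · exact absurd ⟨hG.1.1, hG.1.2.le, fun v hv hv' => by
          simpa using k2 v (fun h4 => hv' (h v hv h4))⟩ hG'
    have hlt : x < G := lt_of_le_of_ne hle (fun h => hG.2 h.symm)
    have : {a | a ∈ N A B (-η) ∧ a < G} = N A G (-η) := by
      ext a
      constructor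
      · rintro ⟨b1, b2⟩
        exact ⟨b1.1, b2.le, b1.2.2⟩
      · intro b
        have b1 : a ∈ N A B (-η) := ⟨b.1, b.2.1.trans hG.1.2.le, b.2.2⟩
        exact ⟨b1, lt_of_le_of_ne b.2.1 (by rintro rfl; exact hG' b1)⟩
    rw [this]
    exact hne G hlt

theorem sphere (k : ℕ) : ∀ (A B : Lat 𝒜), (Set.Ioo A B).ncard = k →
    ∃ n z, Sph F (Set.Ioo A B) n z := by
  induction k using Nat.strong_induction_on with
  | _ k ih =>
  intro A B hk
  obtain ⟨σ, hσ, hmax⟩ := exists_max_image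
    (univ.filter fun σ : Finset (Lat 𝒜) => IsCh σ ∧ (σ : Set (Lat 𝒜)) ⊆ Set.Ioo A B) card
    ⟨∅, by simp [IsCh]⟩
  simp only [mem_filter, mem_univ, true_and] at hσ hmax
  rcases σ.eq_empty_or_nonempty with h0 | hne
  · have : Set.Ioo A B = ∅ := by
      by_contra h
      obtain ⟨x, hx⟩ := Set.nonempty_iff_ne_empty.2 h
      have := hmax {x} ⟨by simp [IsCh], by simpa using hx⟩
      simp [h0] at this
    rw [this]
    exact ⟨0, _, sph_empty F⟩
  · obtain ⟨x, hx⟩ := σ.exists_minimal hne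
    have hxσ : x ∈ σ := hx.1
    have hxmin : ∀ y ∈ σ, x ≤ y := by
      intro y hy
      rcases hσ.1 x hxσ y hy with h | h
      · exact h
      · exact hx.2 hy h
    have hxI : x ∈ Set.Ioo A B := hσ.2 hxσ
    have hcov : A ⋖ x := by
      refine ⟨hxI.1, fun y hy hyx => ?_⟩
      have hy' : y ∉ σ := fun h => not_le_of_gt hyx (hxmin y h)
      have := hmax (insert y σ) ⟨?_, ?_⟩
      · rw [card_insert_of_notMem hy'] at this
        omega
      · intro a ha b hb
        rcases mem_insert.1 ha with rfl | ha'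
        · rcases mem_insert.1 hb with rfl | hb'
          · exact Or.inl le_rfl
          · exact Or.inl (hyx.le.trans (hxmin b hb'))
        · rcases mem_insert.1 hb with rfl | hb'
          · exact Or.inr (hyx.le.trans (hxmin a ha'))
          · exact hσ.1 a ha' b hb'
      · rw [coe_insert]
        exact Set.insert_subset ⟨hy, hyx.trans hxI.2⟩ hσ.2
    have hlk : Lk (Set.Ioo A B) x = Set.Ioo x B := by
      ext G
      constructor
      · rintro ⟨hG, hne', hle | hle⟩
        · exact absurd (lt_of_le_of_ne hle hne') (hcov.2 hG.1)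
        · exact ⟨lt_of_le_of_ne hle hne'.symm, hG.2⟩
      · rintro ⟨a1, a2⟩
        exact ⟨⟨hcov.lt.trans a1, a2⟩, a1.ne', Or.inr a1.le⟩
    obtain ⟨n, z, hz⟩ := ih (Set.Ioo x B).ncard (by
      rw [← hk]
      apply Set.ncard_lt_ncard _ (Set.toFinite _)
      exact ⟨fun a ha => ⟨hcov.lt.trans ha.1, ha.2⟩, fun h => lt_irrefl _ (h hxI).1⟩) x B rfl
    refine ⟨n + 1, sph_step F hxI (acyc_remove F hcov hxI.2) (hlk ▸ hz) ?_⟩
    intro τ h1 h2
    have h3 := hmax τ ⟨h1, h2⟩
    have h4 := hz.top (σ.erase x) (hσ.1.mono (erase_subset _ _)) (by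
      intro y hy
      have hy' := mem_erase.1 (mem_coe.1 hy)
      exact ⟨lt_of_le_of_ne (hxmin y hy'.2) hy'.1.symm, (hσ.2 hy'.2).2⟩)
    have h5 := card_erase_add_one hxσ
    omega

lemma le_of_atoms {A G G' : Lat 𝒜} (hA : A.1 = ∅) (h : ∀ a, A ⋖ a → a ≤ G → a ≤ G') :
    G ≤ G' := by
  intro v hv
  by_contra hv'
  obtain ⟨η, hη, k1, k2, k3⟩ := exists_expose G'
  have hAe : ∀ w, w ∉ A.1 := by intro w; rw [hA]; exact Set.notMem_empty w
  obtain ⟨H, hH⟩ := N_nonempty (A := A) (B := G) (fun w hw => absurd hw (hAe w)) (neg_mem hη)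
    (fun w hw => absurd hw (hAe w)) hv (hAe v) (by simpa using k2 v hv')
  obtain ⟨a, ha, ha'⟩ := exists_covBy_le_of_lt hH.1
  obtain ⟨w, hw, hw'⟩ := exists_of_lat_lt ha.lt
  have := hH.2.2 w (ha' hw) hw'
  simp [k1 w (h a ha (ha'.trans hH.2.1) hw)] at this

lemma chain_bound {A B : Lat 𝒜} (σ : Finset (Lat 𝒜)) (h1 : IsCh σ)
    (h2 : (σ : Set (Lat 𝒜)) ⊆ Set.Ioo A B) : σ.card ≤ Module.finrank ℝ 𝒜 - 1 := by
  let K : Lat 𝒜 → Submodule ℝ (V → ℝ) := fun G => 𝒜 ⊓ sup ℝ (fun v => v ∉ G.1)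
  have hK : ∀ G G', G < G' → Module.finrank ℝ (K G') < Module.finrank ℝ (K G) := by
    intro G G' h
    apply Submodule.finrank_lt_finrank_of_lt
    obtain ⟨η, hη, k1, k2, k3⟩ := exists_expose G
    obtain ⟨v, hv, hv'⟩ := exists_of_lat_lt h
    refine lt_of_le_of_ne (inf_le_inf_left _ (sup_mono ℝ fun w hw h' => hw (h.le h'))) ?_
    intro heq
    have : η ∈ K G := ⟨hη, fun w hw => k1 w (not_not.1 hw)⟩
    rw [← heq] at this
    exact (k2 v hv').ne' (this.2 v (not_not.2 hv))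
  have hle : Module.finrank ℝ (K A) ≤ Module.finrank ℝ 𝒜 := Submodule.finrank_mono inf_le_left
  have := card_le_card_of_injOn (s := σ) (t := Ioo 0 (Module.finrank ℝ 𝒜))
    (fun G => Module.finrank ℝ (K G)) (by
      intro G hG
      have a1 := hK _ _ (h2 hG).1
      have a2 := hK _ _ (h2 hG).2
      simp only [coe_Ioo, Set.mem_Ioo]
      omega) (by
      intro G hG G' hG' heq
      by_contra hne
      rcases h1 G hG G' hG' with h | h
      · exact (hK _ _ (lt_of_le_of_ne h hne)).ne' heq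
      · exact (hK _ _ (lt_of_le_of_ne h (Ne.symm hne))).ne heq)
  simpa using this

/-- The lower bound in the combinatorial model. -/
theorem lower_model [Fintype F] (hone : (fun _ => (1 : ℝ)) ∈ 𝒜) (tr : F → Lat 𝒜 ≃o Lat 𝒜)
    (h0 : tr 0 = 1) (hadd : ∀ s t, tr (s + t) = tr s * tr t) (s : Fˣ)
    (hs : orderOf s = Fintype.card F - 1) (e : Lat 𝒜 ≃o Lat 𝒜)
    (he : ∀ t, e * tr t = tr (s * t) * e) (hfaith : ∃ t, tr t ≠ 1) :
    Fintype.card F - 1 ≤ Module.finrank ℝ 𝒜 - 1 := by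
  let A : Lat 𝒜 := ⟨∅, _, hone, fun _ => zero_le_one, by simp⟩
  let B : Lat 𝒜 := ⟨Set.univ, 0, zero_mem _, fun _ => le_rfl, by simp⟩
  have hA : ∀ G, A ≤ G := fun G => Set.empty_subset _
  have hB : ∀ G, G ≤ B := fun G => Set.subset_univ _
  have fA : ∀ g : Lat 𝒜 ≃o Lat 𝒜, g A = A := fun g =>
    le_antisymm (by simpa using g.monotone (hA (g.symm A))) (hA _)
  have fB : ∀ g : Lat 𝒜 ≃o Lat 𝒜, g B = B := fun g =>
    le_antisymm (hB _) (by simpa using g.monotone (hB (g.symm B)))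
  have hI : ∀ (g : Lat 𝒜 ≃o Lat 𝒜) y, g y ∈ Set.Ioo A B ↔ y ∈ Set.Ioo A B := by
    intro g y
    conv_lhs => rw [← fA g, ← fB g]
    simp
  obtain ⟨n, z, hz⟩ := sphere F _ A B rfl
  have hn : n ≤ Module.finrank ℝ 𝒜 - 1 := by
    obtain ⟨σ, hσ⟩ := Function.ne_iff.1 hz.ne
    have h1 : IsCh σ ∧ (σ : Set (Lat 𝒜)) ⊆ Set.Ioo A B := by
      by_contra h; exact hσ (hz.mem σ h)
    have h2 : σ.card = n := by
      by_contra h; exact hσ (hz.deg σ h)
    rw [← h2]
    exact chain_bound σ h1.1 h1.2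
  rcases smith tr h0 hadd s hs e he (fun t => hI (tr t)) (hI e) hz with h | ⟨w, hw, hwd, hwb, hw0⟩
  · exact h.trans hn
  · exfalso
    have hatom : ∀ t a, A ⋖ a → tr t a = a := by
      intro t a ha
      by_contra hne
      have haB : a < B := lt_of_le_of_ne (hB a) (by rintro rfl; exact hne (fB _))
      have hsub : {y | y ∈ Set.Ioo A B ∧ ∀ t, tr t y = y} ⊆ Set.Ioo A B \ {a} := by
        rintro y ⟨hy, hy2⟩
        exact ⟨hy, by rintro rfl; exact hne (hy2 t)⟩
      obtain ⟨u, hu, hu2⟩ := acyc_remove F ha haB w (C_mono F hsub hw) hwb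
      apply hw0
      rw [← pr_eq_self F hwd, ← hu2, pr_bd_top hz.top (C_mono F Set.sdiff_subset hu)]
    have hle : ∀ t G, G ≤ tr t G := by
      intro t G
      refine le_of_atoms (A := A) rfl fun a ha hle => ?_
      rw [← hatom t a ha]
      exact (tr t).monotone hle
    obtain ⟨t, ht⟩ := hfaith
    apply ht
    refine RelIso.ext fun G => le_antisymm ?_ (hle t G)
    have := hle (-t) (tr t G)
    rwa [← RelIso.mul_apply, ← hadd, neg_add_cancel, h0] at this

end

end Pool.Agent.MP_23c9d7_co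

end
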