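import Pool.Agent.MP_23c9d7_co.Defs
import Pool.Agent.MP_23c9d7_co.Mg.Faces

-- part MP_23c9d7_co.Geom
section

/-! The face lattice of a polytope and its combinatorial model; the lower bound. -/

namespace Pool.Agent.MP_23c9d7_co

open Classical Finset

noncomputable section

variable {V : Type*} {d : ℕ}

/-- affine functions restricted to the points `x v` -/
def affMap (x : V → EuclideanSpace ℝ (Fin d)) :
    (ℝ × StrongDual ℝ (EuclideanSpace ℝ (Fin d))) →ₗ[ℝ] (V → ℝ) where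
  toFun p v := p.1 + p.2 (x v)
  map_add' p q := by funext v; simp; ring
  map_smul' c p := by funext v; simp; ring

def affSp (x : V → EuclideanSpace ℝ (Fin d)) : Submodule ℝ (V → ℝ) := LinearMap.range (affMap x)

lemma one_mem_affSp (x : V → EuclideanSpace ℝ (Fin d)) : (fun _ => (1 : ℝ)) ∈ affSp x :=
  ⟨(1, 0), by funext v; simp [affMap]⟩

lemma finrank_affSp (x : V → EuclideanSpace ℝ (Fin d)) : Module.finrank ℝ (affSp x) ≤ d + 1 := by
  refine (LinearMap.finrank_range_le _).trans ?_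
  rw [Module.finrank_prod, Module.finrank_self]
  have : Module.finrank ℝ (StrongDual ℝ (EuclideanSpace ℝ (Fin d))) = d := by
    rw [← (LinearMap.toContinuousLinearMap (𝕜 := ℝ) (E := EuclideanSpace ℝ (Fin d))
      (F' := ℝ)).finrank_eq, Module.finrank_linearMap]
    simp
  omega

lemma hull_zero (x : V → EuclideanSpace ℝ (Fin d)) (c : ℝ)
    (l : StrongDual ℝ (EuclideanSpace ℝ (Fin d))) (h : ∀ v, 0 ≤ c + l (x v)) :
    ∀ y ∈ convexHull ℝ (Set.range x), 0 ≤ c + l y ∧
      (c + l y = 0 → y ∈ convexHull ℝ (x '' {v | c + l (x v) = 0})) := by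
  apply convexHull_min
  · rintro _ ⟨v, rfl⟩
    exact ⟨h v, fun h0 => subset_convexHull ℝ _ ⟨v, h0, rfl⟩⟩
  · intro y hy y' hy' a b ha hb hab
    have e : c + l (a • y + b • y') = a * (c + l y) + b * (c + l y') := by
      rw [map_add, map_smul, map_smul, smul_eq_mul, smul_eq_mul]
      linear_combination (-c) * hab
    have p1 := mul_nonneg ha hy.1
    have p2 := mul_nonneg hb hy'.1
    refine ⟨by rw [e]; linarith, fun h0 => ?_⟩
    rw [e] at h0
    have q1 : a * (c + l y) = 0 := by linarith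
    have q2 : b * (c + l y') = 0 := by linarith
    rcases mul_eq_zero.1 q1 with r1 | r1
    · have hb1 : b = 1 := by linarith
      rw [r1, hb1, zero_smul, one_smul, zero_add]
      exact hy'.2 (by simpa [hb1] using q2)
    · rcases mul_eq_zero.1 q2 with r2 | r2
      · have ha1 : a = 1 := by linarith
        rw [r2, ha1, zero_smul, one_smul, add_zero]
        exact hy.2 r1
      · exact convex_convexHull ℝ _ (hy.2 r1) (hy'.2 r2) ha hb hab

lemma exposed_descr (x : V → EuclideanSpace ℝ (Fin d)) {G : Set (EuclideanSpace ℝ (Fin d))}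
    (hG : IsExposed ℝ (convexHull ℝ (Set.range x)) G) :
    ∃ (c : ℝ) (l : StrongDual ℝ (EuclideanSpace ℝ (Fin d))), (∀ v, 0 ≤ c + l (x v)) ∧
      G = {y | y ∈ convexHull ℝ (Set.range x) ∧ c + l y = 0} := by
  rcases G.eq_empty_or_nonempty with h | h
  · exact ⟨1, 0, by simp, by simp [h]⟩
  · obtain ⟨l, hl⟩ := hG h
    obtain ⟨y₀, hy₀⟩ := h
    have hy₁ := hy₀
    rw [hl] at hy₁
    refine ⟨l y₀, -l, fun v => ?_, ?_⟩
    · have := hy₁.2 (x v) (subset_convexHull ℝ _ ⟨v, rfl⟩)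
      simp only [neg_apply]
      linarith
    · rw [hl]
      ext y
      simp only [Set.mem_ofPred_eq, neg_apply]
      constructor
      · rintro ⟨h1, h2⟩
        exact ⟨h1, by linarith [h2 y₀ hy₁.1, hy₁.2 y h1]⟩
      · rintro ⟨h1, h2⟩
        exact ⟨h1, fun y' hy' => by linarith [hy₁.2 y' hy']⟩

lemma exists_faceIso (x : V → EuclideanSpace ℝ (Fin d)) :
    Nonempty (Faces (convexHull ℝ (Set.range x)) ≃o Lat (affSp x)) := by
  have h1 : ∀ G : Faces (convexHull ℝ (Set.range x)), IsFace (affSp x) (x ⁻¹' G.1) := by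
    intro G
    obtain ⟨c, l, h, hG⟩ := exposed_descr x G.2
    refine ⟨affMap x (c, l), ⟨_, rfl⟩, h, fun v => ?_⟩
    rw [hG]
    exact ⟨fun h2 => h2.2, fun h2 => ⟨subset_convexHull ℝ _ ⟨v, rfl⟩, h2⟩⟩
  let f : Faces (convexHull ℝ (Set.range x)) → Lat (affSp x) := fun G => ⟨_, h1 G⟩
  have h2 : ∀ G G', f G ≤ f G' ↔ G ≤ G' := by
    intro G G'
    refine ⟨fun h y hy => ?_, fun h v hv => h hv⟩
    obtain ⟨c, l, hc, hG⟩ := exposed_descr x G.2
    have hy' := hy
    rw [hG] at hy'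
    refine convexHull_min ?_ (G'.2.convex (convex_convexHull ℝ _))
      ((hull_zero x c l hc y hy'.1).2 hy'.2)
    rintro _ ⟨v, hv, rfl⟩
    have : v ∈ (f G).1 := by
      show x v ∈ G.1
      rw [hG]
      exact ⟨subset_convexHull ℝ _ ⟨v, rfl⟩, hv⟩
    exact h this
  refine ⟨RelIso.ofSurjective (OrderEmbedding.ofMapLEIff f h2) ?_⟩
  rintro ⟨S, _, ⟨⟨c, l⟩, rfl⟩, h0, hS⟩
  refine ⟨⟨{y | y ∈ convexHull ℝ (Set.range x) ∧ c + l y = 0}, ?_⟩, ?_⟩
  · rintro ⟨y₀, hy₀⟩
    refine ⟨-l, ?_⟩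
    ext y
    simp only [Set.mem_ofPred_eq, neg_apply]
    constructor
    · rintro ⟨k1, k2⟩
      exact ⟨k1, fun y' hy' => by linarith [(hull_zero x c l h0 y' hy').1]⟩
    · rintro ⟨k1, k2⟩
      exact ⟨k1, by linarith [(hull_zero x c l h0 y k1).1, k2 y₀ hy₀.1, hy₀.2]⟩
  · apply Subtype.ext
    ext v
    rw [hS]
    exact ⟨fun h => h.2, fun h => ⟨subset_convexHull ℝ _ ⟨v, rfl⟩, h⟩⟩

/-- conjugation of automorphism groups -/
def autCongr {α β : Type*} [LE α] [LE β] (φ : α ≃o β) : (α ≃o α) ≃* (β ≃o β) where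
  toFun g := φ.symm.trans (g.trans φ)
  invFun g := φ.trans (g.trans φ.symm)
  left_inv g := by ext a; simp
  right_inv g := by ext a; simp
  map_mul' g h := by
    refine RelIso.ext fun a => ?_
    simp

theorem lower (F : Type*) [Field F] [Fintype F] {d : ℕ} (h : HasPolytope d (F ≃ᵃ[F] F)) :
    Fintype.card F - 1 ≤ d := by
  obtain ⟨s, ⟨Ψ⟩⟩ := h
  have hs : (s : Set (EuclideanSpace ℝ (Fin d))) = Set.range (Subtype.val : s → _) := by simp
  rw [hs] at Ψ
  obtain ⟨φ⟩ := exists_faceIso (Subtype.val : s → EuclideanSpace ℝ (Fin d))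
  let ρ := Ψ.symm.trans (autCongr φ)
  obtain ⟨g, hg⟩ := IsCyclic.exists_generator (α := Fˣ)
  have hord : orderOf g = Fintype.card F - 1 := by
    rw [orderOf_eq_card_of_forall_mem_zpowers hg, Nat.card_eq_fintype_card, Fintype.card_units]
  have := lower_model F (one_mem_affSp (Subtype.val : s → EuclideanSpace ℝ (Fin d)))
    (fun t => ρ (AffineEquiv.constVAdd F F t))
    (by rw [← map_one ρ]; congr 1; ext y; simp)
    (fun a b => by rw [← map_mul]; congr 1; ext y; simp) g hord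
    (ρ (LinearEquiv.smulOfUnit g).toAffineEquiv)
    (fun t => by
      rw [← map_mul, ← map_mul]; congr 1; ext y
      simp [LinearEquiv.smulOfUnit, Units.smul_def])
    ⟨1, fun h => by
      have h2 := congrArg (fun e : F ≃ᵃ[F] F => e 0) (ρ.map_eq_one_iff.1 h)
      simp at h2⟩
  have h3 := finrank_affSp (Subtype.val : s → EuclideanSpace ℝ (Fin d))
  omega

lemma realize {F : Type*} [Fintype F] (o : F) (hd : Fintype.card F - 1 = d)
    (I : V → (F → ℝ) →ₗ[ℝ] ℝ) (hI : ∀ v, 0 < I v 1) :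
    ∃ x : V → EuclideanSpace ℝ (Fin d), ∀ S : Set V, IsFace (affSp x) S ↔
      ∃ a : F → ℝ, (∀ v, 0 ≤ I v a) ∧ ∀ v, v ∈ S ↔ I v a = 0 := by
  have hc : Fintype.card {y : F // y ≠ o} = d := by
    rw [← hd, Fintype.card_subtype_compl, Fintype.card_subtype_eq]
  let e : Fin d ≃ {y : F // y ≠ o} := (Fintype.equivFinOfCardEq hc).symm
  let x : V → EuclideanSpace ℝ (Fin d) :=
    fun v => WithLp.toLp 2 (fun i => I v (Pi.single (e i).1 1) / I v 1)
  have hx : ∀ v (c : ℝ) (b : Fin d → ℝ), I v (c • 1 + ∑ i, b i • Pi.single (e i).1 1) =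
      I v 1 * (c + ∑ i, b i * x v i) := by
    intro v c b
    rw [map_add, map_smul, map_sum, mul_add, mul_sum, smul_eq_mul, mul_comm]
    congr 1
    refine sum_congr rfl fun i _ => ?_
    rw [map_smul, smul_eq_mul]
    simp only [x]
    field_simp [(hI v).ne']
  have key : ∀ (f : V → ℝ) (a : F → ℝ) (S : Set V), (∀ v, I v a = I v 1 * f v) →
      (((∀ v, 0 ≤ f v) ∧ ∀ v, v ∈ S ↔ f v = 0) ↔
        ((∀ v, 0 ≤ I v a) ∧ ∀ v, v ∈ S ↔ I v a = 0)) := by
    intro f a S h
    simp only [h, mul_eq_zero, (hI _).ne', false_or, mul_nonneg_iff_of_pos_left (hI _)]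
  refine ⟨x, fun S => ⟨?_, ?_⟩⟩
  · rintro ⟨_, ⟨⟨c, l⟩, rfl⟩, h⟩
    refine ⟨c • 1 + ∑ i, l (EuclideanSpace.single i 1) • Pi.single (e i).1 1, (key _ _ S ?_).1 h⟩
    intro v
    rw [hx]
    congr 1
    show _ = c + l (x v)
    congr 1
    conv_rhs => rw [← (EuclideanSpace.basisFun (Fin d) ℝ).sum_repr (x v)]
    rw [map_sum]
    refine sum_congr rfl fun i _ => ?_
    simp [mul_comm]
  · rintro ⟨a, h⟩
    refine ⟨affMap x (a o, ∑ i, (a (e i).1 - a o) • EuclideanSpace.proj i), ⟨_, rfl⟩,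
      (key _ a S ?_).2 h⟩
    intro v
    have ha : a = a o • 1 + ∑ i, (a (e i).1 - a o) • Pi.single (e i).1 1 := by
      funext y
      simp only [Pi.add_apply, Pi.smul_apply, Finset.sum_apply, Pi.one_apply, smul_eq_mul, mul_one]
      by_cases hy : y = o
      · rw [hy, sum_eq_zero, add_zero]
        intro i _
        rw [Pi.single_eq_of_ne (e i).2.symm, mul_zero]
      · rw [sum_eq_single (e.symm ⟨y, hy⟩)]
        · simp
        · intro i _ hi
          rw [Pi.single_eq_of_ne, mul_zero]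
          intro h2
          apply hi
          rw [Equiv.eq_symm_apply]
          exact Subtype.ext h2.symm
        · simp
    conv_lhs => rw [ha]
    rw [hx]
    congr 1
    simp [affMap]

end

end Pool.Agent.MP_23c9d7_co

end

-- part MP_23c9d7_co.Aut
section

/-! Computing the automorphism group of a face lattice; affine maps of a line. -/

namespace Pool.Agent.MP_23c9d7_co

open Classical Finset

noncomputable section

/-- two points lie in a common proper member of the family -/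
def Compat {V : Type*} (P : Set V → Prop) (v w : V) : Prop :=
  ∃ S, P S ∧ S ≠ Set.univ ∧ v ∈ S ∧ w ∈ S

lemma aut_equiv {V : Type*} [Finite V] (P : Set V → Prop) {G : Type*} [Group G]
    (α : G →* Equiv.Perm V) (hinj : Function.Injective α)
    (hα : ∀ g S, P S → P (α g '' S)) (h0 : P ∅) (h1 : ∀ v, P {v})
    (hsurj : ∀ π : Equiv.Perm V, (∀ v w, Compat P (π v) (π w) ↔ Compat P v w) → ∃ g, α g = π) :
    Nonempty (({S // P S} ≃o {S // P S}) ≃* G) := by
  let r : G → ({S // P S} ≃o {S // P S}) := fun g =>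
    { toFun := fun S => ⟨α g '' S.1, hα g _ S.2⟩
      invFun := fun S => ⟨α g⁻¹ '' S.1, hα g⁻¹ _ S.2⟩
      left_inv := fun S => Subtype.ext (by simp [Set.image_image])
      right_inv := fun S => Subtype.ext (by simp [Set.image_image])
      map_rel_iff' := by
        intro S T
        exact Set.image_subset_image_iff (α g).injective }
  have hr : ∀ g S, (r g S).1 = α g '' S.1 := fun _ _ => rfl
  let ρ : G →* ({S // P S} ≃o {S // P S}) :=
    { toFun := r
      map_one' := RelIso.ext fun S => Subtype.ext (by simp [hr])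
      map_mul' := fun g h => RelIso.ext fun S => Subtype.ext (by
        rw [RelIso.mul_apply, hr, hr, hr, Set.image_image]; simp) }
  have hρ : ∀ g S, (ρ g S).1 = α g '' S.1 := fun _ _ => rfl
  refine ⟨(MulEquiv.ofBijective ρ ⟨?_, ?_⟩).symm⟩
  · intro g h hgh
    apply hinj
    ext v
    have := congrArg (fun e : {S // P S} ≃o {S // P S} => (e ⟨{v}, h1 v⟩).1) hgh
    simpa [hρ] using this
  · intro Ψ
    have hbot : ∀ (Φ : {S // P S} ≃o {S // P S}) (S : {S // P S}),
        S.1.Nonempty → (Φ S).1.Nonempty := by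
      intro Φ S hS
      by_contra h
      have h2 : Φ S ≤ Φ ⟨∅, h0⟩ := by
        intro v hv
        exact absurd ⟨v, hv⟩ h
      obtain ⟨v, hv⟩ := hS
      exact Φ.le_iff_le.1 h2 hv
    have hsing : ∀ v, ∃ w, Ψ ⟨{v}, h1 v⟩ = ⟨{w}, h1 w⟩ := by
      intro v
      obtain ⟨w, hw⟩ := hbot Ψ ⟨{v}, h1 v⟩ ⟨v, rfl⟩
      refine ⟨w, ?_⟩
      have h2 : (⟨{w}, h1 w⟩ : {S // P S}) ≤ Ψ ⟨{v}, h1 v⟩ := Set.singleton_subset_iff.2 hw
      have h3 : Ψ.symm ⟨{w}, h1 w⟩ ≤ ⟨{v}, h1 v⟩ := by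
        simpa using Ψ.symm.monotone h2
      obtain ⟨y, hy⟩ := hbot Ψ.symm ⟨{w}, h1 w⟩ ⟨w, rfl⟩
      have h4 : y = v := h3 hy
      have h5 : Ψ.symm ⟨{w}, h1 w⟩ = ⟨{v}, h1 v⟩ :=
        le_antisymm h3 (Set.singleton_subset_iff.2 (h4 ▸ hy))
      rw [← h5, OrderIso.apply_symm_apply]
    choose π hπ using hsing
    have hπi : Function.Injective π := by
      intro v w h
      have : Ψ ⟨{v}, h1 v⟩ = Ψ ⟨{w}, h1 w⟩ := by
        rw [hπ, hπ]
        exact Subtype.ext (by simp [h])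
      simpa using congrArg Subtype.val (Ψ.injective this)
    let π' : Equiv.Perm V := Equiv.ofBijective π (Finite.injective_iff_bijective.1 hπi)
    have hmem : ∀ (S : {S // P S}) v, π' v ∈ (Ψ S).1 ↔ v ∈ S.1 := by
      intro S v
      have a1 : π' v ∈ (Ψ S).1 ↔ Ψ ⟨{v}, h1 v⟩ ≤ Ψ S := by
        rw [hπ]
        exact Set.singleton_subset_iff.symm
      rw [a1, Ψ.le_iff_le]
      exact Set.singleton_subset_iff
    have huniv : ∀ S : {S // P S}, (Ψ S).1 = Set.univ ↔ S.1 = Set.univ := by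
      intro S
      simp only [Set.eq_univ_iff_forall]
      constructor
      · intro h v
        exact (hmem S v).1 (h _)
      · intro h v
        obtain ⟨w, rfl⟩ := π'.surjective v
        exact (hmem S w).2 (h w)
    obtain ⟨g, hg⟩ := hsurj π' (by
      intro v w
      constructor
      · rintro ⟨S, hS, hS2, hv, hw⟩
        obtain ⟨T, hT⟩ := Ψ.surjective ⟨S, hS⟩
        have hT' : S = (Ψ T).1 := by rw [hT]
        rw [hT'] at hS2 hv hw
        exact ⟨T.1, T.2, fun h => hS2 ((huniv T).2 h), (hmem T v).1 hv, (hmem T w).1 hw⟩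
      · rintro ⟨S, hS, hS2, hv, hw⟩
        exact ⟨(Ψ ⟨S, hS⟩).1, (Ψ ⟨S, hS⟩).2, fun h => hS2 ((huniv ⟨S, hS⟩).1 h),
          (hmem ⟨S, hS⟩ v).2 hv, (hmem ⟨S, hS⟩ w).2 hw⟩)
    refine ⟨g, RelIso.ext fun S => Subtype.ext ?_⟩
    rw [hρ, hg]
    ext v
    obtain ⟨w, rfl⟩ := π'.surjective v
    rw [hmem]
    exact π'.injective.mem_set_image

variable {F : Type*} [Field F]

lemma aff_apply (e : F ≃ᵃ[F] F) (y : F) : e y = (e 1 - e 0) * y + e 0 := by
  have h : ∀ y : F, e y = y * e.linear 1 + e 0 := by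
    intro y
    have := e.map_vadd 0 y
    rw [vadd_eq_add, add_zero, vadd_eq_add] at this
    rw [this, ← smul_eq_mul, ← map_smul, smul_eq_mul, mul_one]
  rw [h y, h 1]; ring

lemma exists_aff (a b : F) (ha : a ≠ 0) : ∃ e : F ≃ᵃ[F] F, ∀ y, e y = a * y + b :=
  ⟨(LinearEquiv.smulOfUnit (Units.mk0 a ha)).toAffineEquiv.trans (AffineEquiv.constVAdd F F b),
    fun y => by simp [LinearEquiv.smulOfUnit, add_comm]⟩

lemma hasPolytope_of {V : Type*} [Finite V] {d : ℕ} (x : V → EuclideanSpace ℝ (Fin d))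
    {G : Type*} [Group G] (h : Nonempty ((Lat (affSp x) ≃o Lat (affSp x)) ≃* G)) :
    HasPolytope d G := by
  obtain ⟨φ⟩ := exists_faceIso x
  obtain ⟨Ψ⟩ := h
  refine ⟨(Set.finite_range x).toFinset, ?_⟩
  rw [Set.Finite.coe_toFinset]
  exact ⟨(autCongr φ).trans Ψ⟩

theorem upper_small (F : Type*) [Field F] [Fintype F] (hq : Fintype.card F ≤ 3) :
    HasPolytope (Fintype.card F - 1) (F ≃ᵃ[F] F) := by
  obtain ⟨x, hx⟩ := realize (V := F) (0 : F) rfl (fun v => LinearMap.proj v) (fun v => by simp)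
  have hall : ∀ S, IsFace (affSp x) S := by
    intro S
    rw [hx]
    refine ⟨fun v => if v ∈ S then 0 else 1, fun v => ?_, fun v => ?_⟩
    · simp only [LinearMap.proj_apply]
      split_ifs <;> norm_num
    · simp only [LinearMap.proj_apply]
      split_ifs with h <;> simp [h]
  let α : (F ≃ᵃ[F] F) →* Equiv.Perm F :=
    { toFun := fun e => e.toEquiv
      map_one' := rfl
      map_mul' := fun _ _ => rfl }
  refine hasPolytope_of x (aut_equiv _ α ?_ (fun _ _ _ => hall _) (hall _) (fun _ => hall _) ?_)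
  · intro e e' h
    exact AffineEquiv.toEquiv_injective h
  · intro π _
    obtain ⟨e, he⟩ := exists_aff (π 1 - π 0) (π 0)
      (sub_ne_zero.2 (π.injective.ne one_ne_zero))
    refine ⟨e, Equiv.ext fun y => ?_⟩
    show e y = π y
    have e0 : e 0 = π 0 := by rw [he]; ring
    have e1 : e 1 = π 1 := by rw [he]; ring
    by_cases h0 : y = 0
    · rw [h0, e0]
    by_cases h1 : y = 1
    · rw [h1, e1]
    by_contra hne
    have a1 : e y ≠ π 0 := by rw [← e0]; exact e.injective.ne h0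
    have a2 : e y ≠ π 1 := by rw [← e1]; exact e.injective.ne h1
    have a3 : π y ≠ π 0 := π.injective.ne h0
    have a4 : π y ≠ π 1 := π.injective.ne h1
    have a5 : π 0 ≠ π 1 := π.injective.ne zero_ne_one
    have : ({e y, π y, π 0, π 1} : Finset F).card = 4 := by
      rw [card_insert_of_notMem (by simp [hne, a1, a2]), card_insert_of_notMem (by simp [a3, a4]),
        card_pair a5]
    have h3 := card_le_univ ({e y, π y, π 0, π 1} : Finset F)
    omega

end

end Pool.Agent.MP_23c9d7_co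

end

-- part MP_23c9d7_co.Upper
section

/-! A thrice stacked simplex whose face lattice has automorphism group the affine group. -/

namespace Pool.Agent.MP_23c9d7_co

open Classical Finset

noncomputable section

/-- the vertices -/
inductive Vx (F : Type*) where
  | X (x : F) : Vx F
  | B1 (u : F) : Vx F
  | B2 (u v : F) (h : u ≠ v) : Vx F
  | B3 (u v : F) (h : u ≠ v) : Vx F

open Vx

variable {F : Type*}

instance [Finite F] : Finite (Vx F) := by
  refine Finite.of_injective (β := Fin 4 × F × F) (fun w => match w with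
    | X x => (0, x, x)
    | B1 u => (1, u, u)
    | B2 u v _ => (2, u, v)
    | B3 u v _ => (3, u, v)) ?_
  intro a b h
  cases a <;> cases b <;> simp_all

def rank : Vx F → ℕ
  | X _ => 0
  | B1 _ => 1
  | B2 _ _ _ => 2
  | B3 _ _ _ => 3

/-- adjacency, for a map `th` picking a third point -/
def Adj (th : F → F → F) : Vx F → Vx F → Prop
  | X _, X _ => True
  | X x, B1 u => x ≠ u
  | X x, B2 u v _ => x ≠ u ∧ x ≠ v
  | X x, B3 u v _ => x ≠ u ∧ x ≠ v ∧ x ≠ th u v
  | B1 u, X x => x ≠ u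
  | B1 u, B1 v => u = v
  | B1 u, B2 v _ _ => u = v
  | B1 u, B3 v _ _ => u = v
  | B2 u v _, X x => x ≠ u ∧ x ≠ v
  | B2 u _ _, B1 v => u = v
  | B2 u v _, B2 u' v' _ => u = u' ∧ v = v'
  | B2 u v _, B3 u' v' _ => u = u' ∧ v = v'
  | B3 u v _, X x => x ≠ u ∧ x ≠ v ∧ x ≠ th u v
  | B3 u _ _, B1 v => u = v
  | B3 u v _, B2 u' v' _ => u = u' ∧ v = v'
  | B3 u v _, B3 u' v' _ => u = u' ∧ v = v'

lemma Adj.symm {th : F → F → F} {v w : Vx F} (h : Adj th v w) : Adj th w v := by
  cases v <;> cases w <;> simp_all [Adj]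

lemma exists_ne3 [Fintype F] (hq : 4 ≤ Fintype.card F) (x y z : F) :
    ∃ w, w ≠ x ∧ w ≠ y ∧ w ≠ z := by
  by_contra h
  push Not at h
  have h1 : (univ : Finset F) ⊆ {x, y, z} := by
    intro w _
    by_cases a : w = x
    · simp [a]
    by_cases b : w = y
    · simp [b]
    simp [h w a b]
  have h2 := card_le_card h1
  have h3 : ({x, y, z} : Finset F).card ≤ 3 := card_le_three
  rw [card_univ] at h2
  omega

def Simp (th : F → F → F) (k : ℕ) (v : Vx F) : Prop :=
  ∀ w w', rank w ≤ k → rank w' ≤ k → Adj th v w → Adj th v w' → Adj th w w'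

lemma simp_of_rank (th : F → F → F) (v : Vx F) : Simp th (rank v) v := by
  intro w w' h1 h2 a1 a2
  cases v <;> cases w <;> cases w' <;> simp_all [Adj, rank]

lemma not_simp [Fintype F] (hq : 4 ≤ Fintype.card F) {th : F → F → F}
    (hth : ∀ u v, u ≠ v → th u v ≠ u ∧ th u v ≠ v) {k : ℕ} (hk : k ≤ 3) (v : Vx F)
    (h : rank v < k) :
    ¬ Simp th k v := by
  intro hs
  cases v with
  | X x =>
    obtain ⟨u, hu, -, -⟩ := exists_ne3 hq x x x
    obtain ⟨w, hw, hw', -⟩ := exists_ne3 hq x u x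
    exact hw' (hs (B1 w) (B1 u) h h hw.symm hu.symm)
  | B1 x =>
    obtain ⟨u, hu, -, -⟩ := exists_ne3 hq x x x
    obtain ⟨w, hw, hw', -⟩ := exists_ne3 hq x u x
    exact hw' (hs (B2 x w hw.symm) (B2 x u hu.symm) h h rfl rfl).2
  | B2 u v huv =>
    exact (hs (B3 u v huv) (X (th u v)) h (Nat.zero_le _) ⟨rfl, rfl⟩ (hth u v huv)).2.2 rfl
  | B3 u v huv =>
    simp only [rank] at h
    omega

lemma rank_le (v : Vx F) : rank v ≤ 3 := by cases v <;> simp [rank]

lemma rank_perm [Fintype F] (hq : 4 ≤ Fintype.card F) {th : F → F → F}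
    (hth : ∀ u v, u ≠ v → th u v ≠ u ∧ th u v ≠ v) (π : Equiv.Perm (Vx F))
    (hπ : ∀ v w, Adj th (π v) (π w) ↔ Adj th v w) (v : Vx F) : rank (π v) = rank v := by
  have step : ∀ k, k + 1 ≤ 3 → (∀ v, rank (π v) ≤ k + 1 ↔ rank v ≤ k + 1) →
      ∀ v, rank (π v) ≤ k ↔ rank v ≤ k := by
    intro k hk h v
    have char : ∀ w : Vx F, rank w ≤ k ↔ rank w ≤ k + 1 ∧ ¬ Simp th (k + 1) w := by
      intro w
      constructor
      · intro h1
        exact ⟨by omega, not_simp hq hth hk w (by omega)⟩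
      · rintro ⟨h1, h2⟩
        by_contra h3
        have : rank w = k + 1 := by omega
        exact h2 (this ▸ simp_of_rank th w)
    have hS : Simp th (k + 1) (π v) ↔ Simp th (k + 1) v := by
      constructor
      · intro hs w w' a1 a2 a3 a4
        exact (hπ _ _).1 (hs (π w) (π w') ((h w).2 a1) ((h w').2 a2) ((hπ _ _).2 a3)
          ((hπ _ _).2 a4))
      · intro hs w w' a1 a2 a3 a4
        obtain ⟨w, rfl⟩ := π.surjective w
        obtain ⟨w', rfl⟩ := π.surjective w'
        exact (hπ _ _).2 (hs w w' ((h w).1 a1) ((h w').1 a2) ((hπ _ _).1 a3) ((hπ _ _).1 a4))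
    rw [char, char, h, hS]
  have h3 : ∀ v, rank (π v) ≤ 3 ↔ rank v ≤ 3 := fun v => by simp [rank_le]
  have h2 := step 2 le_rfl h3
  have h1 := step 1 (by norm_num) h2
  have h0 := step 0 (by norm_num) h1
  have := h0 v
  have := h1 v
  have := h2 v
  have := rank_le v
  have := rank_le (π v)
  omega

/-- functoriality of the vertex set -/
def vmap (f : F → F) (hf : Function.Injective f) : Vx F → Vx F
  | X x => X (f x)
  | B1 u => B1 (f u)
  | B2 u v h => B2 (f u) (f v) (hf.ne h)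
  | B3 u v h => B3 (f u) (f v) (hf.ne h)

lemma perm_descr [Fintype F] (hq : 4 ≤ Fintype.card F) {th : F → F → F}
    (hth : ∀ u v, u ≠ v → th u v ≠ u ∧ th u v ≠ v) (π : Equiv.Perm (Vx F))
    (hπ : ∀ v w, Adj th (π v) (π w) ↔ Adj th v w) :
    ∃ (f : F → F) (hf : Function.Injective f), (∀ u v, u ≠ v → f (th u v) = th (f u) (f v)) ∧
      ∀ w, π w = vmap f hf w := by
  have hr := rank_perm hq hth π hπ
  have h0 : ∀ x, ∃ y, π (X x) = X y := by
    intro x
    have := hr (X x)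
    cases h : π (X x) <;> simp_all [rank]
  choose f hf using h0
  have hinj : Function.Injective f := by
    intro x y h
    have : π (X x) = π (X y) := by rw [hf, hf, h]
    simpa using π.injective this
  have h1 : ∀ u, π (B1 u) = B1 (f u) := by
    intro u
    have a1 := hr (B1 u)
    have a2 := hπ (X u) (B1 u)
    rw [hf] at a2
    cases h : π (B1 u) <;> simp_all [rank, Adj]
  have h2 : ∀ u v h, π (B2 u v h) = B2 (f u) (f v) (hinj.ne h) := by
    intro u v huv
    have a1 := hr (B2 u v huv)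
    have a2 := hπ (B1 u) (B2 u v huv)
    have a3 := hπ (X v) (B2 u v huv)
    have a4 := hinj.ne huv.symm
    rw [h1] at a2
    rw [hf] at a3
    cases h : π (B2 u v huv) <;> simp_all [rank, Adj]
  have h3 : ∀ u v h, π (B3 u v h) = B3 (f u) (f v) (hinj.ne h) := by
    intro u v huv
    have a1 := hr (B3 u v huv)
    have a2 := hπ (B2 u v huv) (B3 u v huv)
    rw [h2] at a2
    cases h : π (B3 u v huv) <;> simp_all [rank, Adj]
  refine ⟨f, hinj, ?_, ?_⟩
  · intro u v huv
    have a1 := hπ (X (th u v)) (B3 u v huv)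
    rw [hf, h3] at a1
    have a2 := hinj.ne (hth u v huv).1
    have a3 := hinj.ne (hth u v huv).2
    simpa [Adj, a2, a3] using a1
  · intro w
    cases w with
    | X x => exact hf x
    | B1 u => exact h1 u
    | B2 u v h => exact h2 u v h
    | B3 u v h => exact h3 u v h

variable [Fintype F]

/-- the linear forms -/
def val (th : F → F → F) (a : F → ℝ) : Vx F → ℝ
  | X x => a x
  | B1 u => 3 * ∑ y, a y - 4 * a u
  | B2 u v _ => 27 * ∑ y, a y - 32 * a u - 16 * a v
  | B3 u v _ => 219 * ∑ y, a y - 256 * a u - 128 * a v - 64 * a (th u v)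

def valL (th : F → F → F) (w : Vx F) : (F → ℝ) →ₗ[ℝ] ℝ where
  toFun a := val th a w
  map_add' a b := by cases w <;> simp [val, sum_add_distrib] <;> ring
  map_smul' c a := by cases w <;> simp [val, ← mul_sum] <;> ring

lemma sum2 {a : F → ℝ} (ha : ∀ y, 0 ≤ a y) {u v : F} (h : u ≠ v) : a u + a v ≤ ∑ y, a y := by
  rw [← sum_pair h]
  exact sum_le_sum_of_subset_of_nonneg (subset_univ _) (fun y _ _ => ha y)

lemma sum3 {a : F → ℝ} (ha : ∀ y, 0 ≤ a y) {u v w : F} (h : u ≠ v) (h1 : w ≠ u) (h2 : w ≠ v) :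
    a u + a v + a w ≤ ∑ y, a y := by
  have : ∑ y ∈ insert w {u, v}, a y = a u + a v + a w := by
    rw [sum_insert (by simp [h1, h2]), sum_pair h]; ring
  rw [← this]
  exact sum_le_sum_of_subset_of_nonneg (subset_univ _) (fun y _ _ => ha y)

variable {th : F → F → F}

lemma adj_of_tight (hth : ∀ u v, u ≠ v → th u v ≠ u ∧ th u v ≠ v) {a : F → ℝ}
    (ha : ∀ w, 0 ≤ val th a w) (hs : 0 < ∑ y, a y) (w w' : Vx F) (h : val th a w = 0)
    (h' : val th a w' = 0) : Adj th w w' := by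
  have h0 : ∀ y, 0 ≤ a y := fun y => ha (X y)
  have f1 : ∀ u, val th a (B1 u) = 0 → 11 * ∑ y, a y ≤ 16 * a u := by
    intro u h
    simp only [val] at h
    linarith
  have f2 : ∀ u v huv, val th a (B2 u v huv) = 0 →
      11 * ∑ y, a y ≤ 16 * a u ∧ 64 * (∑ y, a y - a u - a v) ≤ 5 * ∑ y, a y := by
    intro u v huv h
    have b1 := ha (B1 u)
    have b2 := sum2 h0 huv
    simp only [val] at h b1
    constructor <;> linarith
  have f3 : ∀ u v huv, val th a (B3 u v huv) = 0 →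
      (11 * ∑ y, a y ≤ 16 * a u ∧ 64 * (∑ y, a y - a u - a v) ≤ 5 * ∑ y, a y) ∧
        0 < a (th u v) := by
    intro u v huv h
    have b1 := ha (B1 u)
    have b2 := ha (B2 u v huv)
    have b3 := sum3 h0 huv (hth u v huv).1 (hth u v huv).2
    simp only [val] at h b1 b2
    refine ⟨⟨?_, ?_⟩, ?_⟩ <;> linarith
  have g1 : ∀ u v, 11 * ∑ y, a y ≤ 16 * a u → 11 * ∑ y, a y ≤ 16 * a v → u = v := by
    intro u v h1 h2
    by_contra hne
    have := sum2 h0 hne
    linarith
  have g2 : ∀ x u, a x = 0 → 11 * ∑ y, a y ≤ 16 * a u → x ≠ u := by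
    rintro x u h1 h2 rfl
    linarith
  have g3 : ∀ x u v, a x = 0 → 64 * (∑ y, a y - a u - a v) ≤ 5 * ∑ y, a y → x ≠ v := by
    rintro x u v h1 h2 rfl
    have b1 := ha (B1 u)
    simp only [val] at b1
    linarith
  have g4 : ∀ u v u' v', u ≠ v → u' ≠ v' →
      (11 * ∑ y, a y ≤ 16 * a u ∧ 64 * (∑ y, a y - a u - a v) ≤ 5 * ∑ y, a y) →
      (11 * ∑ y, a y ≤ 16 * a u' ∧ 64 * (∑ y, a y - a u' - a v') ≤ 5 * ∑ y, a y) →
      u = u' ∧ v = v' := by
    intro u v u' v' huv huv' h1 h2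
    have e := g1 u u' h1.1 h2.1
    subst e
    refine ⟨rfl, ?_⟩
    by_contra hne
    have b1 := ha (B1 u)
    simp only [val] at b1
    have := sum3 h0 huv huv'.symm (Ne.symm hne)
    linarith [h1.2, h2.2]
  have g5 : ∀ x u v, a x = 0 → 0 < a (th u v) → x ≠ th u v := by
    rintro x u v h1 h2 rfl
    linarith
  cases w with
  | X x =>
    cases w' with
    | X y => trivial
    | B1 u => exact g2 x u h (f1 u h')
    | B2 u v huv => exact ⟨g2 x u h (f2 u v huv h').1, g3 x u v h (f2 u v huv h').2⟩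
    | B3 u v huv =>
      exact ⟨g2 x u h (f3 u v huv h').1.1, g3 x u v h (f3 u v huv h').1.2,
        g5 x u v h (f3 u v huv h').2⟩
  | B1 x =>
    cases w' with
    | X y => exact g2 y x h' (f1 x h)
    | B1 u => exact g1 x u (f1 x h) (f1 u h')
    | B2 u v huv => exact g1 x u (f1 x h) (f2 u v huv h').1
    | B3 u v huv => exact g1 x u (f1 x h) (f3 u v huv h').1.1
  | B2 x y hxy =>
    cases w' with
    | X z => exact ⟨g2 z x h' (f2 x y hxy h).1, g3 z x y h' (f2 x y hxy h).2⟩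
    | B1 u => exact g1 x u (f2 x y hxy h).1 (f1 u h')
    | B2 u v huv => exact g4 x y u v hxy huv (f2 x y hxy h) (f2 u v huv h')
    | B3 u v huv => exact g4 x y u v hxy huv (f2 x y hxy h) (f3 u v huv h').1
  | B3 x y hxy =>
    cases w' with
    | X z =>
      exact ⟨g2 z x h' (f3 x y hxy h).1.1, g3 z x y h' (f3 x y hxy h).1.2,
        g5 z x y h' (f3 x y hxy h).2⟩
    | B1 u => exact g1 x u (f3 x y hxy h).1.1 (f1 u h')
    | B2 u v huv => exact g4 x y u v hxy huv (f3 x y hxy h).1 (f2 u v huv h')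
    | B3 u v huv => exact g4 x y u v hxy huv (f3 x y hxy h).1 (f3 u v huv h').1

lemma pos_of (hth : ∀ u v, u ≠ v → th u v ≠ u ∧ th u v ≠ v) {a : F → ℝ} (h0 : ∀ y, 0 ≤ a y)
    (hs : ∑ y, a y = 64) {u v : F} (huv : u ≠ v)
    (h : a u ≤ 40 ∨ (a u ≤ 48 ∧ a u + a v ≤ 58)) :
    0 < val th a (B2 u v huv) ∧ 0 < val th a (B3 u v huv) := by
  have b2 := sum2 h0 huv
  have b3 := sum3 h0 huv (hth u v huv).1 (hth u v huv).2
  simp only [val]
  rcases h with h | ⟨h, h'⟩ <;> constructor <;> linarith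

lemma far (hth : ∀ u v, u ≠ v → th u v ≠ u ∧ th u v ≠ v) {a : F → ℝ} (h0 : ∀ y, 0 ≤ a y)
    (hs : ∑ y, a y = 64) (h : ∀ y, a y ≤ 40) (w : Vx F) : (∃ x, w = X x) ∨ 0 < val th a w := by
  cases w with
  | X x => exact Or.inl ⟨x, rfl⟩
  | B1 u =>
    right
    simp only [val]
    linarith [h u]
  | B2 u v huv => exact Or.inr (pos_of hth h0 hs huv (Or.inl (h u))).1
  | B3 u v huv => exact Or.inr (pos_of hth h0 hs huv (Or.inl (h u))).2

lemma mid (hth : ∀ u v, u ≠ v → th u v ≠ u ∧ th u v ≠ v) {a : F → ℝ} (h0 : ∀ y, 0 ≤ a y)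
    (hs : ∑ y, a y = 64) {u₀ : F} (h1 : a u₀ = 48) (h2 : ∀ y, y ≠ u₀ → a y ≤ 10) (w : Vx F) :
    (∃ x, w = X x) ∨ w = B1 u₀ ∨ 0 < val th a w := by
  have key : ∀ u v, u ≠ v → a u ≤ 40 ∨ (a u ≤ 48 ∧ a u + a v ≤ 58) := by
    intro u v huv
    by_cases hu : u = u₀
    · right
      have := h2 v (by rw [← hu]; exact huv.symm)
      rw [hu]
      constructor <;> linarith
    · left
      linarith [h2 u hu]
  cases w with
  | X x => exact Or.inl ⟨x, rfl⟩
  | B1 u =>
    by_cases hu : u = u₀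
    · exact Or.inr (Or.inl (by rw [hu]))
    · right; right
      simp only [val]
      linarith [h2 u hu]
  | B2 u v huv => exact Or.inr (Or.inr (pos_of hth h0 hs huv (key u v huv)).1)
  | B3 u v huv => exact Or.inr (Or.inr (pos_of hth h0 hs huv (key u v huv)).2)

lemma near (hth : ∀ u v, u ≠ v → th u v ≠ u ∧ th u v ≠ v) {a : F → ℝ} (h0 : ∀ y, 0 ≤ a y)
    (hs : ∑ y, a y = 64) {u₀ v₀ : F} (h : u₀ ≠ v₀) (h1 : 24 ≤ a u₀) (h2 : a u₀ ≤ 48)
    (h3 : 6 ≤ a v₀) (w : Vx F) :
    (∃ x, w = X x) ∨ w = B1 u₀ ∨ w = B2 u₀ v₀ h ∨ w = B3 u₀ v₀ h ∨ 0 < val th a w := by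
  have key : ∀ u v, u ≠ v → (u = u₀ ∧ v = v₀) ∨ a u ≤ 40 ∨ (a u ≤ 48 ∧ a u + a v ≤ 58) := by
    intro u v huv
    by_cases hu : u = u₀
    · by_cases hv : v = v₀
      · exact Or.inl ⟨hu, hv⟩
      · right; right
        have := sum3 h0 h (by rw [← hu]; exact huv.symm) hv
        rw [hu]
        constructor <;> linarith
    · right; left
      linarith [sum2 h0 hu]
  cases w with
  | X x => exact Or.inl ⟨x, rfl⟩
  | B1 u =>
    by_cases hu : u = u₀
    · exact Or.inr (Or.inl (by rw [hu]))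
    · right; right; right; right
      simp only [val]
      linarith [sum2 h0 hu]
  | B2 u v huv =>
    rcases key u v huv with ⟨rfl, rfl⟩ | k
    · simp
    · simp [(pos_of hth h0 hs huv k).1]
  | B3 u v huv =>
    rcases key u v huv with ⟨rfl, rfl⟩ | k
    · simp
    · simp [(pos_of hth h0 hs huv k).2]

lemma exists_pt {u v w : F} (h : u ≠ v) (h1 : w ≠ u) (h2 : w ≠ v) (α β γ t : ℝ) :
    ∃ a : F → ℝ, a u = α ∧ a v = β ∧ a w = γ ∧ (∀ y, y ≠ u → y ≠ v → y ≠ w → a y = t) ∧
      ∑ y, a y = α + β + γ + ((Fintype.card F : ℝ) - 3) * t := by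
  refine ⟨fun y => t + (if y = u then α - t else 0) + (if y = v then β - t else 0) +
    (if y = w then γ - t else 0), ?_, ?_, ?_, ?_, ?_⟩
  · simp [h, h1.symm]
  · simp [h.symm, h2.symm]
  · simp [h1, h2]
  · intro y a b c
    simp [a, b, c]
  · simp only [sum_add_distrib, sum_const, card_univ, nsmul_eq_mul, sum_ite_eq', mem_univ, if_true]
    ring

omit [Fintype F] in
lemma pt_cases {u v w : F} {a : F → ℝ} {α β γ t : ℝ} (h1 : a u = α) (h2 : a v = β) (h3 : a w = γ)
    (h4 : ∀ y, y ≠ u → y ≠ v → y ≠ w → a y = t) (Q : ℝ → Prop) (q1 : Q α) (q2 : Q β) (q3 : Q γ)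
    (q4 : Q t) (y : F) : Q (a y) := by
  by_cases a1 : y = u
  · rwa [a1, h1]
  by_cases a2 : y = v
  · rwa [a2, h2]
  by_cases a3 : y = w
  · rwa [a3, h3]
  rwa [h4 y a1 a2 a3]

/-- feasible, nonzero and tight at both vertices -/
def Tight (th : F → F → F) (w w' : Vx F) : Prop :=
  ∃ a : F → ℝ, (∀ z, 0 ≤ val th a z) ∧ ∑ y, a y = 64 ∧ val th a w = 0 ∧ val th a w' = 0

lemma Tight.symm {w w' : Vx F} (h : Tight th w w') : Tight th w' w := by
  obtain ⟨a, h1, h2, h3, h4⟩ := h
  exact ⟨a, h1, h2, h4, h3⟩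

lemma near_feas (hth : ∀ u v, u ≠ v → th u v ≠ u ∧ th u v ≠ v) {a : F → ℝ} (h0 : ∀ y, 0 ≤ a y)
    (hs : ∑ y, a y = 64) {u₀ v₀ : F} (h : u₀ ≠ v₀) (h1 : 24 ≤ a u₀) (h2 : a u₀ ≤ 48)
    (h3 : 6 ≤ a v₀) (h4 : 0 ≤ val th a (B2 u₀ v₀ h)) (h5 : 0 ≤ val th a (B3 u₀ v₀ h)) (w : Vx F) :
    0 ≤ val th a w := by
  rcases near hth h0 hs h h1 h2 h3 w with ⟨x, rfl⟩ | rfl | rfl | rfl | k
  · exact h0 x
  · simp only [val]; linarith
  · exact h4
  · exact h5
  · exact k.le

lemma tight_of_adj (hq : 4 ≤ Fintype.card F) (hth : ∀ u v, u ≠ v → th u v ≠ u ∧ th u v ≠ v)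
    (w w' : Vx F) (h : Adj th w w') : Tight th w w' := by
  have P1 : ∀ u v huv, ∃ a : F → ℝ, (∀ z, 0 ≤ val th a z) ∧ ∑ y, a y = 64 ∧
      val th a (B2 u v huv) = 0 ∧ val th a (B3 u v huv) = 0 ∧
      ∀ x, x ≠ u → x ≠ v → x ≠ th u v → a x = 0 := by
    intro u v huv
    obtain ⟨a, a1, a2, a3, a4, a5⟩ := exists_pt huv (hth u v huv).1 (hth u v huv).2 47 14 3 0
    have hs : ∑ y, a y = 64 := by rw [a5]; norm_num
    have h0 := pt_cases a1 a2 a3 a4 (fun r => 0 ≤ r) (by norm_num) (by norm_num) (by norm_num)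
      le_rfl
    have b2 : val th a (B2 u v huv) = 0 := by simp only [val, hs, a1, a2]; norm_num
    have b3 : val th a (B3 u v huv) = 0 := by simp only [val, hs, a1, a2, a3]; norm_num
    exact ⟨a, near_feas hth h0 hs huv (by linarith) (by linarith) (by linarith) b2.ge b3.ge,
      hs, b2, b3, a4⟩
  have P2 : ∀ u v huv, ∃ a : F → ℝ, (∀ z, 0 ≤ val th a z) ∧ ∑ y, a y = 64 ∧
      val th a (B1 u) = 0 ∧ val th a (B3 u v huv) = 0 := by
    intro u v huv
    obtain ⟨a, a1, a2, a3, a4, a5⟩ := exists_pt huv (hth u v huv).1 (hth u v huv).2 48 11 5 0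
    have hs : ∑ y, a y = 64 := by rw [a5]; norm_num
    have h0 := pt_cases a1 a2 a3 a4 (fun r => 0 ≤ r) (by norm_num) (by norm_num) (by norm_num)
      le_rfl
    have b1 : val th a (B1 u) = 0 := by simp only [val, hs, a1]; norm_num
    have b2 : 0 ≤ val th a (B2 u v huv) := by simp only [val, hs, a1, a2]; norm_num
    have b3 : val th a (B3 u v huv) = 0 := by simp only [val, hs, a1, a2, a3]; norm_num
    exact ⟨a, near_feas hth h0 hs huv (by linarith) (by linarith) (by linarith) b2 b3.ge,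
      hs, b1, b3⟩
  have P3 : ∀ u v huv, ∃ a : F → ℝ, (∀ z, 0 ≤ val th a z) ∧ ∑ y, a y = 64 ∧
      val th a (B1 u) = 0 ∧ val th a (B2 u v huv) = 0 ∧ a (th u v) = 0 := by
    intro u v huv
    obtain ⟨x, x1, x2, x3⟩ := exists_ne3 hq u v (th u v)
    obtain ⟨a, a1, a2, a3, a4, a5⟩ := exists_pt huv x1 x2 48 12 4 0
    have hs : ∑ y, a y = 64 := by rw [a5]; norm_num
    have h0 := pt_cases a1 a2 a3 a4 (fun r => 0 ≤ r) (by norm_num) (by norm_num) (by norm_num)
      le_rfl
    have a6 : a (th u v) = 0 := a4 _ (hth u v huv).1 (hth u v huv).2 x3.symm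
    have b1 : val th a (B1 u) = 0 := by simp only [val, hs, a1]; norm_num
    have b2 : val th a (B2 u v huv) = 0 := by simp only [val, hs, a1, a2]; norm_num
    have b3 : 0 ≤ val th a (B3 u v huv) := by simp only [val, hs, a1, a2, a6]; norm_num
    exact ⟨a, near_feas hth h0 hs huv (by linarith) (by linarith) (by linarith) b2.ge b3,
      hs, b1, b2, a6⟩
  have XX : ∀ x y, Tight th (X x) (X y) := by
    intro x y
    obtain ⟨u, u1, u2, -⟩ := exists_ne3 hq x y x
    obtain ⟨v, v1, v2, v3⟩ := exists_ne3 hq x y u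
    obtain ⟨a, a1, a2, a3, a4, a5⟩ := exists_pt v3.symm u1.symm v1.symm 32 32 0 0
    have hs : ∑ y, a y = 64 := by rw [a5]; norm_num
    have h0 := pt_cases a1 a2 a3 a4 (fun r => 0 ≤ r) (by norm_num) (by norm_num) (by norm_num)
      le_rfl
    have h1 := pt_cases a1 a2 a3 a4 (fun r => r ≤ 40) (by norm_num) (by norm_num) (by norm_num)
      (by norm_num)
    refine ⟨a, fun z => ?_, hs, a3, ?_⟩
    · rcases far hth h0 hs h1 z with ⟨x, rfl⟩ | k
      · exact h0 x
      · exact k.le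
    · by_cases hxy : y = x
      · rw [hxy]; exact a3
      · exact a4 y u2.symm v2.symm hxy
  have XB1 : ∀ x u, x ≠ u → Tight th (X x) (B1 u) := by
    intro x u hxu
    obtain ⟨v, v1, v2, -⟩ := exists_ne3 hq x u x
    obtain ⟨y, y1, y2, y3⟩ := exists_ne3 hq x u v
    obtain ⟨a, a1, a2, a3, a4, a5⟩ := exists_pt v2.symm y2 y3 48 8 8 0
    have hs : ∑ y, a y = 64 := by rw [a5]; norm_num
    have h0 := pt_cases a1 a2 a3 a4 (fun r => 0 ≤ r) (by norm_num) (by norm_num) (by norm_num)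
      le_rfl
    have h1 : ∀ z, z ≠ u → a z ≤ 10 := by
      intro z hz
      by_cases c1 : z = v
      · rw [c1, a2]; norm_num
      by_cases c2 : z = y
      · rw [c2, a3]; norm_num
      rw [a4 z hz c1 c2]; norm_num
    have b1 : val th a (B1 u) = 0 := by simp only [val, hs, a1]; norm_num
    refine ⟨a, fun z => ?_, hs, a4 x hxu v1.symm y1.symm, b1⟩
    rcases mid hth h0 hs a1 h1 z with ⟨x, rfl⟩ | rfl | k
    · exact h0 x
    · exact b1.ge
    · exact k.le
  have XB2 : ∀ x u v huv, x ≠ u → x ≠ v → Tight th (X x) (B2 u v huv) := by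
    intro x u v huv h1 h2
    by_cases h3 : x = th u v
    · obtain ⟨a, a1, a2, -, a4, a5⟩ := P3 u v huv
      exact ⟨a, a1, a2, by rw [h3]; exact a5, a4⟩
    · obtain ⟨a, a1, a2, a3, -, a5⟩ := P1 u v huv
      exact ⟨a, a1, a2, a5 x h1 h2 h3, a3⟩
  have XB3 : ∀ x u v huv, x ≠ u → x ≠ v → x ≠ th u v → Tight th (X x) (B3 u v huv) := by
    intro x u v huv h1 h2 h3
    obtain ⟨a, a1, a2, -, a4, a5⟩ := P1 u v huv
    exact ⟨a, a1, a2, a5 x h1 h2 h3, a4⟩
  have B12 : ∀ u v huv, Tight th (B1 u) (B2 u v huv) := by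
    intro u v huv
    obtain ⟨a, a1, a2, a3, a4, -⟩ := P3 u v huv
    exact ⟨a, a1, a2, a3, a4⟩
  have B13 : ∀ u v huv, Tight th (B1 u) (B3 u v huv) := P2
  have B23 : ∀ u v huv, Tight th (B2 u v huv) (B3 u v huv) := by
    intro u v huv
    obtain ⟨a, a1, a2, a3, a4, -⟩ := P1 u v huv
    exact ⟨a, a1, a2, a3, a4⟩
  cases w with
  | X x =>
    cases w' with
    | X y => exact XX x y
    | B1 u => exact XB1 x u h
    | B2 u v huv => exact XB2 x u v huv h.1 h.2
    | B3 u v huv => exact XB3 x u v huv h.1 h.2.1 h.2.2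
  | B1 x =>
    cases w' with
    | X y => exact (XB1 y x h).symm
    | B1 u =>
      obtain rfl : x = u := h
      obtain ⟨v, v1, -, -⟩ := exists_ne3 hq x x x
      obtain ⟨a, a1, a2, a3, -⟩ := B12 x v v1.symm
      exact ⟨a, a1, a2, a3, a3⟩
    | B2 u v huv =>
      obtain rfl : x = u := h
      exact B12 x v huv
    | B3 u v huv =>
      obtain rfl : x = u := h
      exact B13 x v huv
  | B2 x y hxy =>
    cases w' with
    | X z => exact (XB2 z x y hxy h.1 h.2).symm
    | B1 u =>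
      obtain rfl : x = u := h
      exact (B12 x y hxy).symm
    | B2 u v huv =>
      obtain ⟨rfl, rfl⟩ : x = u ∧ y = v := h
      obtain ⟨a, a1, a2, a3, -⟩ := B23 x y hxy
      exact ⟨a, a1, a2, a3, a3⟩
    | B3 u v huv =>
      obtain ⟨rfl, rfl⟩ : x = u ∧ y = v := h
      exact B23 x y hxy
  | B3 x y hxy =>
    cases w' with
    | X z => exact (XB3 z x y hxy h.1 h.2.1 h.2.2).symm
    | B1 u =>
      obtain rfl : x = u := h
      exact (B13 x y hxy).symm
    | B2 u v huv =>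
      obtain ⟨rfl, rfl⟩ : x = u ∧ y = v := h
      exact (B23 x y hxy).symm
    | B3 u v huv =>
      obtain ⟨rfl, rfl⟩ : x = u ∧ y = v := h
      obtain ⟨a, a1, a2, -, a3⟩ := B23 x y hxy
      exact ⟨a, a1, a2, a3, a3⟩

lemma exists_single (hq : 4 ≤ Fintype.card F) (hth : ∀ u v, u ≠ v → th u v ≠ u ∧ th u v ≠ v)
    (w : Vx F) : ∃ a : F → ℝ, val th a w = 0 ∧ ∀ z, z ≠ w → 0 < val th a z := by
  have hq' : (4 : ℝ) ≤ Fintype.card F := by exact_mod_cast hq
  have small : ∀ (c k : ℝ), 0 < c → k ≤ 3 → ∃ t : ℝ, 0 < t ∧ (4 - k) * t ≤ c ∧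
      ((Fintype.card F : ℝ) - k) * t = c := by
    intro c k hc hk
    have h1 : 0 < (Fintype.card F : ℝ) - k := by linarith
    have h2 : 0 < c / ((Fintype.card F : ℝ) - k) := div_pos hc h1
    have h3 : ((Fintype.card F : ℝ) - k) * (c / ((Fintype.card F : ℝ) - k)) = c := by field_simp
    exact ⟨_, h2, by nlinarith, h3⟩
  cases w with
  | X x =>
    obtain ⟨u, u1, -, -⟩ := exists_ne3 hq x x x
    obtain ⟨v, v1, v2, -⟩ := exists_ne3 hq x u x
    obtain ⟨t, t0, t1, t2⟩ := small 64 1 (by norm_num) (by norm_num)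
    obtain ⟨a, a1, a2, a3, a4, a5⟩ := exists_pt u1.symm v1 v2 0 t t t
    have hs : ∑ y, a y = 64 := by rw [a5]; linarith
    have h0 := pt_cases a1 a2 a3 a4 (fun r => 0 ≤ r) le_rfl t0.le t0.le t0.le
    have h1 := pt_cases a1 a2 a3 a4 (fun r => r ≤ 40) (by norm_num) (by linarith) (by linarith)
      (by linarith)
    refine ⟨a, a1, fun z hz => ?_⟩
    rcases far hth h0 hs h1 z with ⟨y, rfl⟩ | k
    · have hy : y ≠ x := fun h => hz (by rw [h])
      show 0 < a y
      by_cases c1 : y = u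
      · rwa [c1, a2]
      by_cases c2 : y = v
      · rwa [c2, a3]
      rwa [a4 y hy c1 c2]
    · exact k
  | B1 x =>
    obtain ⟨u, u1, -, -⟩ := exists_ne3 hq x x x
    obtain ⟨v, v1, v2, -⟩ := exists_ne3 hq x u x
    obtain ⟨t, t0, t1, t2⟩ := small 16 1 (by norm_num) (by norm_num)
    obtain ⟨a, a1, a2, a3, a4, a5⟩ := exists_pt u1.symm v1 v2 48 t t t
    have hs : ∑ y, a y = 64 := by rw [a5]; linarith
    have h0 := pt_cases a1 a2 a3 a4 (fun r => 0 < r) (by norm_num) t0 t0 t0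
    have h1 : ∀ z, z ≠ x → a z ≤ 10 := by
      intro z hz
      by_cases c1 : z = u
      · rw [c1, a2]; linarith
      by_cases c2 : z = v
      · rw [c2, a3]; linarith
      rw [a4 z hz c1 c2]; linarith
    refine ⟨a, by simp only [val, hs, a1]; norm_num, fun z hz => ?_⟩
    rcases mid hth (fun y => (h0 y).le) hs a1 h1 z with ⟨y, rfl⟩ | rfl | k
    · exact h0 y
    · exact absurd rfl hz
    · exact k
  | B2 u v huv =>
    obtain ⟨t, t0, t1, t2⟩ := small 2 2 (by norm_num) (by norm_num)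
    obtain ⟨a, a1, a2, a3, a4, a5⟩ := exists_pt huv (hth u v huv).1 (hth u v huv).2 46 16 t t
    have hs : ∑ y, a y = 64 := by rw [a5]; linarith
    have h0 := pt_cases a1 a2 a3 a4 (fun r => 0 < r) (by norm_num) (by norm_num) t0 t0
    refine ⟨a, by simp only [val, hs, a1, a2]; norm_num, fun z hz => ?_⟩
    rcases near hth (fun y => (h0 y).le) hs huv (by linarith) (by linarith) (by linarith) z with
      ⟨y, rfl⟩ | rfl | rfl | rfl | k
    · exact h0 y
    · simp only [val, hs, a1]; norm_num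
    · exact absurd rfl hz
    · simp only [val, hs, a1, a2, a3]; linarith
    · exact k
  | B3 u v huv =>
    obtain ⟨t, t0, t1, t2⟩ := small (1 / 4) 3 (by norm_num) (by norm_num)
    obtain ⟨a, a1, a2, a3, a4, a5⟩ := exists_pt huv (hth u v huv).1 (hth u v huv).2
      (191 / 4) 12 4 t
    have hs : ∑ y, a y = 64 := by rw [a5]; linarith
    have h0 := pt_cases a1 a2 a3 a4 (fun r => 0 < r) (by norm_num) (by norm_num) (by norm_num) t0
    refine ⟨a, by simp only [val, hs, a1, a2, a3]; norm_num, fun z hz => ?_⟩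
    rcases near hth (fun y => (h0 y).le) hs huv (by linarith) (by linarith) (by linarith) z with
      ⟨y, rfl⟩ | rfl | rfl | rfl | k
    · exact h0 y
    · simp only [val, hs, a1]; norm_num
    · simp only [val, hs, a1, a2]; norm_num
    · exact absurd rfl hz
    · exact k

theorem upper_large (F : Type*) [Field F] [Fintype F] (hq : 4 ≤ Fintype.card F) :
    HasPolytope (Fintype.card F - 1) (F ≃ᵃ[F] F) := by
  obtain ⟨g, hg⟩ := IsCyclic.exists_generator (α := Fˣ)
  have hg1 : (g : F) ≠ 1 := by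
    intro h
    have hord : orderOf g = Fintype.card F - 1 := by
      rw [orderOf_eq_card_of_forall_mem_zpowers hg, Nat.card_eq_fintype_card, Fintype.card_units]
    have : g = 1 := Units.ext h
    rw [this, orderOf_one] at hord
    omega
  let th : F → F → F := fun u v => u + g * (v - u)
  have hth : ∀ u v, u ≠ v → th u v ≠ u ∧ th u v ≠ v := by
    intro u v huv
    constructor
    · intro h
      have : (g : F) * (v - u) = 0 := by linear_combination h
      exact huv (sub_eq_zero.1 ((mul_eq_zero.1 this).resolve_left g.ne_zero)).symm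
    · intro h
      have : ((g : F) - 1) * (v - u) = 0 := by linear_combination h
      exact huv (sub_eq_zero.1 ((mul_eq_zero.1 this).resolve_left (sub_ne_zero.2 hg1))).symm
  have hq' : (4 : ℝ) ≤ Fintype.card F := by exact_mod_cast hq
  have hpos : ∀ w, 0 < val th 1 w := by
    intro w
    cases w <;> simp [val] <;> linarith
  obtain ⟨x, hx⟩ := realize (V := Vx F) (0 : F) rfl (valL th) hpos
  have hx' : ∀ S, IsFace (affSp x) S ↔
      ∃ a : F → ℝ, (∀ v, 0 ≤ val th a v) ∧ ∀ v, v ∈ S ↔ val th a v = 0 := hx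
  let act : MulAction (F ≃ᵃ[F] F) (Vx F) :=
    { smul := fun e w => vmap e e.injective w
      one_smul := fun w => by cases w <;> rfl
      mul_smul := fun e e' w => by cases w <;> rfl }
  let α : (F ≃ᵃ[F] F) →* Equiv.Perm (Vx F) := MulAction.toPermHom _ _
  have hα : ∀ e w, α e w = vmap e e.injective w := fun _ _ => rfl
  have hval : ∀ (e : F ≃ᵃ[F] F) (a : F → ℝ) w, val th (a ∘ e.symm) (α e w) = val th a w := by
    intro e a w
    have hsum : ∑ y, a (e.symm y) = ∑ y, a y := Equiv.sum_comp e.symm.toEquiv a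
    have hthe : ∀ u v, th (e u) (e v) = e (th u v) := by
      intro u v
      simp only [th]
      rw [aff_apply e u, aff_apply e v, aff_apply e (u + _)]
      ring
    rw [hα]
    cases w <;> simp [val, vmap, hsum, hthe]
  have hcompat : ∀ w w', Compat (IsFace (affSp x)) w w' ↔ Adj th w w' := by
    intro w w'
    constructor
    · rintro ⟨S, hS, hS2, hw, hw'⟩
      obtain ⟨a, ha, hSa⟩ := (hx' S).1 hS
      refine adj_of_tight hth ha ?_ w w' ((hSa w).1 hw) ((hSa w').1 hw')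
      have h0 : ∀ y, 0 ≤ a y := fun y => ha (X y)
      refine lt_of_le_of_ne (sum_nonneg fun y _ => h0 y) fun h => hS2 ?_
      have h1 : ∀ y, a y = 0 := fun y =>
        (sum_eq_zero_iff_of_nonneg fun y _ => h0 y).1 h.symm y (mem_univ y)
      rw [Set.eq_univ_iff_forall]
      intro z
      rw [hSa]
      cases z <;> simp [val, h1]
    · intro h
      obtain ⟨a, a1, a2, a3, a4⟩ := tight_of_adj hq hth w w' h
      refine ⟨{z | val th a z = 0}, (hx' _).2 ⟨a, a1, fun _ => Iff.rfl⟩, fun h => ?_, a3, a4⟩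
      have h1 : ∀ y, a y = 0 := fun y => (Set.eq_univ_iff_forall.1 h) (X y)
      simp [h1] at a2
  refine hasPolytope_of x (aut_equiv _ α ?_ ?_ ?_ ?_ ?_)
  · intro e e' h
    ext y
    have := congrArg (fun π : Equiv.Perm (Vx F) => π (X y)) h
    simpa [hα, vmap] using this
  · intro e S hS
    obtain ⟨a, ha, hSa⟩ := (hx' S).1 hS
    refine (hx' _).2 ⟨a ∘ e.symm, fun v => ?_, fun v => ?_⟩
    · obtain ⟨w, rfl⟩ := (α e).surjective v
      rw [hval]; exact ha w
    · obtain ⟨w, rfl⟩ := (α e).surjective v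
      rw [hval, (α e).injective.mem_set_image]; exact hSa w
  · exact (hx' _).2 ⟨1, fun v => (hpos v).le, fun v => by simp [(hpos v).ne']⟩
  · intro w
    obtain ⟨a, a1, a2⟩ := exists_single hq hth w
    refine (hx' _).2 ⟨a, fun v => ?_, fun v => ?_⟩
    · by_cases h : v = w
      · rw [h, a1]
      · exact (a2 v h).le
    · by_cases h : v = w
      · simp [h, a1]
      · simp [h, (a2 v h).ne']
  · intro π hπ
    simp only [hcompat] at hπ
    obtain ⟨f, hf, h1, h2⟩ := perm_descr hq hth π hπ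
    have h3 : ∀ y : Fˣ, f y - f 0 = (f 1 - f 0) * y := by
      intro y
      obtain ⟨k, rfl⟩ := (mem_powers_iff_mem_zpowers.2 (hg y))
      induction k with
      | zero => simp
      | succ k ih =>
        have := h1 0 (g ^ k : Fˣ) (Units.ne_zero _).symm
        simp only [th, sub_zero, zero_add] at this ih
        simp only [pow_succ', Units.val_mul]
        rw [this, ih]
        ring
    obtain ⟨e, he⟩ := exists_aff (f 1 - f 0) (f 0) (sub_ne_zero.2 (hf.ne one_ne_zero))
    have h4 : (e : F → F) = f := by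
      funext y
      rw [he]
      by_cases hy : y = 0
      · simp [hy]
      · have := h3 (Units.mk0 y hy)
        simp only [Units.val_mk0] at this
        linear_combination -this
    refine ⟨e, Equiv.ext fun w => ?_⟩
    rw [hα, h2]
    cases w <;> simp [vmap, h4]

theorem main (F : Type*) [Field F] [Fintype F] :
    IsLeast {d | HasPolytope d (F ≃ᵃ[F] F)} (Fintype.card F - 1) := by
  refine ⟨?_, fun d hd => lower F hd⟩
  by_cases h : Fintype.card F ≤ 3
  · exact upper_small F h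
  · exact upper_large F (by omega)

end

end Pool.Agent.MP_23c9d7_co

end
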